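import Pool.Agent.LKTL.Defs
import Pool.Agent.LKCNF.TreeExt

set_option autoImplicit false

/-!
# From `Kn` to a code

`kn_data`: from `Kn xs γ K c T`, by induction on the derivation, a record for each clause: a rank
(the number of clauses before it), a time, two different variables of the clause, and for each of
them a source, either `inl α` with `att xs α = some v`, `α` at most the time, or `inr D` with an
earlier clause `D` which contains the variable; the total number of sources `inl` is `c`.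

`code_of`: `e : Fin n ≃ K`; `E i = e i`; translate the sources into pointers. First claim by
induction on `m`: `dec F d zs m i = E i ∨ dec F d zs m i = ∅`. Second claim: if the rank of `E i` is
less than `m` and its time is less than `zs.length`, then `dec F d zs m i = E i`.
-/

namespace Pool.Agent.LKTL

open Finset Pool.Agent.LKCNF Pool.Agent.LKCNF.Tree

variable {V : Type} [DecidableEq V]

/-- record of a clause -/
structure CodeRec (V : Type) where
  rk : ℕ
  tm : ℕ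
  s1 : ℕ ⊕ Finset (V × Bool)
  s2 : ℕ ⊕ Finset (V × Bool)
  v1 : V
  v2 : V

/-- number of free sources -/
def CodeRec.fr (r : CodeRec V) : ℕ :=
  (if r.s1.isLeft then 1 else 0) + (if r.s2.isLeft then 1 else 0)

/-- a correct source of the variable `v` for the clause `C` -/
def CodeSrc (xs : List V) (S : Finset (Finset (V × Bool)))
    (I : Finset (V × Bool) → CodeRec V) (rk tm : ℕ) (s : ℕ ⊕ Finset (V × Bool)) (v : V) : Prop :=
  (∃ α, s = Sum.inl α ∧ att xs α = some v ∧ α ≤ tm) ∨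
    ∃ D, s = Sum.inr D ∧ D ∈ S ∧ v ∈ vbl D ∧ (I D).rk < rk ∧ (I D).tm ≤ tm

/-- correct records -/
def CodeOK (xs : List V) (γ : Finset (V × Bool) → ℕ) (S : Finset (Finset (V × Bool)))
    (c T : ℕ) (I : Finset (V × Bool) → CodeRec V) : Prop :=
  (∀ C ∈ S, (I C).v1 ≠ (I C).v2 ∧ (I C).v1 ∈ vbl C ∧ (I C).v2 ∈ vbl C ∧ (I C).tm ≤ γ C ∧
    (I C).tm ≤ T ∧ (I C).rk < S.card ∧ CodeSrc xs S I (I C).rk (I C).tm (I C).s1 (I C).v1 ∧
    CodeSrc xs S I (I C).rk (I C).tm (I C).s2 (I C).v2) ∧ ∑ C ∈ S, (I C).fr = c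

theorem CodeOK.wait {xs : List V} {γ : Finset (V × Bool) → ℕ} {S : Finset (Finset (V × Bool))}
    {c T T' : ℕ} {I : Finset (V × Bool) → CodeRec V} (h : CodeOK xs γ S c T I) (hT : T ≤ T') :
    CodeOK xs γ S c T' I := by
  refine ⟨fun C hC => ?_, h.2⟩
  obtain ⟨h1, h2, h3, h4, h5, h6⟩ := h.1 C hC
  exact ⟨h1, h2, h3, h4, h5.trans hT, h6⟩

/-- one more clause -/
theorem CodeOK.insert {xs : List V} {γ : Finset (V × Bool) → ℕ}
    {S : Finset (Finset (V × Bool))} {c T : ℕ} {I : Finset (V × Bool) → CodeRec V}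
    (h : CodeOK xs γ S c T I) {X : Finset (V × Bool)} (hX : X ∉ S) (r : CodeRec V)
    (hr : r.rk = S.card) (hT : T ≤ r.tm) (hγ : r.tm ≤ γ X) (hv : r.v1 ≠ r.v2)
    (hv1 : r.v1 ∈ vbl X) (hv2 : r.v2 ∈ vbl X)
    (h1 : (∃ α, r.s1 = Sum.inl α ∧ att xs α = some r.v1 ∧ α ≤ r.tm) ∨
      ∃ D, r.s1 = Sum.inr D ∧ D ∈ S ∧ r.v1 ∈ vbl D)
    (h2 : (∃ α, r.s2 = Sum.inl α ∧ att xs α = some r.v2 ∧ α ≤ r.tm) ∨
      ∃ D, r.s2 = Sum.inr D ∧ D ∈ S ∧ r.v2 ∈ vbl D) :
    CodeOK xs γ (insert X S) (c + r.fr) r.tm (Function.update I X r) := by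
  have hne : ∀ D ∈ S, Function.update I X r D = I D := by
    intro D hD
    refine Function.update_of_ne ?_ _ _
    rintro rfl
    exact hX hD
  have hcard : (Insert.insert X S).card = S.card + 1 := Finset.card_insert_of_notMem hX
  have hsrc : ∀ (s : ℕ ⊕ Finset (V × Bool)) (v : V),
      ((∃ α, s = Sum.inl α ∧ att xs α = some v ∧ α ≤ r.tm) ∨
        ∃ D, s = Sum.inr D ∧ D ∈ S ∧ v ∈ vbl D) →
      CodeSrc xs (Insert.insert X S) (Function.update I X r) r.rk r.tm s v := by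
    rintro s v (h3 | ⟨D, h3, h4, h5⟩)
    · exact Or.inl h3
    · refine Or.inr ⟨D, h3, Finset.mem_insert_of_mem h4, h5, ?_, ?_⟩
      · rw [hne D h4, hr]
        exact (h.1 D h4).2.2.2.2.2.1
      · rw [hne D h4]
        exact (h.1 D h4).2.2.2.2.1.trans hT
  constructor
  · intro C hC
    rcases Finset.mem_insert.1 hC with rfl | hC
    · rw [Function.update_self]
      refine ⟨hv, hv1, hv2, hγ, le_refl _, ?_, hsrc _ _ h1, hsrc _ _ h2⟩
      rw [hcard, hr]
      exact Nat.lt_succ_self _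
    · rw [hne C hC]
      obtain ⟨g1, g2, g3, g4, g5, g6, g7, g8⟩ := h.1 C hC
      have hup : ∀ (s : ℕ ⊕ Finset (V × Bool)) (v : V), CodeSrc xs S I (I C).rk (I C).tm s v →
          CodeSrc xs (Insert.insert X S) (Function.update I X r) (I C).rk (I C).tm s v := by
        rintro s v (h3 | ⟨D, h3, h4, h5, h6, h7⟩)
        · exact Or.inl h3
        · refine Or.inr ⟨D, h3, Finset.mem_insert_of_mem h4, h5, ?_, ?_⟩
          · rw [hne D h4]
            exact h6
          · rw [hne D h4]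
            exact h7
      refine ⟨g1, g2, g3, g4, g5.trans hT, ?_, hup _ _ g7, hup _ _ g8⟩
      rw [hcard]
      exact g6.trans (Nat.lt_succ_self _)
  · rw [Finset.sum_insert hX, Function.update_self, add_comm]
    congr 1
    rw [← h.2]
    exact Finset.sum_congr rfl fun C hC => by rw [hne C hC]

/-- the union of two disjoint sets -/
theorem CodeOK.union {xs : List V} {γ : Finset (V × Bool) → ℕ}
    {S S' : Finset (Finset (V × Bool))} {c c' T : ℕ} {I I' : Finset (V × Bool) → CodeRec V}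
    (h : CodeOK xs γ S c T I) (h' : CodeOK xs γ S' c' T I') (hd : Disjoint S S') :
    ∃ J, CodeOK xs γ (S ∪ S') (c + c') T J := by
  classical
  obtain ⟨J, hJ⟩ : ∃ J : Finset (V × Bool) → CodeRec V, J = fun C =>
    if C ∈ S then I C else { I' C with rk := (I' C).rk + S.card } := ⟨_, rfl⟩
  have hJ1 : ∀ C ∈ S, J C = I C := fun C hC => by rw [hJ]; exact if_pos hC
  have hJ2 : ∀ C ∈ S', J C = { I' C with rk := (I' C).rk + S.card } := fun C hC => by
    rw [hJ]
    exact if_neg (Finset.disjoint_right.1 hd hC)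
  have hcard : (S ∪ S').card = S.card + S'.card := Finset.card_union_of_disjoint hd
  refine ⟨J, ?_, ?_⟩
  · intro C hC
    rcases Finset.mem_union.1 hC with hC | hC
    · rw [hJ1 C hC]
      obtain ⟨g1, g2, g3, g4, g5, g6, g7, g8⟩ := h.1 C hC
      have hup : ∀ (s : ℕ ⊕ Finset (V × Bool)) (v : V), CodeSrc xs S I (I C).rk (I C).tm s v →
          CodeSrc xs (S ∪ S') J (I C).rk (I C).tm s v := by
        rintro s v (h3 | ⟨D, h3, h4, h5, h6, h7⟩)
        · exact Or.inl h3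
        · refine Or.inr ⟨D, h3, Finset.mem_union_left _ h4, h5, ?_, ?_⟩
          · rw [hJ1 D h4]
            exact h6
          · rw [hJ1 D h4]
            exact h7
      exact ⟨g1, g2, g3, g4, g5, by omega, hup _ _ g7, hup _ _ g8⟩
    · rw [hJ2 C hC]
      obtain ⟨g1, g2, g3, g4, g5, g6, g7, g8⟩ := h'.1 C hC
      have hup : ∀ (s : ℕ ⊕ Finset (V × Bool)) (v : V),
          CodeSrc xs S' I' (I' C).rk (I' C).tm s v →
          CodeSrc xs (S ∪ S') J ((I' C).rk + S.card) (I' C).tm s v := by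
        rintro s v (h3 | ⟨D, h3, h4, h5, h6, h7⟩)
        · exact Or.inl h3
        · refine Or.inr ⟨D, h3, Finset.mem_union_right _ h4, h5, ?_, ?_⟩
          · rw [hJ2 D h4]
            exact Nat.add_lt_add_right h6 _
          · rw [hJ2 D h4]
            exact h7
      exact ⟨g1, g2, g3, g4, g5, by show (I' C).rk + S.card < _; omega, hup _ _ g7, hup _ _ g8⟩
  · rw [Finset.sum_union hd]
    congr 1
    · rw [← h.2]
      exact Finset.sum_congr rfl fun C hC => by rw [hJ1 C hC]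
    · rw [← h'.2]
      refine Finset.sum_congr rfl fun C hC => ?_
      rw [hJ2 C hC]
      rfl

theorem kn_data {xs : List V} {γ : Finset (V × Bool) → ℕ} {K : Finset (Finset (V × Bool))}
    {c T : ℕ} (h : Kn xs γ K c T) : ∃ I, CodeOK xs γ K c T I := by
  induction h with
  | seed X T α β a b ha hb hab haX hbX hα hβ hT =>
    have h0 : CodeOK xs γ ∅ 0 T (fun _ => ⟨0, T, Sum.inl α, Sum.inl β, a, b⟩) :=
      ⟨fun C hC => absurd hC (Finset.notMem_empty C), Finset.sum_empty⟩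
    have h1 := h0.insert (X := X) (Finset.notMem_empty X) ⟨0, T, Sum.inl α, Sum.inl β, a, b⟩
      Finset.card_empty.symm le_rfl hT hab haX hbX (Or.inl ⟨α, rfl, ha, hα⟩)
      (Or.inl ⟨β, rfl, hb, hβ⟩)
    exact ⟨_, h1⟩
  | ext S c T T' X C v α a hS hX hC hvX hvC ha haX hav hα hTT hT ih =>
    obtain ⟨I, hI⟩ := ih
    have h1 := hI.insert hX ⟨S.card, T', Sum.inl α, Sum.inr C, a, v⟩ rfl hTT hT hav haX hvX
      (Or.inl ⟨α, rfl, ha, hα⟩) (Or.inr ⟨C, rfl, hC, hvC⟩)
    exact ⟨_, h1⟩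
  | join S S' c c' T X C C' v v' hS hS' hd hX hX' hC hC' hvv hvX hvC hvX' hvC' hT ih ih' =>
    obtain ⟨I, hI⟩ := ih
    obtain ⟨I', hI'⟩ := ih'
    obtain ⟨J, hJ⟩ := hI.union hI' hd
    have hXu : X ∉ S ∪ S' := by
      rw [Finset.mem_union]
      exact fun h => h.elim hX hX'
    have h1 := hJ.insert hXu ⟨(S ∪ S').card, T, Sum.inr C, Sum.inr C', v, v'⟩ rfl le_rfl hT hvv
      hvX hvX' (Or.inr ⟨C, rfl, Finset.mem_union_left _ hC, hvC⟩)
      (Or.inr ⟨C', rfl, Finset.mem_union_right _ hC', hvC'⟩)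
    exact ⟨_, h1⟩
  | close S c T X C C' v v' hS hX hC hC' hvv hvX hvC hvX' hvC' hT ih =>
    obtain ⟨I, hI⟩ := ih
    have h1 := hI.insert hX ⟨S.card, T, Sum.inr C, Sum.inr C', v, v'⟩ rfl le_rfl hT hvv
      hvX hvX' (Or.inr ⟨C, rfl, hC, hvC⟩) (Or.inr ⟨C', rfl, hC', hvC'⟩)
    exact ⟨_, h1⟩
  | wait S c T T' hS hTT ih =>
    obtain ⟨I, hI⟩ := ih
    exact ⟨I, hI.wait hTT⟩

theorem code_of {k f c T n : ℕ} {F : Finset (Finset (V × Bool))} (hk : IsKCNF k F)
    (hlin : IsLinear F) {xs : List V} (hf : xs.length ≤ f) {γ : Finset (V × Bool) → ℕ}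
    {K : Finset (Finset (V × Bool))} (hKF : K ⊆ F) (hKn : Kn xs γ K c T) (hn : K.card = n)
    (ρ : Finset (V × Bool) → Fin (k + 1)) :
    ∃ (d : Dat f n k) (E : Fin n → Finset (V × Bool)),
      (Finset.univ : Finset (Fin n)).image E = K ∧ (∀ i, (d i).2.2 = ρ (E i)) ∧ nfree d ≤ c ∧
      (∀ zs, zs <:+ xs → ∀ i, dec F d zs n i = E i ∨ dec F d zs n i = ∅) ∧
      (∀ zs, zs <:+ xs → ∀ i, γ (E i) < zs.length → dec F d zs n i = E i) := by
  classical
  obtain ⟨I, hI, hsum⟩ := kn_data hKn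
  obtain ⟨e⟩ : Nonempty (K ≃ Fin n) := ⟨Finset.equivFinOfCardEq hn⟩
  obtain ⟨E, hE⟩ : ∃ E : Fin n → Finset (V × Bool), E = fun i => (e.symm i : Finset (V × Bool)) :=
    ⟨_, rfl⟩
  have hEi : ∀ i, E i = (e.symm i : Finset (V × Bool)) := fun i => by rw [hE]
  have hEK : ∀ i, E i ∈ K := fun i => by rw [hEi]; exact (e.symm i).2
  have hEj : ∀ (D : Finset (V × Bool)) (hD : D ∈ K), E (e ⟨D, hD⟩) = D := by
    intro D hD
    rw [hEi, Equiv.symm_apply_apply]
  -- pointers
  have hptr : ∀ (i : Fin n) (s : ℕ ⊕ Finset (V × Bool)) (v : V),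
      CodeSrc xs K I (I (E i)).rk (I (E i)).tm s v → ∃ q : Ptr f n k,
        (q.isLeft = s.isLeft) ∧
        ((∃ α : Fin f, q = Sum.inl α ∧ att xs α = some v ∧ (α : ℕ) ≤ (I (E i)).tm) ∨
          ∃ (j : Fin n) (p : Fin k), q = Sum.inr (j, p) ∧ pv (E j) p = some v ∧
            (I (E j)).rk < (I (E i)).rk ∧ (I (E j)).tm ≤ (I (E i)).tm) := by
    rintro i s v (⟨α, rfl, h1, h2⟩ | ⟨D, rfl, h1, h2, h3, h4⟩)
    · have hα : α < f := by
        refine lt_of_lt_of_le ?_ hf
        by_contra hle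
        rw [att_none (not_lt.1 hle)] at h1
        exact absurd h1 (by simp)
      exact ⟨Sum.inl ⟨α, hα⟩, rfl, Or.inl ⟨⟨α, hα⟩, rfl, h1, h2⟩⟩
    · obtain ⟨p, hp⟩ := exists_pos hk (hKF h1) h2
      refine ⟨Sum.inr (e ⟨D, h1⟩, p), rfl, Or.inr ⟨e ⟨D, h1⟩, p, rfl, ?_, ?_, ?_⟩⟩
      · rw [hEj]
        exact hp
      · rw [hEj]
        exact h3
      · rw [hEj]
        exact h4
  have hall := fun i => hI (E i) (hEK i)
  choose q1 hq1 hq1' using fun i => hptr i _ _ (hall i).2.2.2.2.2.2.1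
  choose q2 hq2 hq2' using fun i => hptr i _ _ (hall i).2.2.2.2.2.2.2
  obtain ⟨d, hd⟩ : ∃ d : Dat f n k, d = fun i => (q1 i, q2 i, ρ (E i)) := ⟨_, rfl⟩
  have hd1 : ∀ i, (d i).1 = q1 i := fun i => by rw [hd]
  have hd2 : ∀ i, (d i).2.1 = q2 i := fun i => by rw [hd]
  have hd3 : ∀ i, (d i).2.2 = ρ (E i) := fun i => by rw [hd]
  have hdec : ∀ zs m i, dec F d zs (m + 1) i =
      cl F (ptv zs (dec F d zs m) (q1 i)) (ptv zs (dec F d zs m) (q2 i)) := by
    intro zs m i
    rw [← hd1, ← hd2]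
    rfl
  -- first claim
  have h1 : ∀ m zs, zs <:+ xs → ∀ i, dec F d zs m i = E i ∨ dec F d zs m i = ∅ := by
    intro m
    induction m with
    | zero => exact fun zs _ i => Or.inr rfl
    | succ m ih =>
      intro zs hzs i
      have hp : ∀ (q : Ptr f n k) (v : V),
          ((∃ α : Fin f, q = Sum.inl α ∧ att xs α = some v ∧ (α : ℕ) ≤ (I (E i)).tm) ∨
          ∃ (j : Fin n) (p : Fin k), q = Sum.inr (j, p) ∧ pv (E j) p = some v ∧
            (I (E j)).rk < (I (E i)).rk ∧ (I (E j)).tm ≤ (I (E i)).tm) →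
          ptv zs (dec F d zs m) q = some v ∨ ptv zs (dec F d zs m) q = none := by
        rintro q v (⟨α, rfl, g1, -⟩ | ⟨j, p, rfl, g1, -, -⟩)
        · exact att_or hzs g1
        · exact pv_or g1 (ih zs hzs j)
      rw [hdec]
      exact cl_or hlin (hKF (hEK i)) (hall i).1 (hall i).2.1 (hall i).2.2.1
        (hp _ _ (hq1' i)) (hp _ _ (hq2' i))
  -- second claim
  have h2 : ∀ m zs, zs <:+ xs → ∀ i, (I (E i)).rk < m → (I (E i)).tm < zs.length →
      dec F d zs m i = E i := by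
    intro m
    induction m with
    | zero => exact fun zs _ i h => absurd h (Nat.not_lt_zero _)
    | succ m ih =>
      intro zs hzs i hrk htm
      have hp : ∀ (q : Ptr f n k) (v : V),
          ((∃ α : Fin f, q = Sum.inl α ∧ att xs α = some v ∧ (α : ℕ) ≤ (I (E i)).tm) ∨
          ∃ (j : Fin n) (p : Fin k), q = Sum.inr (j, p) ∧ pv (E j) p = some v ∧
            (I (E j)).rk < (I (E i)).rk ∧ (I (E j)).tm ≤ (I (E i)).tm) →
          ptv zs (dec F d zs m) q = some v := by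
        rintro q v (⟨α, rfl, g1, g2⟩ | ⟨j, p, rfl, g1, g2, g3⟩)
        · show att zs α = some v
          rw [att_suffix hzs (lt_of_le_of_lt g2 htm), g1]
        · show pv (dec F d zs m j) p = some v
          rw [ih zs hzs j (by omega) (by omega), g1]
      rw [hdec, hp _ _ (hq1' i), hp _ _ (hq2' i)]
      exact cl_eq hlin (hKF (hEK i)) (hall i).1 (hall i).2.1 (hall i).2.2.1
  refine ⟨d, E, ?_, hd3, ?_, fun zs hzs i => h1 n zs hzs i, fun zs hzs i hγ => ?_⟩
  · ext D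
    rw [Finset.mem_image]
    constructor
    · rintro ⟨i, -, rfl⟩
      exact hEK i
    · intro hD
      exact ⟨e ⟨D, hD⟩, Finset.mem_univ _, hEj D hD⟩
  · have h3 : nfree d = ∑ i, (I (E i)).fr := by
      unfold nfree CodeRec.fr
      refine Finset.sum_congr rfl fun i _ => ?_
      rw [hd1, hd2, hq1, hq2]
    have h4 : ∑ i, (I (E i)).fr = ∑ C ∈ K, (I C).fr := by
      rw [← Finset.sum_coe_sort K (fun C => (I C).fr), ← Equiv.sum_comp e.symm]
      exact Finset.sum_congr rfl fun i _ => by rw [hEi]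
    rw [h3, h4, hsum]
  · refine h2 n zs hzs i ?_ ?_
    · rw [← hn]
      exact (hall i).2.2.2.2.2.1
    · exact lt_of_le_of_lt (hall i).2.2.2.1 hγ

end Pool.Agent.LKTL
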