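import Pool.Agent.LKTL.Defs

set_option autoImplicit false

/-!
# Components, part A
-/

namespace Pool.Agent.LKTL.CompAS82

open Finset Pool.Agent.LKCNF Pool.Agent.LKCNF.Tree

variable {V : Type} [DecidableEq V]

theorem adj_symm {C D : Finset (V × Bool)} (h : adj C D) : adj D C := by
  obtain ⟨x, h1, h2⟩ := h
  exact ⟨x, h2, h1⟩

theorem mem_comp {S : Finset (Finset (V × Bool))} {C D : Finset (V × Bool)} :
    D ∈ comp S C ↔ D ∈ S ∧ reach S C D := by
  classical
  simp only [comp, Finset.mem_filter]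

theorem comp_self {S : Finset (Finset (V × Bool))} {C : Finset (V × Bool)} (hC : C ∈ S) :
    C ∈ comp S C := by
  rw [mem_comp]
  exact ⟨hC, Relation.ReflTransGen.refl⟩

theorem comp_closed {S : Finset (Finset (V × Bool))} {C D E : Finset (V × Bool)}
    (hD : D ∈ comp S C) (hE : E ∈ S) (h : adj D E) : E ∈ comp S C := by
  rw [mem_comp] at hD ⊢
  exact ⟨hE, Relation.ReflTransGen.tail hD.2 ⟨hE, h⟩⟩

/-- the component is the least closed set which contains `C` -/
theorem comp_min {S T : Finset (Finset (V × Bool))} {C : Finset (V × Bool)} (hC : C ∈ T)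
    (h : ∀ D ∈ T, ∀ E ∈ S, adj D E → E ∈ T) : comp S C ⊆ T := by
  intro D hD
  rw [mem_comp] at hD
  obtain ⟨-, hr⟩ := hD
  unfold reach at hr
  induction hr with
  | refl => exact hC
  | tail _ h2 ih => exact h _ ih _ h2.1 h2.2

theorem reach_symm {S : Finset (Finset (V × Bool))} {C D : Finset (V × Bool)} (hC : C ∈ S)
    (h : reach S C D) : reach S D C := by
  unfold reach at h ⊢
  have key : D ∈ S ∧ Relation.ReflTransGen (fun A B => B ∈ S ∧ adj A B) D C := by
    induction h with
    | refl => exact ⟨hC, Relation.ReflTransGen.refl⟩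
    | tail _ h2 ih => exact ⟨h2.1, Relation.ReflTransGen.head ⟨ih.1, adj_symm h2.2⟩ ih.2⟩
  exact key.2

theorem comp_eq {S : Finset (Finset (V × Bool))} {C D : Finset (V × Bool)} (hC : C ∈ S)
    (hD : D ∈ comp S C) : comp S D = comp S C := by
  have h1 := (mem_comp.1 hD).2
  have h2 := reach_symm hC h1
  ext E
  rw [mem_comp, mem_comp]
  exact ⟨fun h => ⟨h.1, Relation.ReflTransGen.trans h1 h.2⟩,
    fun h => ⟨h.1, Relation.ReflTransGen.trans h2 h.2⟩⟩

theorem comp_mono {S S' : Finset (Finset (V × Bool))} (h : S ⊆ S') (C : Finset (V × Bool)) :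
    comp S C ⊆ comp S' C := by
  intro D hD
  rw [mem_comp] at hD ⊢
  obtain ⟨h1, hr⟩ := hD
  refine ⟨h h1, ?_⟩
  unfold reach at hr ⊢
  clear h1
  induction hr with
  | refl => exact Relation.ReflTransGen.refl
  | tail _ h2 ih => exact Relation.ReflTransGen.tail ih ⟨h h2.1, h2.2⟩

/-- different components are disjoint -/
theorem comp_disj {S : Finset (Finset (V × Bool))} {A O : Finset (V × Bool)} (hA : A ∈ S)
    (hO : O ∈ S) (h : O ∉ comp S A) : Disjoint (comp S A) (comp S O) := by
  rw [Finset.disjoint_left]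
  intro D h1 h2
  apply h
  have e1 := comp_eq hA h1
  have e2 := comp_eq hO h2
  rw [← e1, e2]
  exact comp_self hO

/-- different components are not adjacent -/
theorem comp_far {S : Finset (Finset (V × Bool))} {A O D E : Finset (V × Bool)} (hA : A ∈ S)
    (hO : O ∈ S) (h : O ∉ comp S A) (hD : D ∈ comp S A) (hE : E ∈ comp S O) : ¬ adj D E := by
  intro hadj
  have h1 : E ∈ comp S A := comp_closed hD (mem_comp.1 hE).1 hadj
  exact Finset.disjoint_left.1 (comp_disj hA hO h) h1 hE

end Pool.Agent.LKTL.CompAS82
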