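import Pool.Agent.LKTL.Defs

set_option autoImplicit false

/-!
# LKTL/CompBS58: components after the insertion of a clause
-/

namespace Pool.Agent.LKTL

open Finset Pool.Agent.LKCNF Pool.Agent.LKCNF.Tree

variable {V : Type} [DecidableEq V]

theorem s58_mem_comp {S : Finset (Finset (V × Bool))} {C D : Finset (V × Bool)} :
    D ∈ comp S C ↔ D ∈ S ∧ reach S C D := by
  classical
  unfold comp
  rw [Finset.mem_filter]

theorem s58_adj_symm {C D : Finset (V × Bool)} (h : adj C D) : adj D C := by
  obtain ⟨x, h1, h2⟩ := h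
  exact ⟨x, h2, h1⟩

theorem s58_self {S : Finset (Finset (V × Bool))} {C : Finset (V × Bool)} (hC : C ∈ S) :
    C ∈ comp S C :=
  s58_mem_comp.2 ⟨hC, Relation.ReflTransGen.refl⟩

theorem s58_closed {S : Finset (Finset (V × Bool))} {C D E : Finset (V × Bool)}
    (hD : D ∈ comp S C) (hE : E ∈ S) (h : adj D E) : E ∈ comp S C :=
  s58_mem_comp.2 ⟨hE, (s58_mem_comp.1 hD).2.tail ⟨hE, h⟩⟩

theorem s58_min {S T : Finset (Finset (V × Bool))} {C : Finset (V × Bool)} (hC : C ∈ T)
    (h : ∀ D ∈ T, ∀ E ∈ S, adj D E → E ∈ T) : comp S C ⊆ T := by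
  intro D hD
  have h1 := (s58_mem_comp.1 hD).2
  clear hD
  unfold reach at h1
  induction h1 with
  | refl => exact hC
  | tail _ hs ih => exact h _ ih _ hs.1 hs.2

theorem s58_mono {S S' : Finset (Finset (V × Bool))} (h : S ⊆ S') (C : Finset (V × Bool)) :
    comp S C ⊆ comp S' C := by
  intro D hD
  obtain ⟨h1, h2⟩ := s58_mem_comp.1 hD
  refine s58_mem_comp.2 ⟨h h1, ?_⟩
  exact Relation.ReflTransGen.mono (fun a b hab => ⟨h hab.1, hab.2⟩) _ _ h2

theorem s58_back {S : Finset (Finset (V × Bool))} {A D : Finset (V × Bool)} (hA : A ∈ S)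
    (h : reach S A D) : D ∈ S ∧ reach S D A := by
  unfold reach at h
  induction h with
  | refl => exact ⟨hA, Relation.ReflTransGen.refl⟩
  | tail _ hs ih =>
    refine ⟨hs.1, ?_⟩
    exact Relation.ReflTransGen.head ⟨ih.1, s58_adj_symm hs.2⟩ ih.2

theorem s58_join {S : Finset (Finset (V × Bool))} {X A : Finset (V × Bool)} (hA : A ∈ S)
    (h1 : ∃ D ∈ comp S A, adj X D) : comp S A ⊆ comp (insert X S) X := by
  obtain ⟨D, hD, hX⟩ := h1
  have h2 := (s58_mem_comp.1 hD).2
  have h3 := s58_back hA h2
  have hD' : D ∈ comp (insert X S) X :=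
    s58_closed (s58_self (Finset.mem_insert_self _ _)) (Finset.mem_insert_of_mem h3.1) hX
  have h4 : A ∈ comp (insert X S) X := by
    refine s58_mem_comp.2 ⟨Finset.mem_insert_of_mem hA, ?_⟩
    refine Relation.ReflTransGen.trans (s58_mem_comp.1 hD').2 ?_
    exact Relation.ReflTransGen.mono
      (fun a b hab => ⟨Finset.mem_insert_of_mem hab.1, hab.2⟩) _ _ h3.2
  exact s58_min h4 fun E hE G hG hEG => s58_closed hE (Finset.mem_insert_of_mem hG) hEG

/-- a component not adjacent to the new clause does not change -/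
theorem comp_insert_far58 {S : Finset (Finset (V × Bool))} {X C : Finset (V × Bool)} (hC : C ∈ S)
    (h : ∀ D ∈ comp S C, ¬ adj D X) : comp (insert X S) C = comp S C := by
  refine Finset.Subset.antisymm ?_ (s58_mono (Finset.subset_insert _ _) C)
  refine s58_min (s58_self hC) fun D hD E hE hDE => ?_
  rcases Finset.mem_insert.1 hE with h1 | h1
  · rw [h1] at hDE
    exact absurd hDE (h D hD)
  · exact s58_closed hD h1 hDE

/-- the new clause is alone -/
theorem comp_insert_none58 {S : Finset (Finset (V × Bool))} {X : Finset (V × Bool)}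
    (h : ∀ D ∈ S, ¬ adj X D) : comp (insert X S) X = {X} := by
  refine Finset.Subset.antisymm ?_ (Finset.singleton_subset_iff.2
    (s58_self (Finset.mem_insert_self _ _)))
  refine s58_min (Finset.mem_singleton_self _) fun D hD E hE hDE => ?_
  rw [Finset.mem_singleton.1 hD] at hDE
  rcases Finset.mem_insert.1 hE with h1 | h1
  · rw [h1]; exact Finset.mem_singleton_self _
  · exact absurd hDE (h E h1)

/-- the new clause joins one component -/
theorem comp_insert_one58 {S : Finset (Finset (V × Bool))} {X A : Finset (V × Bool)} (hA : A ∈ S)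
    (h : ∀ D ∈ S, adj X D → D ∈ comp S A) (h1 : ∃ D ∈ comp S A, adj X D) :
    comp (insert X S) X = insert X (comp S A) := by
  refine Finset.Subset.antisymm ?_ ?_
  · refine s58_min (Finset.mem_insert_self _ _) fun D hD E hE hDE => ?_
    rcases Finset.mem_insert.1 hE with h2 | h2
    · rw [h2]; exact Finset.mem_insert_self _ _
    · refine Finset.mem_insert_of_mem ?_
      rcases Finset.mem_insert.1 hD with h3 | h3
      · rw [h3] at hDE
        exact h E h2 hDE
      · exact s58_closed h3 h2 hDE
  · exact Finset.insert_subset (s58_self (Finset.mem_insert_self _ _)) (s58_join hA h1)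

/-- the new clause joins two components -/
theorem comp_insert_two58 {S : Finset (Finset (V × Bool))} {X A O : Finset (V × Bool)} (hA : A ∈ S)
    (hO : O ∈ S) (h : ∀ D ∈ S, adj X D → D ∈ comp S A ∨ D ∈ comp S O)
    (h1 : ∃ D ∈ comp S A, adj X D) (h2 : ∃ D ∈ comp S O, adj X D) :
    comp (insert X S) X = insert X (comp S A ∪ comp S O) := by
  refine Finset.Subset.antisymm ?_ ?_
  · refine s58_min (Finset.mem_insert_self _ _) fun D hD E hE hDE => ?_
    rcases Finset.mem_insert.1 hE with h2 | h2
    · rw [h2]; exact Finset.mem_insert_self _ _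
    · refine Finset.mem_insert_of_mem ?_
      rw [Finset.mem_union]
      rcases Finset.mem_insert.1 hD with h3 | h3
      · rw [h3] at hDE
        exact h E h2 hDE
      · rcases Finset.mem_union.1 h3 with h4 | h4
        · exact Or.inl (s58_closed h4 h2 hDE)
        · exact Or.inr (s58_closed h4 h2 hDE)
  · exact Finset.insert_subset (s58_self (Finset.mem_insert_self _ _))
      (Finset.union_subset (s58_join hA h1) (s58_join hO h2))

end Pool.Agent.LKTL

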