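import Pool.Agent.LKTL.Defs
import Pool.Agent.LKTL.CompBS58
import Pool.Agent.LKTL.CompAS82

set_option autoImplicit false

/-!
# Components

`reach S C D` steps only into elements of `S`. Adjacency is symmetric, so inside `S` reachability is
an equivalence. All statements below are elementary.

Row A: comp_sub ... comp_far. Row B: the insertion lemmas.
-/

namespace Pool.Agent.LKTL

open Finset Pool.Agent.LKCNF Pool.Agent.LKCNF.Tree

variable {V : Type} [DecidableEq V]

theorem adj_symm {C D : Finset (V × Bool)} (h : adj C D) : adj D C := by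
  obtain ⟨x, h1, h2⟩ := h
  exact ⟨x, h2, h1⟩

theorem comp_sub (S : Finset (Finset (V × Bool))) (C : Finset (V × Bool)) : comp S C ⊆ S := by
  classical
  exact Finset.filter_subset _ _

theorem comp_self {S : Finset (Finset (V × Bool))} {C : Finset (V × Bool)} (hC : C ∈ S) :
    C ∈ comp S C := by
  exact CompAS82.comp_self hC

theorem comp_closed {S : Finset (Finset (V × Bool))} {C D E : Finset (V × Bool)}
    (hD : D ∈ comp S C) (hE : E ∈ S) (h : adj D E) : E ∈ comp S C := by
  exact CompAS82.comp_closed hD hE h

/-- the component is the least closed set which contains `C` -/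
theorem comp_min {S T : Finset (Finset (V × Bool))} {C : Finset (V × Bool)} (hC : C ∈ T)
    (h : ∀ D ∈ T, ∀ E ∈ S, adj D E → E ∈ T) : comp S C ⊆ T := by
  exact CompAS82.comp_min hC h

theorem comp_eq {S : Finset (Finset (V × Bool))} {C D : Finset (V × Bool)} (hC : C ∈ S)
    (hD : D ∈ comp S C) : comp S D = comp S C := by
  exact CompAS82.comp_eq hC hD

theorem comp_mono {S S' : Finset (Finset (V × Bool))} (h : S ⊆ S') (C : Finset (V × Bool)) :
    comp S C ⊆ comp S' C := by
  exact CompAS82.comp_mono h C

/-- different components are disjoint -/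
theorem comp_disj {S : Finset (Finset (V × Bool))} {A O : Finset (V × Bool)} (hA : A ∈ S)
    (hO : O ∈ S) (h : O ∉ comp S A) : Disjoint (comp S A) (comp S O) := by
  exact CompAS82.comp_disj hA hO h

/-- different components are not adjacent -/
theorem comp_far {S : Finset (Finset (V × Bool))} {A O D E : Finset (V × Bool)} (hA : A ∈ S)
    (hO : O ∈ S) (h : O ∉ comp S A) (hD : D ∈ comp S A) (hE : E ∈ comp S O) : ¬ adj D E := by
  exact CompAS82.comp_far hA hO h hD hE

/-- a component not adjacent to the new clause does not change -/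
theorem comp_insert_far {S : Finset (Finset (V × Bool))} {X C : Finset (V × Bool)} (hC : C ∈ S)
    (h : ∀ D ∈ comp S C, ¬ adj D X) : comp (insert X S) C = comp S C :=
  comp_insert_far58 hC h

/-- the new clause is alone -/
theorem comp_insert_none {S : Finset (Finset (V × Bool))} {X : Finset (V × Bool)}
    (h : ∀ D ∈ S, ¬ adj X D) : comp (insert X S) X = {X} :=
  comp_insert_none58 h

/-- the new clause joins one component -/
theorem comp_insert_one {S : Finset (Finset (V × Bool))} {X A : Finset (V × Bool)} (hA : A ∈ S)
    (h : ∀ D ∈ S, adj X D → D ∈ comp S A) (h1 : ∃ D ∈ comp S A, adj X D) :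
    comp (insert X S) X = insert X (comp S A) :=
  comp_insert_one58 hA h h1

/-- the new clause joins two components -/
theorem comp_insert_two {S : Finset (Finset (V × Bool))} {X A O : Finset (V × Bool)} (hA : A ∈ S)
    (hO : O ∈ S) (h : ∀ D ∈ S, adj X D → D ∈ comp S A ∨ D ∈ comp S O)
    (h1 : ∃ D ∈ comp S A, adj X D) (h2 : ∃ D ∈ comp S O, adj X D) :
    comp (insert X S) X = insert X (comp S A ∪ comp S O) :=
  comp_insert_two58 hA hO h h1 h2

end Pool.Agent.LKTL
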