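import Pool.Agent.LKTL.Defs

set_option autoImplicit false

/-!
# Facts about valid histories
-/

namespace Pool.Agent.LKTL.S83

open Finset Pool.Agent.LKCNF Pool.Agent.LKCNF.Tree Pool.Agent.LKTL

variable {V : Type} [DecidableEq V]

theorem entry_unique {F : Finset (Finset (V × Bool))} {τ : ℕ} {h : List (V × Bool × Bool)}
    (hv : LKTL.Valid F τ h) {x : V} {p q : Bool × Bool} (h1 : (x, p) ∈ h) (h2 : (x, q) ∈ h) :
    p = q := by
  induction h with
  | nil => cases h1
  | cons e h ih =>
    obtain ⟨hv1, hnd, _, _⟩ := hv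
    rcases List.mem_cons.1 h1 with h1 | h1 <;> rcases List.mem_cons.1 h2 with h2 | h2
    · rw [← h1] at h2
      exact (Prod.ext_iff.1 h2).2.symm
    · exfalso
      apply hnd
      rw [← h1]
      exact mem_dm.2 ⟨q.1, q.2, h2⟩
    · exfalso
      apply hnd
      rw [← h2]
      exact mem_dm.2 ⟨p.1, p.2, h1⟩
    · exact ih hv1 h1 h2

theorem not_mem_fvs {F : Finset (Finset (V × Bool))} {τ : ℕ} {h : List (V × Bool × Bool)}
    (hv : LKTL.Valid F τ h) {x : V} {b : Bool} (h1 : (x, b, false) ∈ h) : x ∉ fvs h := by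
  intro h2
  obtain ⟨c, hc⟩ := mem_fvs.1 h2
  have := entry_unique hv h1 hc
  simp at this

theorem fvs_nodup {F : Finset (Finset (V × Bool))} {τ : ℕ} {h : List (V × Bool × Bool)}
    (hv : LKTL.Valid F τ h) : (fvs h).Nodup := by
  induction h with
  | nil => simp [fvs]
  | cons e h ih =>
    obtain ⟨hv1, hnd, _, _⟩ := hv
    unfold fvs
    split_ifs with he
    · rw [List.nodup_cons]
      refine ⟨?_, ih hv1⟩
      intro hx
      obtain ⟨b, hb⟩ := mem_fvs.1 hx
      exact hnd (mem_dm.2 ⟨b, true, hb⟩)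
    · exact ih hv1

theorem valid_suffix {F : Finset (Finset (V × Bool))} {τ : ℕ} {g h : List (V × Bool × Bool)}
    (hg : g <:+ h) (hv : LKTL.Valid F τ h) : LKTL.Valid F τ g := by
  induction h with
  | nil =>
    have : g = [] := List.suffix_nil.1 hg
    rw [this]
    exact hv
  | cons e h ih =>
    rcases List.suffix_cons_iff.1 hg with rfl | hg'
    · exact hv
    · exact ih hg' hv.1

omit [DecidableEq V] in
theorem fvs_suffix {g h : List (V × Bool × Bool)} (hg : g <:+ h) : fvs g <:+ fvs h := by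
  induction h with
  | nil =>
    have : g = [] := List.suffix_nil.1 hg
    rw [this]
  | cons e h ih =>
    rcases List.suffix_cons_iff.1 hg with rfl | hg'
    · exact List.suffix_rfl
    · have h1 := ih hg'
      have h2 : fvs h <:+ fvs (e :: h) := by
        conv_rhs => unfold fvs
        split_ifs
        · exact List.suffix_cons _ _
        · exact List.suffix_rfl
      exact h1.trans h2

theorem mem_ever {F : Finset (Finset (V × Bool))} {τ : ℕ} {h : List (V × Bool × Bool)}
    {C : Finset (V × Bool)} : C ∈ ever F τ h ↔ C ∈ F ∧ ∃ g, g <:+ h ∧ Crit τ g C := by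
  classical
  simp only [ever, Finset.mem_filter]

theorem ever_mono {F : Finset (Finset (V × Bool))} {τ : ℕ} {g h : List (V × Bool × Bool)}
    (hg : g <:+ h) : ever F τ g ⊆ ever F τ h := by
  intro C hC
  obtain ⟨h1, g', h2, h3⟩ := mem_ever.1 hC
  exact mem_ever.2 ⟨h1, g', h2.trans hg, h3⟩

theorem ever_nil {k τ : ℕ} {F : Finset (Finset (V × Bool))} (hk : IsKCNF k F) (hτ : τ < k) :
    ever F τ ([] : List (V × Bool × Bool)) = ∅ := by
  apply Finset.eq_empty_of_forall_notMem
  intro C hC'
  obtain ⟨hC, g, hg, hc⟩ := mem_ever.1 hC'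
  have hg' : g = [] := List.suffix_nil.1 hg
  rw [hg'] at hc
  have h1 := hc.2
  have h2 : dm ([] : List (V × Bool × Bool)) = ∅ := rfl
  rw [h2, Finset.sdiff_empty] at h1
  have h3 : (C.image Prod.fst).card = k := (hk C hC).2
  have h4 : (vbl C).card = k := h3
  omega

end Pool.Agent.LKTL.S83
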