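import Pool.Agent.LKTL.Comp

set_option autoImplicit false

/-!
# Facts about valid histories and critical clauses (row B)
-/

namespace Pool.Agent.LKTL

open Finset Pool.Agent.LKCNF Pool.Agent.LKCNF.Tree

variable {V : Type} [DecidableEq V]

theorem crit_first_S89 {F : Finset (Finset (V × Bool))} {τ : ℕ} {h : List (V × Bool × Bool)}
    {C : Finset (V × Bool)} (hC : C ∈ ever F τ h) :
    ∃ g, g <:+ h ∧ Crit τ g C ∧ ∀ g', g' <:+ g → Crit τ g' C → g' = g := by
  classical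
  have h1 : ∃ g, g <:+ h ∧ Crit τ g C := by
    unfold ever at hC
    exact (Finset.mem_filter.1 hC).2
  have h2 : ∃ n : ℕ, ∃ g, g <:+ h ∧ Crit τ g C ∧ g.length = n := by
    obtain ⟨g, hg, hc⟩ := h1
    exact ⟨g.length, g, hg, hc, rfl⟩
  obtain ⟨g, hg, hc, hn⟩ := Nat.find_spec h2
  refine ⟨g, hg, hc, fun g' hg' hc' => ?_⟩
  have h3 : Nat.find h2 ≤ g'.length := Nat.find_min' h2 ⟨g', hg'.trans hg, hc', rfl⟩
  have h4 : g'.length ≤ g.length := hg'.length_le
  exact hg'.eq_of_length (by omega)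

/-- every forced entry has a responsible clause, critical just before -/
theorem forced_resp_S89 {F : Finset (Finset (V × Bool))} {τ : ℕ} {h : List (V × Bool × Bool)}
    (hv : Valid F τ h) {y : V} {b : Bool} (hy : (y, b, false) ∈ h) :
    ∃ g, (y, b, false) :: g <:+ h ∧ ∃ E ∈ F, Crit τ g E ∧ y ∈ vbl E := by
  induction h with
  | nil => cases hy
  | cons e h ih =>
    obtain ⟨hv1, _, _, hf⟩ := hv
    rcases List.mem_cons.1 hy with h1 | h1
    · subst h1
      exact ⟨h, List.suffix_refl _, (hf rfl).1⟩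
    · obtain ⟨g, hg, hE⟩ := ih hv1 h1
      exact ⟨g, hg.trans (List.suffix_cons _ _), hE⟩

theorem tp_ever_S89 {τ : ℕ} {g h : List (V × Bool × Bool)} {C : Finset (V × Bool)}
    (hg : g <:+ h) (hc : Crit τ g C) : Tp (fcnt (fvs g) C) C h := by
  obtain ⟨l, rfl⟩ := hg
  induction l with
  | nil => exact tp_of_open hc.1
  | cons e l ih =>
    refine ⟨ih, ?_⟩
    intro _ _ hlt
    exfalso
    have h1 : fcnt (fvs g) C ≤ fcnt (fvs (l ++ g)) C := by
      apply fcnt_mono
      intro x hx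
      obtain ⟨b, hb⟩ := mem_fvs.1 hx
      exact mem_fvs.2 ⟨b, List.mem_append_right _ hb⟩
    exact absurd (lt_of_lt_of_le hlt h1) (lt_irrefl _)

theorem card_split_S89 {k τ : ℕ} {F : Finset (Finset (V × Bool))} (hk : IsKCNF k F)
    {g : List (V × Bool × Bool)} (_hv : Valid F τ g) {C : Finset (V × Bool)} (hC : C ∈ F)
    (hc : Crit τ g C) :
    k ≤ fcnt (fvs g) C + ((vbl C ∩ dm g) \ (fvs g).toFinset).card + τ ∧
      fcnt (fvs g) C + ((vbl C ∩ dm g) \ (fvs g).toFinset).card ≤ k := by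
  have hkc : (vbl C).card = k := (hk C hC).2
  have h1 : (vbl C \ dm g).card + (vbl C ∩ dm g).card = (vbl C).card :=
    Finset.card_sdiff_add_card_inter _ _
  have h2 : ((vbl C ∩ dm g) \ (fvs g).toFinset).card +
      ((vbl C ∩ dm g) ∩ (fvs g).toFinset).card = (vbl C ∩ dm g).card :=
    Finset.card_sdiff_add_card_inter _ _
  have h3 : (vbl C ∩ dm g) ∩ (fvs g).toFinset = (fvs g).toFinset ∩ vbl C := by
    ext x
    simp only [Finset.mem_inter, List.mem_toFinset]
    constructor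
    · rintro ⟨⟨h4, _⟩, h5⟩
      exact ⟨h5, h4⟩
    · rintro ⟨h5, h4⟩
      obtain ⟨b, hb⟩ := mem_fvs.1 h5
      exact ⟨⟨h4, mem_dm.2 ⟨b, true, hb⟩⟩, h5⟩
  rw [h3] at h2
  have h4 : fcnt (fvs g) C = ((fvs g).toFinset ∩ vbl C).card := rfl
  have h5 := hc.2
  rw [h4]
  omega

end Pool.Agent.LKTL
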