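import Pool.Agent.LKTL.Comp
import Pool.Agent.LKTL.CritAS83
import Pool.Agent.LKTL.CritS89

set_option autoImplicit false

/-!
# Facts about valid histories and critical clauses

`entry_unique`, `not_mem_fvs`, `fvs_nodup`: as in `Pool.Agent.LKCNF.TreeHist` (only `e.1 ∉ dm h` is
used). `dm_suffix`, `ever_mono`: immediate. `crit_first`: take the shortest suffix where `C` is
critical. `ever_nil`: nothing is assigned at `[]` and `τ < k`. `forced_resp`: the definition of
`Valid` at that suffix (induct on `h`). `tp_ever`: `Tp r C g` for every `r` by `Tree.tp_of_open`,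
and later entries do not matter, because `fcnt (fvs g') C ≥ fcnt (fvs g) C` for `g <:+ g'`
(`Tree.fcnt_mono`). `card_split`: the variables of `C` assigned in `g` are the free ones
(`fcnt (fvs g) C` many) and the forced ones, at most `τ` are unassigned.
-/

namespace Pool.Agent.LKTL

open Finset Pool.Agent.LKCNF Pool.Agent.LKCNF.Tree

variable {V : Type} [DecidableEq V]

theorem entry_unique {F : Finset (Finset (V × Bool))} {τ : ℕ} {h : List (V × Bool × Bool)}
    (hv : Valid F τ h) {x : V} {p q : Bool × Bool} (h1 : (x, p) ∈ h) (h2 : (x, q) ∈ h) :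
    p = q :=
  S83.entry_unique hv h1 h2

theorem not_mem_fvs {F : Finset (Finset (V × Bool))} {τ : ℕ} {h : List (V × Bool × Bool)}
    (hv : Valid F τ h) {x : V} {b : Bool} (h1 : (x, b, false) ∈ h) : x ∉ fvs h :=
  S83.not_mem_fvs hv h1

theorem fvs_nodup {F : Finset (Finset (V × Bool))} {τ : ℕ} {h : List (V × Bool × Bool)}
    (hv : Valid F τ h) : (fvs h).Nodup :=
  S83.fvs_nodup hv

theorem valid_suffix {F : Finset (Finset (V × Bool))} {τ : ℕ} {g h : List (V × Bool × Bool)}
    (hg : g <:+ h) (hv : Valid F τ h) : Valid F τ g :=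
  S83.valid_suffix hg hv

theorem fvs_suffix {g h : List (V × Bool × Bool)} (hg : g <:+ h) : fvs g <:+ fvs h :=
  S83.fvs_suffix hg

theorem ever_mono {F : Finset (Finset (V × Bool))} {τ : ℕ} {g h : List (V × Bool × Bool)}
    (hg : g <:+ h) : ever F τ g ⊆ ever F τ h :=
  S83.ever_mono hg

theorem ever_nil {k τ : ℕ} {F : Finset (Finset (V × Bool))} (hk : IsKCNF k F) (hτ : τ < k) :
    ever F τ ([] : List (V × Bool × Bool)) = ∅ :=
  S83.ever_nil hk hτ

theorem crit_first {F : Finset (Finset (V × Bool))} {τ : ℕ} {h : List (V × Bool × Bool)}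
    {C : Finset (V × Bool)} (hC : C ∈ ever F τ h) :
    ∃ g, g <:+ h ∧ Crit τ g C ∧ ∀ g', g' <:+ g → Crit τ g' C → g' = g := by
  exact crit_first_S89 hC

/-- every forced entry has a responsible clause, critical just before -/
theorem forced_resp {F : Finset (Finset (V × Bool))} {τ : ℕ} {h : List (V × Bool × Bool)}
    (hv : Valid F τ h) {y : V} {b : Bool} (hy : (y, b, false) ∈ h) :
    ∃ g, (y, b, false) :: g <:+ h ∧ ∃ E ∈ F, Crit τ g E ∧ y ∈ vbl E := by
  exact forced_resp_S89 hv hy

theorem tp_ever {τ : ℕ} {g h : List (V × Bool × Bool)} {C : Finset (V × Bool)}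
    (hg : g <:+ h) (hc : Crit τ g C) : Tp (fcnt (fvs g) C) C h := by
  exact tp_ever_S89 hg hc

theorem card_split {k τ : ℕ} {F : Finset (Finset (V × Bool))} (hk : IsKCNF k F)
    {g : List (V × Bool × Bool)} (hv : Valid F τ g) {C : Finset (V × Bool)} (hC : C ∈ F)
    (hc : Crit τ g C) :
    k ≤ fcnt (fvs g) C + ((vbl C ∩ dm g) \ (fvs g).toFinset).card + τ ∧
      fcnt (fvs g) C + ((vbl C ∩ dm g) \ (fvs g).toFinset).card ≤ k := by
  exact card_split_S89 hk hv hC hc

end Pool.Agent.LKTL
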