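import Pool.Agent.LKCNF.TreePot

set_option autoImplicit false

/-!
# Definitions for the sharp tree-like lower bound

Everything of `Pool.Agent.LKCNF.Tree` (histories, `dm`, `Open`, `Crit`, `fvs`, `fcnt`, `Tp`, `cl`,
`pv`, `att`, `SS`) is reused. `F` is a linear `k`-CNF, `τ` the threshold (a clause is critical if
it is open and has at most `τ` unassigned variables), `N` the bound for the size of components.
-/

namespace Pool.Agent.LKTL

open Finset Pool.Agent.LKCNF Pool.Agent.LKCNF.Tree

variable {V : Type} [DecidableEq V]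

/-- weight of a critical clause -/
def wt (τ : ℕ) (h : List (V × Bool × Bool)) (C : Finset (V × Bool)) : ℕ :=
  2 ^ (τ - (vbl C \ dm h).card)

open Classical in
/-- total weight of the critical clauses which contain the literal `l` -/
noncomputable def side (F : Finset (Finset (V × Bool))) (τ : ℕ) (h : List (V × Bool × Bool))
    (l : V × Bool) : ℕ :=
  ∑ C ∈ F.filter (fun C => Crit τ h C ∧ l ∈ C), wt τ h C

/-- the histories which follow the rules: a free variable is in no critical clause, a forced
variable is in some critical clause, and its value falsifies at most the weight it satisfies -/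
def Valid (F : Finset (Finset (V × Bool))) (τ : ℕ) : List (V × Bool × Bool) → Prop
  | [] => True
  | e :: h => Valid F τ h ∧ e.1 ∉ dm h ∧
      (e.2.2 = true → ∀ C ∈ F, e.1 ∈ vbl C → ¬ Crit τ h C) ∧
      (e.2.2 = false → (∃ E ∈ F, Crit τ h E ∧ e.1 ∈ vbl E) ∧
        side F τ h (e.1, !e.2.1) ≤ side F τ h (e.1, e.2.1))

open Classical in
/-- the clauses which were critical at some time -/
noncomputable def ever (F : Finset (Finset (V × Bool))) (τ : ℕ) (h : List (V × Bool × Bool)) :
    Finset (Finset (V × Bool)) :=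
  F.filter fun C => ∃ g, g <:+ h ∧ Crit τ g C

/-- two clauses have a common variable -/
def adj (C D : Finset (V × Bool)) : Prop := ∃ x, x ∈ vbl C ∧ x ∈ vbl D

/-- `D` is reached from `C` inside `S` -/
def reach (S : Finset (Finset (V × Bool))) (C D : Finset (V × Bool)) : Prop :=
  Relation.ReflTransGen (fun A B => B ∈ S ∧ adj A B) C D

open Classical in
/-- the component of `C` in `S` -/
noncomputable def comp (S : Finset (Finset (V × Bool))) (C : Finset (V × Bool)) :
    Finset (Finset (V × Bool)) :=
  S.filter fun D => reach S C D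

/-- no subset of `S` has a cycle -/
def Her (k : ℕ) (S : Finset (Finset (V × Bool))) : Prop :=
  ∀ K ⊆ S, K.Nonempty → (k - 1) * K.card + 1 ≤ (K.biUnion vbl).card

/-- no cycle and only small components -/
def Good (k N : ℕ) (S : Finset (Finset (V × Bool))) : Prop :=
  Her k S ∧ ∀ C ∈ S, (comp S C).card < N

/-- all proper suffixes are good -/
def Clean (F : Finset (Finset (V × Bool))) (k τ N : ℕ) : List (V × Bool × Bool) → Prop
  | [] => True
  | _ :: h => Clean F k τ N h ∧ Good k N (ever F τ h)

/-- the sets of clauses which can be decoded in time: `Kn xs γ S c T` means that all clauses of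
`S` can be decoded at time `T`, each `C` at a time at most `γ C`, with `c` free pointers -/
inductive Kn (xs : List V) (γ : Finset (V × Bool) → ℕ) :
    Finset (Finset (V × Bool)) → ℕ → ℕ → Prop
  | seed (X : Finset (V × Bool)) (T α β : ℕ) (a b : V) (ha : att xs α = some a)
      (hb : att xs β = some b) (hab : a ≠ b) (haX : a ∈ vbl X) (hbX : b ∈ vbl X) (hα : α ≤ T)
      (hβ : β ≤ T) (hT : T ≤ γ X) : Kn xs γ {X} 2 T
  | ext (S : Finset (Finset (V × Bool))) (c T T' : ℕ) (X C : Finset (V × Bool)) (v : V) (α : ℕ)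
      (a : V) (hS : Kn xs γ S c T) (hX : X ∉ S) (hC : C ∈ S) (hvX : v ∈ vbl X) (hvC : v ∈ vbl C)
      (ha : att xs α = some a) (haX : a ∈ vbl X) (hav : a ≠ v) (hα : α ≤ T') (hTT : T ≤ T')
      (hT : T' ≤ γ X) : Kn xs γ (insert X S) (c + 1) T'
  | join (S S' : Finset (Finset (V × Bool))) (c c' T : ℕ) (X C C' : Finset (V × Bool)) (v v' : V)
      (hS : Kn xs γ S c T) (hS' : Kn xs γ S' c' T) (hd : Disjoint S S') (hX : X ∉ S)
      (hX' : X ∉ S') (hC : C ∈ S) (hC' : C' ∈ S') (hvv : v ≠ v') (hvX : v ∈ vbl X)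
      (hvC : v ∈ vbl C) (hvX' : v' ∈ vbl X) (hvC' : v' ∈ vbl C') (hT : T ≤ γ X) :
      Kn xs γ (insert X (S ∪ S')) (c + c') T
  | close (S : Finset (Finset (V × Bool))) (c T : ℕ) (X C C' : Finset (V × Bool)) (v v' : V)
      (hS : Kn xs γ S c T) (hX : X ∉ S) (hC : C ∈ S) (hC' : C' ∈ S) (hvv : v ≠ v')
      (hvX : v ∈ vbl X) (hvC : v ∈ vbl C) (hvX' : v' ∈ vbl X) (hvC' : v' ∈ vbl C')
      (hT : T ≤ γ X) : Kn xs γ (insert X S) c T
  | wait (S : Finset (Finset (V × Bool))) (c T T' : ℕ) (hS : Kn xs γ S c T) (hTT : T ≤ T') :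
      Kn xs γ S c T'

/-- a pointer: a free position, or a position in the clause with a given number -/
abbrev Ptr (f n k : ℕ) : Type := Fin f ⊕ (Fin n × Fin k)

/-- the codes of `n` clauses: two pointers and the number of constrained variables for each -/
abbrev Dat (f n k : ℕ) : Type := Fin n → Ptr f n k × Ptr f n k × Fin (k + 1)

/-- the value of a pointer -/
noncomputable def ptv {f n k : ℕ} (xs : List V) (K : Fin n → Finset (V × Bool)) :
    Ptr f n k → Option V
  | Sum.inl α => att xs α
  | Sum.inr p => pv (K p.1) p.2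

/-- the decoder, by iteration -/
noncomputable def dec {f n k : ℕ} (F : Finset (Finset (V × Bool))) (d : Dat f n k)
    (xs : List V) : ℕ → Fin n → Finset (V × Bool)
  | 0 => fun _ => ∅
  | m + 1 => fun i => cl F (ptv xs (dec F d xs m) (d i).1) (ptv xs (dec F d xs m) (d i).2.1)

/-- a constrained step -/
def Con {f n k : ℕ} (F : Finset (Finset (V × Bool))) (d : Dat f n k) (x : V) (ys : List V) :
    Prop :=
  ∃ i, x ∈ vbl (dec F d (x :: ys) n i) ∧ fcnt ys (dec F d (x :: ys) n i) < (d i).2.2

/-- the allowed values -/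
def Alw {f n k : ℕ} (F : Finset (Finset (V × Bool))) (d : Dat f n k) (x : V) (ys : List V)
    (b : Bool) : Prop :=
  ∀ i, x ∈ vbl (dec F d (x :: ys) n i) → fcnt ys (dec F d (x :: ys) n i) < (d i).2.2 →
    (x, !b) ∈ dec F d (x :: ys) n i

open Classical in
/-- the potential of one code -/
noncomputable def B {f n k : ℕ} (F : Finset (Finset (V × Bool))) (d : Dat f n k) :
    List (V × Bool × Bool) → ℝ
  | [] => 1
  | e :: h =>
      if e.2.2 = true ∧ Con F d e.1 (fvs h) then
        (if Alw F d e.1 (fvs h) e.2.1 then 2 * B F d h else 0)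
      else B F d h

/-- the number of free pointers of a code -/
def nfree {f n k : ℕ} (d : Dat f n k) : ℕ :=
  ∑ i, ((if (d i).1.isLeft then 1 else 0) + (if (d i).2.1.isLeft then 1 else 0))

/-- the weight of a pointer -/
noncomputable def pw {f n k : ℕ} : Ptr f n k → ℝ
  | Sum.inl _ => 1 / (2 * f)
  | Sum.inr _ => 1 / (2 * (n * k))

/-- the weight of a code -/
noncomputable def W {f n k : ℕ} (d : Dat f n k) : ℝ :=
  ∏ i, (pw (d i).1 * pw (d i).2.1 * (1 / ((k : ℝ) + 1)))

end Pool.Agent.LKTL
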