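import Pool.Agent.LKTL.Comp

set_option autoImplicit false

/-!
# Counting distinct variables

`union_ge`: `K ⊆ insert X S`, `Her k S`. Let `K0 = K.erase X`, `n = K.card`. If `K0` is non-empty,
`|⋃ vbl K0| ≥ (k - 1) |K0| + 1`. If `X ∉ K` we are done (`n k ≤ |U| + 2 n`). If `X ∈ K`, `X` has at
most one variable in common with each clause of `K0` (`hlin`), so it adds at least `k - (n - 1)`
variables (trivial if `n - 1 ≥ k`; then `n k ≤ ...` still holds, check). Also `K = {X}`, `K = ∅`.

`gain`: `U = ⋃ vbl K`, `n k ≤ |U| + 2 n`. A variable in at least two clauses of `K` is counted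
twice in `∑ C ∈ K, (vbl C).card = n k`, so the number of such variables is at most
`n k - |U| ≤ 2 n`. Every element of `⋃ jj C` is such a variable or in one of the sets `T`
(at most `n` elements): `|⋃ jj C| ≤ 3 n`. And `U ⊆ ⋃ ss C ∪ ⋃ jj C ∪ ⋃ (vbl C \ (ss C ∪ jj C))`.
-/

namespace Pool.Agent.LKTL

open Finset Pool.Agent.LKCNF Pool.Agent.LKCNF.Tree

variable {V : Type} [DecidableEq V]

theorem union_ge {k : ℕ} {S K : Finset (Finset (V × Bool))} {X : Finset (V × Bool)}
    (hHer : Her k S) (hK : K ⊆ insert X S) (hk : ∀ C ∈ K, (vbl C).card = k)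
    (hlin : ∀ C ∈ K, ∀ D ∈ K, C ≠ D → (vbl C ∩ vbl D).card ≤ 1) :
    K.card * k ≤ (K.biUnion vbl).card + 2 * K.card := by
  classical
  by_cases hX : X ∈ K
  · -- `X ∈ K`
    have hK0 : K.erase X ⊆ S := by
      intro C hC
      rw [mem_erase] at hC
      rcases mem_insert.1 (hK hC.2) with h | h
      · exact absurd h hC.1
      · exact h
    have hcard : (K.erase X).card + 1 = K.card := card_erase_add_one hX
    have hU : K.biUnion vbl = (K.erase X).biUnion vbl ∪ vbl X := by
      conv_lhs => rw [← insert_erase hX]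
      rw [biUnion_insert, union_comm]
    have hI : ((K.erase X).biUnion vbl ∩ vbl X).card ≤ (K.erase X).card := by
      have h1 : (K.erase X).biUnion vbl ∩ vbl X =
          (K.erase X).biUnion (fun C => vbl C ∩ vbl X) := by
        rw [biUnion_inter]
      rw [h1]
      have h2 := card_biUnion_le_card_mul (K.erase X) (fun C => vbl C ∩ vbl X) 1 (by
        intro C hC
        rw [mem_erase] at hC
        exact hlin C hC.2 X hX hC.1)
      rwa [mul_one] at h2
    have hsum := card_union_add_card_inter ((K.erase X).biUnion vbl) (vbl X)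
    rw [← hU, hk X hX] at hsum
    rcases (K.erase X).eq_empty_or_nonempty with he | hne
    · rw [he, card_empty] at hcard
      rw [he, biUnion_empty, empty_inter, card_empty] at hsum
      rw [← hcard]
      omega
    · have h3 := hHer _ hK0 hne
      rcases Nat.eq_zero_or_pos k with hk0 | hkp
      · rw [hk0, mul_zero]
        exact Nat.zero_le _
      · obtain ⟨j, rfl⟩ : ∃ j, k = j + 1 := ⟨k - 1, by omega⟩
        rw [Nat.add_sub_cancel] at h3
        rw [← hcard]
        set m := (K.erase X).card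
        have h4 : (m + 1) * (j + 1) = j * m + m + j + 1 := by ring
        rw [h4]
        omega
  · have hKS : K ⊆ S := by
      intro C hC
      rcases mem_insert.1 (hK hC) with h | h
      · exact absurd (h ▸ hC) hX
      · exact h
    rcases K.eq_empty_or_nonempty with he | hne
    · rw [he, card_empty, zero_mul]
      exact Nat.zero_le _
    · have h3 := hHer _ hKS hne
      rcases Nat.eq_zero_or_pos k with hk0 | hkp
      · rw [hk0, mul_zero]
        exact Nat.zero_le _
      · obtain ⟨j, rfl⟩ : ∃ j, k = j + 1 := ⟨k - 1, by omega⟩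
        rw [Nat.add_sub_cancel] at h3
        have h4 : K.card * (j + 1) = j * K.card + K.card := by ring
        rw [h4]
        omega

theorem gain {k τ : ℕ} {S K : Finset (Finset (V × Bool))} {X : Finset (V × Bool)}
    (hHer : Her k S) (hK : K ⊆ insert X S) (hk : ∀ C ∈ K, (vbl C).card = k)
    (hlin : ∀ C ∈ K, ∀ D ∈ K, C ≠ D → (vbl C ∩ vbl D).card ≤ 1)
    (ss jj : Finset (V × Bool) → Finset V)
    (hz : ∀ C ∈ K, (vbl C \ (ss C ∪ jj C)).card ≤ τ + 1)
    (hjj : ∀ C ∈ K, jj C ⊆ vbl C)
    (hsh : ∀ C ∈ K, ∃ T : Finset V, T.card ≤ 1 ∧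
      ∀ y ∈ jj C, y ∈ T ∨ ∃ D ∈ K, D ≠ C ∧ y ∈ vbl D) :
    K.card * k ≤ (K.biUnion ss).card + K.card * (τ + 6) := by
  classical
  have hge := union_ge hHer hK hk hlin
  set U := K.biUnion vbl with hU
  set M := U.filter (fun v => 1 < (K.filter (fun C => v ∈ vbl C)).card) with hM
  -- double counting
  have h1 : ∑ C ∈ K, (vbl C).card = ∑ v ∈ U, (K.filter (fun C => v ∈ vbl C)).card := by
    have h0 : ∀ C ∈ K, (vbl C).card = ∑ v ∈ U, if v ∈ vbl C then 1 else 0 := by
      intro C hC
      rw [← card_filter]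
      congr 1
      ext v
      rw [mem_filter]
      exact ⟨fun h => ⟨mem_biUnion.2 ⟨C, hC, h⟩, h⟩, fun h => h.2⟩
    rw [sum_congr rfl h0, sum_comm]
    refine sum_congr rfl fun v _ => ?_
    rw [card_filter]
  have h2 : ∑ C ∈ K, (vbl C).card = K.card * k := by
    rw [sum_congr rfl hk, sum_const, smul_eq_mul]
  have h3 : U.card + M.card ≤ ∑ v ∈ U, (K.filter (fun C => v ∈ vbl C)).card := by
    rw [hM, card_filter, card_eq_sum_ones, ← sum_add_distrib]
    refine sum_le_sum fun v hv => ?_
    rw [hU, mem_biUnion] at hv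
    obtain ⟨C, hC, hvC⟩ := hv
    have h4 : 0 < (K.filter (fun C => v ∈ vbl C)).card :=
      card_pos.2 ⟨C, mem_filter.2 ⟨hC, hvC⟩⟩
    split_ifs with h5 <;> omega
  have hMc : M.card ≤ 2 * K.card := by omega
  choose! T hT1 hT2 using hsh
  have hJ : (K.biUnion jj).card ≤ 3 * K.card := by
    have hsub : K.biUnion jj ⊆ K.biUnion T ∪ M := by
      intro y hy
      rw [mem_biUnion] at hy
      obtain ⟨C, hC, hyC⟩ := hy
      rw [mem_union]
      rcases hT2 C hC y hyC with h | ⟨D, hD, hDC, hyD⟩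
      · exact Or.inl (mem_biUnion.2 ⟨C, hC, h⟩)
      · right
        rw [hM, mem_filter, hU, mem_biUnion]
        refine ⟨⟨D, hD, hyD⟩, one_lt_card.2 ⟨D, mem_filter.2 ⟨hD, hyD⟩, C,
          mem_filter.2 ⟨hC, hjj C hC hyC⟩, hDC⟩⟩
    have h4 := card_biUnion_le_card_mul K T 1 hT1
    have h5 := (card_le_card hsub).trans (card_union_le _ _)
    omega
  have hZ := card_biUnion_le_card_mul K (fun C => vbl C \ (ss C ∪ jj C)) (τ + 1) hz
  have hsub : U ⊆ K.biUnion ss ∪ K.biUnion jj ∪ K.biUnion (fun C => vbl C \ (ss C ∪ jj C)) := by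
    intro v hv
    rw [hU, mem_biUnion] at hv
    obtain ⟨C, hC, hvC⟩ := hv
    rw [mem_union, mem_union]
    by_cases h1 : v ∈ ss C
    · exact Or.inl (Or.inl (mem_biUnion.2 ⟨C, hC, h1⟩))
    · by_cases h2 : v ∈ jj C
      · exact Or.inl (Or.inr (mem_biUnion.2 ⟨C, hC, h2⟩))
      · refine Or.inr (mem_biUnion.2 ⟨C, hC, mem_sdiff.2 ⟨hvC, fun h => ?_⟩⟩)
        rcases mem_union.1 h with h | h
        · exact h1 h
        · exact h2 h
  have h6 := (card_le_card hsub).trans ((card_union_le _ _).trans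
    (Nat.add_le_add_right (card_union_le _ _) _))
  have h7 : K.card * (τ + 6) = K.card * (τ + 1) + 5 * K.card := by ring
  rw [h7]
  omega

end Pool.Agent.LKTL
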