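import Pool.Agent.LKTL.Defs

set_option autoImplicit false

/-!
# The potential of one code

Everything here is a copy of the corresponding lemmas of `Pool.Agent.LKCNF.TreePot` (`B_nonneg`,
`B_forced`, `B_free`, `B_ge`), with `dec F d (x :: ys) n i` in place of the clauses `E` with
`KK F d (x :: ys) E` and `(d i).2.2` in place of `r`. A decoded clause with a variable is in `F`
(`dec_mem`: by cases on `n`; `Tree.cl_mem`).
-/

namespace Pool.Agent.LKTL

open Finset Pool.Agent.LKCNF Pool.Agent.LKCNF.Tree

variable {V : Type} [DecidableEq V]

theorem dec_mem {f n k : ℕ} {F : Finset (Finset (V × Bool))} {d : Dat f n k} {xs : List V}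
    {m : ℕ} {i : Fin n} {x : V} (hx : x ∈ vbl (dec F d xs m i)) : dec F d xs m i ∈ F := by
  cases m with
  | zero => exact absurd hx (by simp [dec, vbl])
  | succ m => exact cl_mem hx

theorem B_nonneg {f n k : ℕ} (F : Finset (Finset (V × Bool))) (d : Dat f n k)
    (h : List (V × Bool × Bool)) : 0 ≤ B F d h := by
  induction h with
  | nil => simp [B]
  | cons e h ih =>
    unfold B
    split_ifs <;> linarith

theorem B_forced {f n k : ℕ} (F : Finset (Finset (V × Bool))) (d : Dat f n k) (x : V)
    (b : Bool) (h : List (V × Bool × Bool)) : B F d ((x, b, false) :: h) = B F d h := by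
  rw [B]
  simp

theorem B_free {f n k k' : ℕ} {F : Finset (Finset (V × Bool))} (hk : IsKCNF k' F)
    (d : Dat f n k) (x : V) (h : List (V × Bool × Bool)) :
    B F d ((x, true, true) :: h) + B F d ((x, false, true) :: h) ≤ 2 * B F d h := by
  classical
  have h0 := B_nonneg F d h
  rw [B, B]
  by_cases hc : Con F d x (fvs h)
  · have hnot : ¬ (Alw F d x (fvs h) true ∧ Alw F d x (fvs h) false) := by
      rintro ⟨h1, h2⟩
      obtain ⟨i, hxE, hlt⟩ := hc
      exact not_both hk (dec_mem hxE) (h1 i hxE hlt) (h2 i hxE hlt)
    by_cases h1 : Alw F d x (fvs h) true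
    · have h2 : ¬ Alw F d x (fvs h) false := fun h2 => hnot ⟨h1, h2⟩
      simp only [hc, h1, h2, and_self, if_true, if_false]
      linarith
    · simp only [hc, h1, and_self, if_true, if_false]
      split_ifs <;> linarith
  · simp only [hc, and_false, if_false]
    linarith

theorem B_ge {f n k : ℕ} {F : Finset (Finset (V × Bool))} {d : Dat f n k}
    (E : Fin n → Finset (V × Bool)) (h : List (V × Bool × Bool))
    (h1 : ∀ x ys, (x :: ys) <:+ fvs h → ∀ i, dec F d (x :: ys) n i = E i ∨
      dec F d (x :: ys) n i = ∅)
    (h2 : ∀ x ys, (x :: ys) <:+ fvs h → ∀ i, x ∈ vbl (E i) → 1 ≤ fcnt ys (E i) →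
      dec F d (x :: ys) n i = E i)
    (h3 : ∀ i, Tp (d i).2.2 (E i) h) :
    (2 : ℝ) ^ ((Finset.univ : Finset (Fin n)).biUnion
      fun i => SS (d i).2.2 (E i) (fvs h)).card ≤ B F d h := by
  classical
  induction h with
  | nil =>
    have : ((Finset.univ : Finset (Fin n)).biUnion
        fun i => SS (d i).2.2 (E i) (fvs ([] : List (V × Bool × Bool)))) = ∅ := by
      rw [Finset.eq_empty_iff_forall_notMem]
      intro x hx
      obtain ⟨i, _, hE⟩ := Finset.mem_biUnion.1 hx
      simp [fvs, SS] at hE
    rw [this]
    simp [B]
  | cons e h ih =>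
    obtain ⟨x, b, φ⟩ := e
    cases φ with
    | false =>
      have hf : fvs ((x, b, false) :: h) = fvs h := by simp [fvs]
      rw [hf] at h1 h2 ⊢
      rw [B_forced]
      exact ih h1 h2 (fun i => (h3 i).1)
    | true =>
      have hf : fvs ((x, b, true) :: h) = x :: fvs h := by simp [fvs]
      rw [hf] at h1 h2 ⊢
      have ih := ih (fun y ys hs => h1 y ys (hs.trans (List.suffix_cons x (fvs h))))
        (fun y ys hs => h2 y ys (hs.trans (List.suffix_cons x (fvs h))))
        (fun i => (h3 i).1)
      have hself : (x :: fvs h) <:+ (x :: fvs h) := List.suffix_refl _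
      have hexp : ∀ i : Fin n, SS (d i).2.2 (E i) (x :: fvs h) ⊆
          insert x (SS (d i).2.2 (E i) (fvs h)) := by
        intro i
        rw [SS]
        split_ifs
        · exact Finset.Subset.refl _
        · exact Finset.subset_insert _ _
      by_cases hc : Con F d x (fvs h)
      · have ha : Alw F d x (fvs h) b := by
          intro i hxE hlt
          rcases h1 x (fvs h) hself i with hES | hE0
          · rw [hES] at hxE hlt ⊢
            exact (h3 i).2 rfl hxE hlt
          · rw [hE0] at hxE
            simp [vbl] at hxE
        have hB : B F d ((x, b, true) :: h) = 2 * B F d h := by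
          rw [B]
          simp only [hc, ha, and_self, if_true]
        rw [hB]
        have hcard : ((Finset.univ : Finset (Fin n)).biUnion
              fun i => SS (d i).2.2 (E i) (x :: fvs h)).card ≤
            ((Finset.univ : Finset (Fin n)).biUnion
              fun i => SS (d i).2.2 (E i) (fvs h)).card + 1 := by
          refine (Finset.card_le_card ?_).trans (Finset.card_insert_le x _)
          intro y hy
          obtain ⟨i, hi, hyE⟩ := Finset.mem_biUnion.1 hy
          rcases Finset.mem_insert.1 (hexp i hyE) with rfl | h5
          · exact Finset.mem_insert_self _ _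
          · exact Finset.mem_insert_of_mem (Finset.mem_biUnion.2 ⟨i, hi, h5⟩)
        calc (2 : ℝ) ^ ((Finset.univ : Finset (Fin n)).biUnion
                fun i => SS (d i).2.2 (E i) (x :: fvs h)).card
            ≤ 2 ^ (((Finset.univ : Finset (Fin n)).biUnion
                fun i => SS (d i).2.2 (E i) (fvs h)).card + 1) :=
              pow_le_pow_right₀ (by norm_num) hcard
          _ = 2 * 2 ^ ((Finset.univ : Finset (Fin n)).biUnion
                fun i => SS (d i).2.2 (E i) (fvs h)).card := by ring
          _ ≤ 2 * B F d h := by linarith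
      · have hB : B F d ((x, b, true) :: h) = B F d h := by
          rw [B]
          simp only [hc, and_false, if_false]
        rw [hB]
        have hU : ((Finset.univ : Finset (Fin n)).biUnion
              fun i => SS (d i).2.2 (E i) (x :: fvs h)) =
            (Finset.univ : Finset (Fin n)).biUnion
              fun i => SS (d i).2.2 (E i) (fvs h) := by
          apply Finset.biUnion_congr rfl
          intro i _
          rw [SS, if_neg]
          rintro ⟨h5, h6, h7⟩
          have h8 := h2 x (fvs h) hself i h5 h6
          refine hc ⟨i, ?_, ?_⟩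
          · rw [h8]
            exact h5
          · rw [h8]
            exact h7
        rw [hU]
        exact ih

end Pool.Agent.LKTL
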