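import Pool.Agent.LKTL.StageS80

set_option autoImplicit false

/-!
# The first bad stage

`comp_le`: if the component of `C` in `insert X S` does not contain `X`, it equals `comp S C`
(comp_min / comp_mono). If it contains `X`, it equals `comp (insert X S) X` (comp_eq), and this is
contained in `{X} ∪ ⋃ v ∈ vbl X, W v`, where `W v = comp S C_v` if some `C_v ∈ S` contains `v`
(choose one) and `∅` otherwise: this set contains `X` and is closed (use comp_min). Each `W v` has
less than `N` elements.

`stage`: induction on `(S1 \ S0).card`. `S0 ≠ S1`, take `X ∈ S1 \ S0`; if `insert X S0` is not good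
take `S = S0`, otherwise apply the induction hypothesis to `insert X S0`.
-/

namespace Pool.Agent.LKTL

open Finset Pool.Agent.LKCNF Pool.Agent.LKCNF.Tree

variable {V : Type} [DecidableEq V]

theorem comp_le {k N : ℕ} {S : Finset (Finset (V × Bool))} {X : Finset (V × Bool)}
    (hk : 1 ≤ k) (hX : (vbl X).card = k) (hS : ∀ C ∈ S, (comp S C).card < N) :
    ∀ C ∈ insert X S, (comp (insert X S) C).card ≤ 1 + k * N := by
  exact StageS80.comp_le hk hX hS

theorem stage {k N : ℕ} {S0 S1 : Finset (Finset (V × Bool))} (h0 : Good k N S0)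
    (h01 : S0 ⊆ S1) (h1 : ¬ Good k N S1) :
    ∃ S X, S0 ⊆ S ∧ X ∉ S ∧ insert X S ⊆ S1 ∧ Good k N S ∧ ¬ Good k N (insert X S) := by
  exact StageS80.stage h0 h01 h1

end Pool.Agent.LKTL
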