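import Pool.Agent.LKTL.Proc
import Pool.Agent.LKTL.Stage
import Pool.Agent.LKTL.Crit
import Pool.Agent.LKTL.Gain
import Pool.Agent.LKTL.Pot
import Pool.Agent.LKTL.Code

set_option autoImplicit false

/-!
# A bad history has a code with a large potential
-/

namespace Pool.Agent.LKTL

open Finset Pool.Agent.LKCNF Pool.Agent.LKCNF.Tree

variable {V : Type} [DecidableEq V]

/-- the forced variables of `C` in `g` -/
def jj (g : List (V × Bool × Bool)) (C : Finset (V × Bool)) : Finset V :=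
  (vbl C ∩ dm g) \ (fvs g).toFinset

theorem exists_gamma {xs : List V} (hn : xs.Nodup) (C : Finset (V × Bool)) :
    ∃ γ : ℕ, (2 ≤ fcnt xs C → γ < xs.length ∧ (∃ (α β : ℕ) (a b : V), att xs α = some a ∧
      att xs β = some b ∧ a ≠ b ∧ a ∈ vbl C ∧ b ∈ vbl C ∧ α ≤ γ ∧ β ≤ γ) ∧
      ∀ x ys, (x :: ys) <:+ xs → x ∈ vbl C → 1 ≤ fcnt ys C → γ ≤ ys.length) ∧
      (fcnt xs C < 2 → γ = xs.length) := by
  by_cases h : 2 ≤ fcnt xs C
  · obtain ⟨α, β, a, b, hα, hβ, ha, hb, hab, haC, hbC, hall⟩ := two_first hn h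
    refine ⟨max α β, fun _ => ⟨max_lt hα hβ, ⟨α, β, a, b, ha, hb, hab, haC, hbC,
      le_max_left _ _, le_max_right _ _⟩, ?_⟩, fun h2 => by omega⟩
    intro x ys hs hx h1
    obtain ⟨h3, h4⟩ := hall x ys hs hx h1
    exact max_le h3 h4
  · exact ⟨xs.length, fun h2 => absurd h2 h, fun _ => rfl⟩

/-- every forced variable of `C` has a responsible clause in `S`, different from `C` -/
theorem resp {τ : ℕ} {F S : Finset (Finset (V × Bool))} {e : V × Bool × Bool}
    {h' g : List (V × Bool × Bool)} (hv : Valid F τ (e :: h')) (hS : ever F τ h' ⊆ S)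
    {C : Finset (V × Bool)} (hg : g <:+ e :: h')
    (hmin : ∀ g', g' <:+ g → Crit τ g' C → g' = g) {y : V} (hy : y ∈ jj g C) :
    (∃ E ∈ S, E ≠ C ∧ y ∈ vbl E) ∧ y ∉ fvs (e :: h') := by
  classical
  obtain ⟨h1, h2⟩ := Finset.mem_sdiff.1 hy
  obtain ⟨h3, h4⟩ := Finset.mem_inter.1 h1
  obtain ⟨b, φ, hb⟩ := mem_dm.1 h4
  have hφ : φ = false := by
    cases φ with
    | false => rfl
    | true => exact absurd (List.mem_toFinset.2 (mem_fvs.2 ⟨b, hb⟩)) h2
  subst hφ
  obtain ⟨g0, hg0, E, hE, hcr, hyE⟩ := forced_resp (valid_suffix hg hv) hb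
  refine ⟨⟨E, hS ?_, ?_, hyE⟩, not_mem_fvs hv (hg.subset hb)⟩
  · have h5 : g0 <:+ h' := by
      rcases List.suffix_cons_iff.1 (hg0.trans hg) with h6 | h6
      · have h7 : g0 = h' := (List.cons.inj h6).2
        rw [h7]
      · exact (List.suffix_cons _ _).trans h6
    unfold ever
    exact Finset.mem_filter.2 ⟨hE, g0, h5, hcr⟩
  · rintro rfl
    have h5 := hmin g0 ((List.suffix_cons _ _).trans hg0) hcr
    have h6 := hg0.length_le
    rw [h5, List.length_cons] at h6
    omega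

theorem finish {k τ f c T : ℕ} {F S K : Finset (Finset (V × Bool))} {X : Finset (V × Bool)}
    (hk : IsKCNF k F) (hlin : IsLinear F) {h : List (V × Bool × Bool)} (hv : Valid F τ h)
    (hlen : (fvs h).length ≤ f) (hHer : Her k S) (hKQ : K ⊆ insert X S) (hKF : K ⊆ F)
    (γ : Finset (V × Bool) → ℕ) (hKn : Kn (fvs h) γ K c T)
    (hγ1 : ∀ C, 2 ≤ fcnt (fvs h) C → ∀ x ys, (x :: ys) <:+ fvs h → x ∈ vbl C →
      1 ≤ fcnt ys C → γ C ≤ ys.length)
    (g : Finset (V × Bool) → List (V × Bool × Bool))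
    (hg : ∀ C ∈ K, g C <:+ h ∧ Crit τ (g C) C)
    (hj : ∀ C ∈ K, ∀ y ∈ jj (g C) C, y ∉ fvs h)
    (hsh : ∀ C ∈ K, ∃ T : Finset V, T.card ≤ 1 ∧
      ∀ y ∈ jj (g C) C, y ∈ T ∨ ∃ D ∈ K, D ≠ C ∧ y ∈ vbl D) :
    ∃ d : Dat f K.card k, nfree d ≤ c ∧ (2 : ℝ) ^ (K.card * (k - τ - 6)) ≤ B F d h := by
  classical
  have hnd := fvs_nodup hv
  let ρ : Finset (V × Bool) → Fin (k + 1) := fun C =>
    ⟨min (fcnt (fvs (g C)) C) k, by omega⟩
  have hsplit : ∀ C ∈ K, k ≤ fcnt (fvs (g C)) C + (jj (g C) C).card + τ ∧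
      fcnt (fvs (g C)) C + (jj (g C) C).card ≤ k := fun C hC =>
    card_split hk (valid_suffix (hg C hC).1 hv) (hKF hC) (hg C hC).2
  have hρ : ∀ C ∈ K, ((ρ C : Fin (k + 1)) : ℕ) = fcnt (fvs (g C)) C := by
    intro C hC
    have h1 := (hsplit C hC).2
    show min (fcnt (fvs (g C)) C) k = fcnt (fvs (g C)) C
    omega
  obtain ⟨d, E, hE, hdρ, hnf, h1, h2⟩ := code_of hk hlin hlen hKF hKn rfl ρ
  have hEK : ∀ i, E i ∈ K := by
    intro i
    rw [← hE]
    exact Finset.mem_image_of_mem _ (Finset.mem_univ i)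
  refine ⟨d, hnf, ?_⟩
  have hB := B_ge (F := F) (d := d) E h (fun x ys hs i => h1 _ hs i) ?_ ?_
  · refine le_trans ?_ hB
    apply pow_le_pow_right₀ (by norm_num)
    have hU : ((Finset.univ : Finset (Fin K.card)).biUnion
        fun i => SS (d i).2.2 (E i) (fvs h)) =
        K.biUnion (fun C => SS (fcnt (fvs (g C)) C) C (fvs h)) := by
      ext x
      simp only [Finset.mem_biUnion]
      constructor
      · rintro ⟨i, _, hx⟩
        refine ⟨E i, hEK i, ?_⟩
        rw [hdρ i, hρ _ (hEK i)] at hx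
        exact hx
      · rintro ⟨C, hC, hx⟩
        have hC2 := hC
        rw [← hE] at hC2
        obtain ⟨i, _, rfl⟩ := Finset.mem_image.1 hC2
        refine ⟨i, Finset.mem_univ _, ?_⟩
        rw [hdρ i, hρ _ (hEK i)]
        exact hx
    rw [hU]
    have hG := gain (τ := τ) hHer hKQ (fun C hC => (hk C (hKF hC)).2)
      (fun C hC D hD hne => hlin C (hKF hC) D (hKF hD) hne)
      (fun C => SS (fcnt (fvs (g C)) C) C (fvs h)) (fun C => jj (g C) C) ?_ ?_ hsh
    · have h3 : K.card * (k - τ - 6) = K.card * k - K.card * (τ + 6) := by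
        rw [Nat.sub_sub, Nat.mul_sub]
      rw [h3]
      omega
    · intro C hC
      have hss := SS_sub (fcnt (fvs (g C)) C) C (fvs h)
      have hjv : jj (g C) C ⊆ vbl C := by
        intro y hy
        exact (Finset.mem_inter.1 (Finset.mem_sdiff.1 hy).1).1
      have hdis : Disjoint (SS (fcnt (fvs (g C)) C) C (fvs h)) (jj (g C) C) := by
        rw [Finset.disjoint_left]
        intro x hx hx2
        exact hj C hC x hx2 (List.mem_toFinset.1 (Finset.mem_inter.1 (hss hx)).1)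
      have hsub : SS (fcnt (fvs (g C)) C) C (fvs h) ∪ jj (g C) C ⊆ vbl C := by
        apply Finset.union_subset _ hjv
        intro x hx
        exact (Finset.mem_inter.1 (hss hx)).2
      have hc1 := Finset.card_sdiff_of_subset hsub
      rw [Finset.card_union_of_disjoint hdis, (hk C (hKF hC)).2] at hc1
      have hc2 := SS_card (r := fcnt (fvs (g C)) C) (E := C) hnd
      have hmono : fcnt (fvs (g C)) C ≤ fcnt (fvs h) C :=
        fcnt_mono (fun x hx => (fvs_suffix (hg C hC).1).subset hx) C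
      rw [min_eq_right hmono] at hc2
      have hc3 := (hsplit C hC).1
      show (vbl C \ (SS (fcnt (fvs (g C)) C) C (fvs h) ∪ jj (g C) C)).card ≤ τ + 1
      omega
    · intro C _ y hy
      exact (Finset.mem_inter.1 (Finset.mem_sdiff.1 hy).1).1
  · intro x ys hs i hx hy
    apply h2 _ hs i
    have h3 : 2 ≤ fcnt (fvs h) (E i) := by
      have h4 : fcnt (x :: ys) (E i) ≤ fcnt (fvs h) (E i) :=
        fcnt_mono (fun z hz => hs.subset hz) (E i)
      have h5 : x ∉ ys := (List.nodup_cons.1 (hnd.sublist hs.sublist)).1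
      rw [fcnt_cons x ys (E i) h5, if_pos hx] at h4
      omega
    have h4 := hγ1 (E i) h3 x ys hs hx hy
    rw [List.length_cons]
    omega
  · intro i
    rw [hdρ i, hρ _ (hEK i)]
    exact tp_ever (hg _ (hEK i)).1 (hg _ (hEK i)).2

theorem extract {k τ N f : ℕ} {F : Finset (Finset (V × Bool))} (hk : IsKCNF k F)
    (hlin : IsLinear F) (hkτ : τ + N ≤ k) (h4 : τ + 4 ≤ k) {h : List (V × Bool × Bool)}
    (hv : Valid F τ h) (hcl : Clean F k τ N h) (hbad : ¬ Good k N (ever F τ h))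
    (hlen : (fvs h).length ≤ f) :
    ∃ n, 1 ≤ n ∧ n ≤ 1 + k * N ∧ ∃ (d : Dat f n k) (c : ℕ), nfree d ≤ c ∧
      (c ≤ n ∨ (c ≤ n + 1 ∧ N ≤ n)) ∧ (2 : ℝ) ^ (n * (k - τ - 6)) ≤ B F d h := by
  classical
  cases h with
  | nil =>
    exfalso
    apply hbad
    rw [ever_nil hk (by omega)]
    refine ⟨?_, fun C hC => absurd hC (Finset.notMem_empty _)⟩
    intro K hK hne
    obtain ⟨C, hC⟩ := hne
    exact absurd (hK hC) (Finset.notMem_empty _)
  | cons e h' =>
    obtain ⟨_, hgood'⟩ := hcl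
    obtain ⟨S, X, hS0, hXS, hQ1, hgood, hbadQ⟩ :=
      stage hgood' (ever_mono (List.suffix_cons e h')) hbad
    have heF : ever F τ (e :: h') ⊆ F := by
      unfold ever
      exact Finset.filter_subset _ _
    have hQF : insert X S ⊆ F := hQ1.trans heF
    have hXF : X ∈ F := hQF (Finset.mem_insert_self _ _)
    have hfirst : ∀ C, C ∈ insert X S → ∃ g, g <:+ e :: h' ∧ Crit τ g C ∧
        ∀ g', g' <:+ g → Crit τ g' C → g' = g := fun C hC => crit_first (hQ1 hC)
    choose! g hg1 hg2 hg3 using hfirst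
    have hnd := fvs_nodup hv
    choose γ hγ1 hγ2 using fun C => exists_gamma (V := V) hnd C
    have hsplit : ∀ C ∈ insert X S, k ≤ fcnt (fvs (g C)) C + (jj (g C) C).card + τ := fun C hC =>
      (card_split hk (valid_suffix (hg1 C hC) hv) (hQF hC) (hg2 C hC)).1
    have hmono : ∀ C ∈ insert X S, fcnt (fvs (g C)) C ≤ fcnt (fvs (e :: h')) C := fun C hC =>
      fcnt_mono (fun x hx => (fvs_suffix (hg1 C hC)).subset hx) C
    have hresp : ∀ C ∈ insert X S, ∀ y ∈ jj (g C) C,
        (∃ E ∈ S, E ≠ C ∧ y ∈ vbl E) ∧ y ∉ fvs (e :: h') := fun C hC y hy =>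
      resp hv hS0 (hg1 C hC) (hg3 C hC) hy
    have hjv : ∀ C y, y ∈ jj (g C) C → y ∈ vbl C := fun C y hy =>
      (Finset.mem_inter.1 (Finset.mem_sdiff.1 hy).1).1
    -- the clauses of `S` have at least two free variables
    have hSfree : ∀ C ∈ S, 2 ≤ fcnt (fvs (e :: h')) C := by
      intro C hC
      have hCQ : C ∈ insert X S := Finset.mem_insert_of_mem hC
      have h1 : ∀ y, y ∈ jj (g C) C → ∃ E, E ∈ S ∧ E ≠ C ∧ y ∈ vbl E := fun y hy => by
        obtain ⟨⟨E, h2, h3, h4⟩, _⟩ := hresp C hCQ y hy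
        exact ⟨E, h2, h3, h4⟩
      choose! r hr1 hr2 hr3 using h1
      have h2 : ((jj (g C) C).image r) ⊆ (comp S C).erase C := by
        intro E hE
        obtain ⟨y, hy, rfl⟩ := Finset.mem_image.1 hE
        refine Finset.mem_erase.2 ⟨hr2 y hy, ?_⟩
        exact comp_closed (comp_self hC) (hr1 y hy) ⟨y, hjv C y hy, hr3 y hy⟩
      have h3 : Set.InjOn r (jj (g C) C : Set V) := by
        intro y hy z hz hyz
        have hy := Finset.mem_coe.1 hy
        have hz := Finset.mem_coe.1 hz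
        by_contra hne
        have h4 := hlin (r y) (hQF (Finset.mem_insert_of_mem (hr1 y hy))) C (hQF hCQ)
          (hr2 y hy)
        have h5 : ({y, z} : Finset V) ⊆ vbl (r y) ∩ vbl C := by
          intro w hw
          rcases Finset.mem_insert.1 hw with rfl | hw
          · exact Finset.mem_inter.2 ⟨hr3 _ hy, hjv C _ hy⟩
          · rw [Finset.mem_singleton.1 hw]
            refine Finset.mem_inter.2 ⟨?_, hjv C z hz⟩
            rw [hyz]
            exact hr3 z hz
        have h6 := Finset.card_le_card h5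
        rw [Finset.card_pair hne] at h6
        omega
      have h4 := Finset.card_le_card h2
      rw [Finset.card_image_of_injOn h3, Finset.card_erase_of_mem (comp_self hC)] at h4
      have h5 := hgood.2 C hC
      have h6 := hsplit C hCQ
      have h7 := hmono C hCQ
      have h8 : 0 < (comp S C).card := Finset.card_pos.2 ⟨C, comp_self hC⟩
      omega
    have hfree : ∀ C ∈ insert X S, γ C < (fvs (e :: h')).length → ∃ (α β : ℕ) (a b : V),
        att (fvs (e :: h')) α = some a ∧ att (fvs (e :: h')) β = some b ∧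
        a ≠ b ∧ a ∈ vbl C ∧ b ∈ vbl C ∧ α ≤ γ C ∧ β ≤ γ C := by
      intro C _ hlt
      have h1 : 2 ≤ fcnt (fvs (e :: h')) C := by
        by_contra h2
        have := hγ2 C (not_le.1 h2)
        omega
      exact (hγ1 C h1).2.1
    have hrest : ∀ C ∈ insert X S, (fvs (e :: h')).length ≤ γ C → ∃ Y ⊆ vbl C, 3 ≤ Y.card ∧
        ∀ y ∈ Y, ∃ E ∈ insert X S, γ E < (fvs (e :: h')).length ∧ y ∈ vbl E := by
      intro C hC hle
      have h1 : fcnt (fvs (e :: h')) C < 2 := by
        by_contra h2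
        have := (hγ1 C (not_lt.1 h2)).1
        omega
      refine ⟨jj (g C) C, fun y hy => hjv C y hy, ?_, ?_⟩
      · have h6 := hsplit C hC
        have h7 := hmono C hC
        omega
      · intro y hy
        obtain ⟨⟨E, hE, _, hyE⟩, _⟩ := hresp C hC y hy
        exact ⟨E, Finset.mem_insert_of_mem hE, (hγ1 E (hSfree E hE)).1, hyE⟩
    have hkQ : ∀ C ∈ insert X S, (vbl C).card = k := fun C hC => (hk C (hQF hC)).2
    have hcomp := comp_le (k := k) (N := N) (by omega) (hk X hXF).2 hgood.2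
    have hγ1' : ∀ C, 2 ≤ fcnt (fvs (e :: h')) C → ∀ x ys, (x :: ys) <:+ fvs (e :: h') →
        x ∈ vbl C → 1 ≤ fcnt ys C → γ C ≤ ys.length := fun C hC => (hγ1 C hC).2.2
    rcases process (by omega) hkQ hfree hrest with ⟨hHerQ, hall⟩ |
        ⟨Q', hQ', P, hP, ⟨c, T, hK, hc⟩, htr⟩
    · have h1 : ∃ C ∈ insert X S, N ≤ (comp (insert X S) C).card := by
        by_contra h2
        push Not at h2
        exact hbadQ ⟨hHerQ, h2⟩
      obtain ⟨C, hC, hNC⟩ := h1
      obtain ⟨c, T, hK, hc⟩ := hall C hC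
      have hsubQ := comp_sub (insert X S) C
      obtain ⟨d, hnf, hB⟩ := finish hk hlin hv hlen hgood.1 hsubQ (hsubQ.trans hQF) γ hK hγ1' g
        (fun D hD => ⟨hg1 D (hsubQ hD), hg2 D (hsubQ hD)⟩)
        (fun D hD y hy => (hresp D (hsubQ hD) y hy).2)
        (fun D hD => ⟨∅, by simp, fun y hy => by
          right
          obtain ⟨⟨E, hE, hne, hyE⟩, _⟩ := hresp D (hsubQ hD) y hy
          exact ⟨E, comp_closed hD (Finset.mem_insert_of_mem hE) ⟨y, hjv D y hy, hyE⟩, hne,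
            hyE⟩⟩)
      exact ⟨_, Finset.card_pos.2 ⟨C, comp_self hC⟩, hcomp C hC, d, c, hnf,
        Or.inr ⟨hc, hNC⟩, hB⟩
    · have hsubQ' := comp_sub Q' P
      have hsubQ : comp Q' P ⊆ insert X S := hsubQ'.trans hQ'
      obtain ⟨d, hnf, hB⟩ := finish hk hlin hv hlen hgood.1 hsubQ (hsubQ.trans hQF) γ hK hγ1' g
        (fun D hD => ⟨hg1 D (hsubQ hD), hg2 D (hsubQ hD)⟩)
        (fun D hD y hy => (hresp D (hsubQ hD) y hy).2)
        (fun D hD => ⟨(vbl D).filter (fun y => ∃ E ∈ insert X S \ Q', y ∈ vbl E), by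
          rw [Finset.card_le_one]
          intro x hx y hy
          obtain ⟨h1, h2⟩ := Finset.mem_filter.1 hx
          obtain ⟨h3, h4⟩ := Finset.mem_filter.1 hy
          exact htr D (hsubQ' hD) x h1 y h3 h2 h4, fun y hy => by
          obtain ⟨⟨E, hE, hne, hyE⟩, _⟩ := hresp D (hsubQ hD) y hy
          by_cases hEQ : E ∈ Q'
          · right
            exact ⟨E, comp_closed hD hEQ ⟨y, hjv D y hy, hyE⟩, hne, hyE⟩
          · left
            exact Finset.mem_filter.2 ⟨hjv D y hy, E,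
              Finset.mem_sdiff.2 ⟨Finset.mem_insert_of_mem hE, hEQ⟩, hyE⟩⟩)
      exact ⟨_, Finset.card_pos.2 ⟨P, comp_self hP⟩,
        (Finset.card_le_card (comp_mono hQ' P)).trans (hcomp P (hQ' hP)), d, c, hnf,
        Or.inl hc, hB⟩

end Pool.Agent.LKTL
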