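import Pool.Agent.LKTL.Weight
import Pool.Agent.LKCNF.TreeLeaf

set_option autoImplicit false

/-!
# From a potential to the number of nodes

Copy of `Pool.Agent.LKCNF.Tree.leaves` (file `TreeLeaf.lean`), with the new `Valid` and `Clean`, and
`¬ Good k N (ever F τ h)` in place of `Bad`. At a leaf `C ∈ F` is false at `h`, so by `big_comp`
its component has at least `2 ^ τ ≥ N` elements and `ever F τ h` is not good. At a resolution step
on `x` (not assigned, history good): if `x` is in a critical clause, choose the value `b` with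
`side F τ h (x, !b) ≤ side F τ h (x, b)` (one of the two values works, `le_total`) and extend by
`(x, b, false)`; otherwise both values are free. `Tree.fls_left`, `Tree.fls_right`, `Tree.le_of_big`
can be used as they are.
-/

namespace Pool.Agent.LKTL

open Finset Pool.Agent.LKCNF Pool.Agent.LKCNF.Tree

variable {V : Type} [DecidableEq V]

theorem leaves {k τ N f : ℕ} {F : Finset (Finset (V × Bool))} (hk : IsKCNF k F) (hτ : τ < k)
    (hN : N ≤ 2 ^ τ) (Φ : List (V × Bool × Bool) → ℝ) (h0 : ∀ h, 0 ≤ Φ h)
    (hforced : ∀ x b h, Φ ((x, b, false) :: h) ≤ Φ h)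
    (hfree : ∀ x h, Φ ((x, true, true) :: h) + Φ ((x, false, true) :: h) ≤ 2 * Φ h)
    (hbad : ∀ h, Valid F τ h → Clean F k τ N h → ¬ Good k N (ever F τ h) →
      (fvs h).length ≤ f → 1 ≤ Φ h)
    {D : Finset (V × Bool)} {s : ℕ} (hD : TreeRes F D s) :
    ∀ h, Valid F τ h → Clean F k τ N h → (fvs h).length ≤ f →
      (∀ l ∈ D, ∃ φ, (l.1, !l.2, φ) ∈ h) →
      (2 : ℝ) ^ (f - (fvs h).length) * (1 - Φ h) ≤ s := by
  induction hD with
  | ax C hC =>
    intro h hv hcl hlen hf
    obtain ⟨hCe, hbig⟩ := big_comp hk hτ hv hC hf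
    have hng : ¬ Good k N (ever F τ h) := by
      intro hg
      have h1 := hg.2 C hCe
      omega
    exact le_of_big (hbad h hv hcl hng hlen) (Nat.cast_nonneg _)
  | weaken C D s _ hCD ih =>
    intro h hv hcl hlen hf
    exact ih h hv hcl hlen (fun l hl => hf l (hCD hl))
  | resolve C D s u x _ _ _ _ ihC ihD =>
    intro h hv hcl hlen hf
    have hs0 : (0 : ℝ) ≤ s := Nat.cast_nonneg _
    have hu0 : (0 : ℝ) ≤ u := Nat.cast_nonneg _
    push_cast
    by_cases hb : ¬ Good k N (ever F τ h)
    · exact le_of_big (hbad h hv hcl hb hlen) (by linarith)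
    rw [not_not] at hb
    by_cases hx : x ∈ dm h
    · obtain ⟨b, φ, hm⟩ := mem_dm.1 hx
      cases b with
      | false =>
        have := ihC h hv hcl hlen (fls_left hf (fun e he => he) hm)
        linarith
      | true =>
        have := ihD h hv hcl hlen (fls_right hf (fun e he => he) hm)
        linarith
    by_cases hE : ∃ E ∈ F, Crit τ h E ∧ x ∈ vbl E
    · have hb2 : ∃ b : Bool, side F τ h (x, !b) ≤ side F τ h (x, b) := by
        rcases le_total (side F τ h (x, true)) (side F τ h (x, false)) with h1 | h1
        · exact ⟨false, h1⟩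
        · exact ⟨true, h1⟩
      obtain ⟨b, hside⟩ := hb2
      have hv2 : Valid F τ ((x, b, false) :: h) :=
        ⟨hv, hx, fun h2 => by simp at h2, fun _ => ⟨hE, hside⟩⟩
      have hcl2 : Clean F k τ N ((x, b, false) :: h) := ⟨hcl, hb⟩
      have hfv : fvs ((x, b, false) :: h) = fvs h := by simp [fvs]
      have hΦ := hforced x b h
      have hpow : (0 : ℝ) < 2 ^ (f - (fvs h).length) := by positivity
      have hsub : ∀ e ∈ h, e ∈ (x, b, false) :: h := fun e he => List.mem_cons_of_mem _ he
      have hmul : (2 : ℝ) ^ (f - (fvs h).length) * (1 - Φ h) ≤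
          2 ^ (f - (fvs h).length) * (1 - Φ ((x, b, false) :: h)) := by
        apply mul_le_mul_of_nonneg_left _ hpow.le
        linarith
      cases b with
      | false =>
        have := ihC _ hv2 hcl2 (by rw [hfv]; exact hlen)
          (fls_left hf hsub (φ := false) (List.mem_cons.2 (Or.inl rfl)))
        rw [hfv] at this
        linarith
      | true =>
        have := ihD _ hv2 hcl2 (by rw [hfv]; exact hlen)
          (fls_right hf hsub (φ := false) (List.mem_cons.2 (Or.inl rfl)))
        rw [hfv] at this
        linarith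
    · rcases Nat.lt_or_ge (fvs h).length f with hlt | hge
      · have hv2 : ∀ b, Valid F τ ((x, b, true) :: h) := fun b =>
          ⟨hv, hx, fun _ C hC hxC hcr => hE ⟨C, hC, hcr, hxC⟩, fun h2 => by simp at h2⟩
        have hcl2 : ∀ b, Clean F k τ N ((x, b, true) :: h) := fun b => ⟨hcl, hb⟩
        have hfv : ∀ b, fvs ((x, b, true) :: h) = x :: fvs h := fun b => by simp [fvs]
        have hsub : ∀ b, ∀ e ∈ h, e ∈ (x, b, true) :: h :=
          fun b e he => List.mem_cons_of_mem _ he
        have h1 := ihC _ (hv2 false) (hcl2 false) (by rw [hfv, List.length_cons]; exact hlt)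
          (fls_left hf (hsub false) (φ := true) (List.mem_cons.2 (Or.inl rfl)))
        have h2 := ihD _ (hv2 true) (hcl2 true) (by rw [hfv, List.length_cons]; exact hlt)
          (fls_right hf (hsub true) (φ := true) (List.mem_cons.2 (Or.inl rfl)))
        rw [hfv, List.length_cons] at h1 h2
        have h3 := hfree x h
        have h4 : f - (fvs h).length = (f - ((fvs h).length + 1)) + 1 := by omega
        rw [h4, pow_succ]
        have hpow : (0 : ℝ) < 2 ^ (f - ((fvs h).length + 1)) := by positivity
        have h5 : (2 : ℝ) ^ (f - ((fvs h).length + 1)) *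
            (Φ ((x, true, true) :: h) + Φ ((x, false, true) :: h)) ≤
            2 ^ (f - ((fvs h).length + 1)) * (2 * Φ h) :=
          mul_le_mul_of_nonneg_left h3 hpow.le
        nlinarith
      · have h4 : f - (fvs h).length = 0 := by omega
        rw [h4, pow_zero, one_mul]
        have := h0 h
        linarith

end Pool.Agent.LKTL
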