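import Mathlib

set_option autoImplicit false

/-!
# Numerical part

`l = Nat.log 2 k`, `τ = l - 1`, `N = 2 ^ τ`, `e = k - 5 l - 16`, `f = 2 ^ e`, `67 ≤ k`, so `6 ≤ l`,
`2 ^ l ≤ k < 2 ^ (l + 1)`, `k ≤ 4 N`, `2 N ≤ k`.

`num1`: `n k ≤ k ^ 3 < 2 ^ (3 l + 3) ≤ 2 ^ e`, since `3 l + 3 ≤ k - 5 l - 16` for `k ≥ 67`
(`k ≥ 2 ^ l`, and `8 l + 19 ≤ max (67, 2 ^ l)`).

`num2`: `k + 1 ≤ 2 ^ (l + 1)`, `2 n k ≤ 2 k ^ 3 ≤ 2 ^ (3 l + 4)`, `2 f = 2 ^ (e + 1)`. The exponent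
of the left side is at most `c (e + 1) + (2 n - c) (3 l + 4) + n (l + 1) + n + 1`, increasing in `c`
(`3 l + 4 ≤ e + 1`). For `c = n` it is `n (e + 4 l + 7) + 1 ≤ n (k - l - 5)`. For `c = n + 1` it is
`n (e + 4 l + 7) + (e + 1) - (3 l + 4) + 1`, and `n (k - l - 5) - n (e + 4 l + 7) = 4 n ≥ 4 N ≥ k`.
Note `k - τ - 6 = k - l - 5`.
-/

namespace Pool.Agent.LKTL

theorem num_pow {l : ℕ} (hl : 7 ≤ l) : 8 * l + 19 ≤ 2 ^ l := by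
  induction l, hl using Nat.le_induction with
  | base => norm_num
  | succ m hm ih =>
    rw [pow_succ]
    omega

theorem num0 {k l : ℕ} (hk : 67 ≤ k) (hl : l = Nat.log 2 k) :
    6 ≤ l ∧ 8 * l + 19 ≤ k ∧ 2 * 2 ^ (l - 1) ≤ k ∧ k ≤ 4 * 2 ^ (l - 1) ∧ k < 2 ^ (l + 1) := by
  have h6 : 6 ≤ l := by
    rw [hl]
    exact Nat.le_log_of_pow_le (by norm_num) (by omega)
  have h1 : 2 ^ l ≤ k := by
    rw [hl]
    exact Nat.pow_log_le_self 2 (by omega)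
  have h2 : k < 2 ^ (l + 1) := by
    rw [hl]
    exact Nat.lt_pow_succ_log_self (by norm_num) k
  have e1 : 2 ^ l = 2 * 2 ^ (l - 1) := by
    rw [← pow_succ']
    congr 1
    omega
  have e2 : 2 ^ (l + 1) = 4 * 2 ^ (l - 1) := by
    rw [pow_succ, e1]
    ring
  refine ⟨h6, ?_, by omega, by omega, h2⟩
  rcases h6.eq_or_lt with h | h
  · omega
  · exact (num_pow h).trans h1

theorem num1a {k l n : ℕ} (hk : 67 ≤ k) (hl : l = Nat.log 2 k)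
    (hn : n ≤ 1 + k * 2 ^ (l - 1)) : n * k ≤ 2 ^ (3 * l + 1) := by
  obtain ⟨h6, h8, h1, h2, h3⟩ := num0 hk hl
  have e1 : k * 2 ^ (l - 1) < 2 ^ (2 * l) := by
    calc k * 2 ^ (l - 1) < 2 ^ (l + 1) * 2 ^ (l - 1) :=
          Nat.mul_lt_mul_of_pos_right h3 (by positivity)
      _ = 2 ^ (2 * l) := by
          rw [← pow_add]
          congr 1
          omega
  calc n * k ≤ 2 ^ (2 * l) * 2 ^ (l + 1) := Nat.mul_le_mul (by omega) h3.le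
    _ = 2 ^ (3 * l + 1) := by
        rw [← pow_add]
        congr 1
        omega

theorem num1 {k l n : ℕ} (hk : 67 ≤ k) (hl : l = Nat.log 2 k)
    (hn : n ≤ 1 + k * 2 ^ (l - 1)) : n * k ≤ 2 ^ (k - 5 * l - 16) := by
  obtain ⟨h6, h8, h1, h2, h3⟩ := num0 hk hl
  exact (num1a hk hl hn).trans (Nat.pow_le_pow_right (by norm_num) (by omega))

theorem num2_exp {k l n c : ℕ} (hl1 : 1 ≤ l) (h8 : 8 * l + 19 ≤ k) (hn1 : 1 ≤ n)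
    (hc : c ≤ n ∨ (c ≤ n + 1 ∧ k ≤ 4 * n)) :
    (k - 5 * l - 15) * c + (3 * l + 2) * (2 * n - c) + (l + 1) * n + (n + 1) ≤
      n * (k - (l - 1) - 6) := by
  obtain ⟨j, hj⟩ : ∃ j, k = 8 * l + 19 + j := ⟨k - (8 * l + 19), by omega⟩
  have e1 : k - 5 * l - 15 = 3 * l + 4 + j := by omega
  by_cases hcn : c ≤ n
  · obtain ⟨i, hi⟩ : ∃ i, n = c + i := ⟨n - c, by omega⟩
    have e2 : 2 * n - c = c + 2 * i := by omega
    have e3 : 7 * l + 14 + j ≤ k - (l - 1) - 6 := by omega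
    refine le_trans ?_ (Nat.mul_le_mul_left n e3)
    rw [e1, e2]
    subst hi
    nlinarith
  · obtain ⟨hc1, hc2⟩ : c ≤ n + 1 ∧ k ≤ 4 * n := by
      rcases hc with h | h
      · exact absurd h hcn
      · exact h
    have hc3 : c = n + 1 := by omega
    obtain ⟨i, hi⟩ : ∃ i, n = i + 1 := ⟨n - 1, by omega⟩
    have e2 : 2 * n - c = i := by omega
    have e3 : 7 * l + 14 + j ≤ k - (l - 1) - 6 := by omega
    refine le_trans ?_ (Nat.mul_le_mul_left n e3)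
    rw [e1, e2, hc3]
    subst hi
    nlinarith

theorem num2 {k l n c : ℕ} (hk : 67 ≤ k) (hl : l = Nat.log 2 k) (hn1 : 1 ≤ n)
    (hn : n ≤ 1 + k * 2 ^ (l - 1)) (hc : c ≤ n ∨ (c ≤ n + 1 ∧ 2 ^ (l - 1) ≤ n)) :
    (2 * (2 : ℝ) ^ (k - 5 * l - 16)) ^ c * (2 * ((n : ℝ) * k)) ^ (2 * n - c) *
      ((k : ℝ) + 1) ^ n * 2 ^ (n + 1) ≤ 2 ^ (n * (k - (l - 1) - 6)) := by
  obtain ⟨h6, h8, h1, h2, h3⟩ := num0 hk hl
  have hnk := num1a hk hl hn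
  have a1 : 2 * (2 : ℝ) ^ (k - 5 * l - 16) = 2 ^ (k - 5 * l - 15) := by
    rw [← pow_succ']
    congr 1
    omega
  have a2 : 2 * ((n : ℝ) * k) ≤ 2 ^ (3 * l + 2) := by
    have : ((n * k : ℕ) : ℝ) ≤ ((2 ^ (3 * l + 1) : ℕ) : ℝ) := by exact_mod_cast hnk
    push_cast at this
    rw [pow_succ]
    linarith
  have a3 : (k : ℝ) + 1 ≤ 2 ^ (l + 1) := by exact_mod_cast h3
  have hn0 : (0 : ℝ) ≤ n := Nat.cast_nonneg _
  have hk0 : (0 : ℝ) ≤ k := Nat.cast_nonneg _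
  calc (2 * (2 : ℝ) ^ (k - 5 * l - 16)) ^ c * (2 * ((n : ℝ) * k)) ^ (2 * n - c) *
        ((k : ℝ) + 1) ^ n * 2 ^ (n + 1)
      ≤ (2 ^ (k - 5 * l - 15)) ^ c * (2 ^ (3 * l + 2)) ^ (2 * n - c) *
        (2 ^ (l + 1)) ^ n * 2 ^ (n + 1) := by
        rw [a1]
        gcongr
    _ = 2 ^ ((k - 5 * l - 15) * c + (3 * l + 2) * (2 * n - c) + (l + 1) * n + (n + 1)) := by
        rw [← pow_mul, ← pow_mul, ← pow_mul, ← pow_add, ← pow_add, ← pow_add]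
    _ ≤ 2 ^ (n * (k - (l - 1) - 6)) := by
        refine pow_le_pow_right₀ one_le_two (num2_exp (by omega) h8 hn1 ?_)
        rcases hc with h | h
        · exact Or.inl h
        · exact Or.inr ⟨h.1, by omega⟩

/-- the final estimate -/
theorem num3 {k l : ℕ} (hk : 67 ≤ k) (hl : l = Nat.log 2 k) :
    (2 : ℝ) ^ k / (2 ^ 36 * (k : ℝ) ^ 5) + 1 ≤ (2 : ℝ) ^ (k - 5 * l - 16) := by
  obtain ⟨h6, h8, h1, h2, h3⟩ := num0 hk hl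
  have e1 : 2 * 2 ^ (l - 1) = 2 ^ l := by
    rw [← pow_succ']
    congr 1
    omega
  have b1 : (2 : ℝ) ^ l ≤ k := by
    rw [e1] at h1
    exact_mod_cast h1
  have b2 : (2 : ℝ) ^ (5 * l) ≤ (k : ℝ) ^ 5 := by
    rw [mul_comm, pow_mul]
    exact pow_le_pow_left₀ (by positivity) b1 5
  have b3 : (2 : ℝ) ^ k = 2 ^ (k - 5 * l - 16) * (2 ^ 16 * 2 ^ (5 * l)) := by
    rw [← pow_add, ← pow_add]
    congr 1
    omega
  have b4 : (2 : ℝ) ^ 21 ≤ 2 ^ (k - 5 * l - 16) := pow_le_pow_right₀ one_le_two (by omega)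
  have b5 : (2 : ℝ) ^ k / (2 ^ 36 * (k : ℝ) ^ 5) ≤ 2 ^ (k - 5 * l - 16) / 2 ^ 20 := by
    have hp : (0 : ℝ) < 2 ^ (5 * l) := by positivity
    have hk5 : (0 : ℝ) < (k : ℝ) ^ 5 := hp.trans_le b2
    rw [div_le_div_iff₀ (by positivity) (by positivity), b3]
    have b6 : (2 : ℝ) ^ (k - 5 * l - 16) * (2 ^ 36 * 2 ^ (5 * l)) ≤
        2 ^ (k - 5 * l - 16) * (2 ^ 36 * (k : ℝ) ^ 5) := by gcongr
    calc (2 : ℝ) ^ (k - 5 * l - 16) * (2 ^ 16 * 2 ^ (5 * l)) * 2 ^ 20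
        = (2 : ℝ) ^ (k - 5 * l - 16) * (2 ^ 36 * 2 ^ (5 * l)) := by ring
      _ ≤ _ := b6
  have b7 : (1 : ℝ) ≤ 2 ^ (k - 5 * l - 16) / 2 := by
    rw [le_div_iff₀ two_pos]
    refine le_trans ?_ b4
    norm_num
  have b8 : (2 : ℝ) ^ (k - 5 * l - 16) / 2 ^ 20 ≤ 2 ^ (k - 5 * l - 16) / 2 :=
    div_le_div_of_nonneg_left (by positivity) (by norm_num) (by norm_num)
  linarith

theorem num4 {k : ℕ} (hk1 : 1 ≤ k) (hk : k < 67) :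
    (2 : ℝ) ^ k / (2 ^ 36 * (k : ℝ) ^ 5) ≤ 1 := by
  have hk0 : (0 : ℝ) < (k : ℝ) := by exact_mod_cast hk1
  rw [div_le_one (by positivity)]
  have h : 2 ^ k ≤ 2 ^ 36 * k ^ 5 := by
    interval_cases k <;> norm_num
  exact_mod_cast h

end Pool.Agent.LKTL
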