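import Pool.Agent.LKTL.Defs

set_option autoImplicit false

/-!
# The weights of the codes

`W_sum`: `∑ d, ∏ i, w (d i) = ∏ i, ∑ p, w p` (`Finset.prod_univ_sum` / `Fintype.piFinset_univ`), and
`∑ (p, q, r), pw p * pw q / (k + 1) = (∑ pw) ^ 2 = 1`, `∑ pw = f / (2 f) + n k / (2 n k) = 1`.
`W_ge`: each `pw (inl _) = (2 f)⁻¹`, `pw (inr _) = (2 n k)⁻¹`; so
`W d = (2 f) ^ (- c0) (2 n k) ^ (- (2 n - c0)) (k + 1) ^ (- n)` with `c0 = nfree d ≤ c`, and
`2 n k ≤ 2 f`.
-/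

namespace Pool.Agent.LKTL

open Finset

theorem pw_nonneg_Wsum {f n k : ℕ} (p : Ptr f n k) : 0 ≤ pw p := by
  rcases p with a | b
  · show (0 : ℝ) ≤ 1 / (2 * f)
    positivity
  · show (0 : ℝ) ≤ 1 / (2 * (n * k))
    positivity

theorem pw_sum_Wsum {f n k : ℕ} (hf : 1 ≤ f) (hn : 1 ≤ n) (hk : 1 ≤ k) :
    ∑ p : Ptr f n k, pw p = 1 := by
  have hf' : (f : ℝ) ≠ 0 := by
    have : (0 : ℝ) < f := by exact_mod_cast hf
    exact this.ne'
  have hn' : (n : ℝ) ≠ 0 := by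
    have : (0 : ℝ) < n := by exact_mod_cast hn
    exact this.ne'
  have hk' : (k : ℝ) ≠ 0 := by
    have : (0 : ℝ) < k := by exact_mod_cast hk
    exact this.ne'
  rw [Fintype.sum_sum_type]
  have h1 : ∑ a : Fin f, pw (Sum.inl a : Ptr f n k) = 1 / 2 := by
    show ∑ _a : Fin f, (1 : ℝ) / (2 * f) = 1 / 2
    rw [Finset.sum_const, Finset.card_univ, Fintype.card_fin, nsmul_eq_mul]
    field_simp
  have h2 : ∑ b : Fin n × Fin k, pw (Sum.inr b : Ptr f n k) = 1 / 2 := by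
    show ∑ _b : Fin n × Fin k, (1 : ℝ) / (2 * (n * k)) = 1 / 2
    rw [Finset.sum_const, Finset.card_univ, Fintype.card_prod, Fintype.card_fin,
      Fintype.card_fin, nsmul_eq_mul]
    push_cast
    field_simp
  rw [h1, h2]
  norm_num

theorem W_nonneg {f n k : ℕ} (d : Dat f n k) : 0 ≤ W d := by
  unfold W
  refine Finset.prod_nonneg fun i _ => ?_
  have h1 := pw_nonneg_Wsum (d i).1
  have h2 := pw_nonneg_Wsum (d i).2.1
  positivity

theorem W_sum {f n k : ℕ} (hf : 1 ≤ f) (hn : 1 ≤ n) (hk : 1 ≤ k) :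
    ∑ d : Dat f n k, W d = 1 := by
  classical
  have h1 : ∑ x : Ptr f n k × Ptr f n k × Fin (k + 1),
      pw x.1 * pw x.2.1 * (1 / ((k : ℝ) + 1)) = 1 := by
    rw [Fintype.sum_prod_type]
    have h2 : ∀ p : Ptr f n k, ∑ y : Ptr f n k × Fin (k + 1),
        pw p * pw y.1 * (1 / ((k : ℝ) + 1)) = pw p := by
      intro p
      rw [Fintype.sum_prod_type]
      have h3 : ∀ q : Ptr f n k, ∑ _r : Fin (k + 1), pw p * pw q * (1 / ((k : ℝ) + 1)) =
          pw p * pw q := by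
        intro q
        rw [Finset.sum_const, Finset.card_univ, Fintype.card_fin, nsmul_eq_mul]
        push_cast
        have : (k : ℝ) + 1 ≠ 0 := by positivity
        field_simp
      rw [Finset.sum_congr rfl fun q _ => h3 q, ← Finset.mul_sum, pw_sum_Wsum hf hn hk, mul_one]
    rw [Finset.sum_congr rfl fun p _ => h2 p, pw_sum_Wsum hf hn hk]
  have h4 := Finset.prod_univ_sum (fun _ : Fin n =>
    (Finset.univ : Finset (Ptr f n k × Ptr f n k × Fin (k + 1))))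
    (fun _ x => pw x.1 * pw x.2.1 * (1 / ((k : ℝ) + 1)))
  rw [Fintype.piFinset_univ] at h4
  unfold W
  rw [← h4, Finset.prod_congr rfl fun _ _ => h1, Finset.prod_const_one]

theorem W_ge {f n k c : ℕ} (hn : 1 ≤ n) (hk : 1 ≤ k) (hnk : n * k ≤ f) {d : Dat f n k}
    (hc : nfree d ≤ c) (hc2 : c ≤ 2 * n) :
    1 ≤ W d * ((2 * (f : ℝ)) ^ c * (2 * ((n : ℝ) * k)) ^ (2 * n - c) * ((k : ℝ) + 1) ^ n) := by
  classical
  obtain ⟨X, hX⟩ : ∃ X : ℝ, X = 2 * (f : ℝ) := ⟨_, rfl⟩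
  obtain ⟨Y, hY⟩ : ∃ Y : ℝ, Y = 2 * ((n : ℝ) * k) := ⟨_, rfl⟩
  have hn' : (0 : ℝ) < n := by exact_mod_cast hn
  have hk' : (0 : ℝ) < k := by exact_mod_cast hk
  have hY0 : 0 < Y := by rw [hY]; positivity
  have hXY : Y ≤ X := by
    rw [hX, hY]
    have : ((n * k : ℕ) : ℝ) ≤ f := by exact_mod_cast hnk
    push_cast at this
    linarith
  have hX0 : 0 < X := hY0.trans_le hXY
  have hpw : ∀ p : Ptr f n k, pw p * (X ^ (if p.isLeft then 1 else 0) *
      Y ^ (if p.isLeft then 0 else 1)) = 1 := by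
    rintro (a | b)
    · show (1 : ℝ) / (2 * f) * (X ^ 1 * Y ^ 0) = 1
      rw [← hX, pow_one, pow_zero, mul_one, one_div, inv_mul_cancel₀ hX0.ne']
    · show (1 : ℝ) / (2 * (n * k)) * (X ^ 0 * Y ^ 1) = 1
      rw [← hY, pow_one, pow_zero, one_mul, one_div, inv_mul_cancel₀ hY0.ne']
  have hfree : nfree d = ∑ i, ((if (d i).1.isLeft then 1 else 0) +
      (if (d i).2.1.isLeft then 1 else 0)) := rfl
  obtain ⟨b, hb⟩ : ∃ b : ℕ, b = ∑ i, ((if (d i).1.isLeft then 0 else 1) +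
      (if (d i).2.1.isLeft then 0 else 1)) := ⟨_, rfl⟩
  have hsum : nfree d + b = 2 * n := by
    rw [hfree, hb, ← Finset.sum_add_distrib]
    have : ∀ i : Fin n, ((if (d i).1.isLeft then 1 else 0) +
        (if (d i).2.1.isLeft then 1 else 0)) + ((if (d i).1.isLeft then 0 else 1) +
        (if (d i).2.1.isLeft then 0 else 1)) = 2 := by
      intro i
      split_ifs <;> rfl
    rw [Finset.sum_congr rfl fun i _ => this i, Finset.sum_const, Finset.card_univ,
      Fintype.card_fin, smul_eq_mul, mul_comm]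
  have hW : W d * (X ^ nfree d * Y ^ b * ((k : ℝ) + 1) ^ n) = 1 := by
    have e1 : X ^ nfree d = ∏ i, X ^ ((if (d i).1.isLeft then 1 else 0) +
        (if (d i).2.1.isLeft then 1 else 0)) := by
      rw [hfree, Finset.prod_pow_eq_pow_sum]
    have e2 : Y ^ b = ∏ i, Y ^ ((if (d i).1.isLeft then 0 else 1) +
        (if (d i).2.1.isLeft then 0 else 1)) := by
      rw [hb, Finset.prod_pow_eq_pow_sum]
    have e3 : ((k : ℝ) + 1) ^ n = ∏ _i : Fin n, ((k : ℝ) + 1) := by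
      rw [Finset.prod_const, Finset.card_univ, Fintype.card_fin]
    unfold W
    rw [e1, e2, e3, ← Finset.prod_mul_distrib, ← Finset.prod_mul_distrib,
      ← Finset.prod_mul_distrib]
    refine Finset.prod_eq_one fun i _ => ?_
    have h1 := hpw (d i).1
    have h2 := hpw (d i).2.1
    have h3 : 1 / ((k : ℝ) + 1) * ((k : ℝ) + 1) = 1 := by
      have : (k : ℝ) + 1 ≠ 0 := by positivity
      field_simp
    rw [pow_add, pow_add]
    calc pw (d i).1 * pw (d i).2.1 * (1 / ((k : ℝ) + 1)) *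
          (X ^ (if (d i).1.isLeft then 1 else 0) * X ^ (if (d i).2.1.isLeft then 1 else 0) *
            (Y ^ (if (d i).1.isLeft then 0 else 1) * Y ^ (if (d i).2.1.isLeft then 0 else 1)) *
            ((k : ℝ) + 1))
        = (pw (d i).1 * (X ^ (if (d i).1.isLeft then 1 else 0) *
            Y ^ (if (d i).1.isLeft then 0 else 1))) *
          (pw (d i).2.1 * (X ^ (if (d i).2.1.isLeft then 1 else 0) *
            Y ^ (if (d i).2.1.isLeft then 0 else 1))) *
          (1 / ((k : ℝ) + 1) * ((k : ℝ) + 1)) := by ring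
      _ = 1 := by rw [h1, h2, h3]; norm_num
  rw [← hX, ← hY]
  have hle : X ^ nfree d * Y ^ b ≤ X ^ c * Y ^ (2 * n - c) := by
    obtain ⟨e, he⟩ := Nat.exists_eq_add_of_le hc
    have hb' : b = e + (2 * n - c) := by omega
    rw [hb', he, pow_add, pow_add, ← he]
    have h1 : Y ^ e ≤ X ^ e := pow_le_pow_left₀ hY0.le hXY e
    calc X ^ nfree d * (Y ^ e * Y ^ (2 * n - c)) ≤ X ^ nfree d * (X ^ e * Y ^ (2 * n - c)) :=
          mul_le_mul_of_nonneg_left (mul_le_mul_of_nonneg_right h1 (pow_pos hY0 _).le)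
            (pow_pos hX0 _).le
      _ = X ^ nfree d * X ^ e * Y ^ (2 * n - c) := by ring
  calc (1 : ℝ) = W d * (X ^ nfree d * Y ^ b * ((k : ℝ) + 1) ^ n) := hW.symm
    _ ≤ W d * (X ^ c * Y ^ (2 * n - c) * ((k : ℝ) + 1) ^ n) :=
        mul_le_mul_of_nonneg_left (mul_le_mul_of_nonneg_right hle (by positivity)) (W_nonneg d)

end Pool.Agent.LKTL
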