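import Pool.Agent.LKTL.Ext
import Pool.Agent.LKTL.Leaf
import Pool.Agent.LKTL.Wsum
import Pool.Agent.LKTL.Num
import Pool.Agent.LKCNF.TreeMain

set_option autoImplicit false

/-!
# The sharp tree-like lower bound
-/

namespace Pool.Agent.LKTL

open Finset Pool.Agent.LKCNF Pool.Agent.LKCNF.Tree

variable {V : Type} [DecidableEq V]

theorem geo (M : ℕ) : ∑ n ∈ Finset.Icc 1 M, (1 / 2 : ℝ) ^ (n + 1) ≤ 1 / 2 := by
  have h : ∀ M : ℕ, ∑ n ∈ Finset.Icc 1 M, (1 / 2 : ℝ) ^ (n + 1) = 1 / 2 - (1 / 2) ^ (M + 1) := by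
    intro M
    induction M with
    | zero => simp
    | succ M ih =>
      rw [Finset.sum_Icc_succ_top (by omega), ih]
      ring
  rw [h]
  have : (0 : ℝ) < (1 / 2) ^ (M + 1) := by positivity
  linarith

theorem tree_sharp {k l : ℕ} (hk67 : 67 ≤ k) (hl : l = Nat.log 2 k)
    {F : Finset (Finset (V × Bool))} (hk : IsKCNF k F) (hlin : IsLinear F) {s : ℕ}
    (hs : TreeRes F ∅ s) : (2 : ℝ) ^ (2 ^ (k - 5 * l - 16)) ≤ 2 * s := by
  classical
  obtain ⟨hl6, hl8, h2N, h4N, hklt⟩ := num0 hk67 hl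
  set τ := l - 1 with hτ
  set N := 2 ^ τ with hN
  set f := 2 ^ (k - 5 * l - 16) with hf
  have hf1 : 1 ≤ f := Nat.one_le_two_pow
  have hNpos : 1 ≤ N := Nat.one_le_two_pow
  have hτN : τ ≤ N := (Nat.lt_two_pow_self).le
  let Φ : List (V × Bool × Bool) → ℝ := fun h => ∑ n ∈ Finset.Icc 1 (1 + k * N),
    (1 / 2 : ℝ) ^ (n + 1) * ∑ d : Dat f n k, W d * B F d h
  have hΦdef : ∀ h, Φ h = ∑ n ∈ Finset.Icc 1 (1 + k * N),
    (1 / 2 : ℝ) ^ (n + 1) * ∑ d : Dat f n k, W d * B F d h := fun h => rfl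
  have hin : ∀ (n : ℕ) h, 0 ≤ ∑ d : Dat f n k, W d * B F d h := fun n h =>
    Finset.sum_nonneg fun d _ => mul_nonneg (W_nonneg d) (B_nonneg F d h)
  have hΦ0 : ∀ h, 0 ≤ Φ h := by
    intro h
    rw [hΦdef]
    exact Finset.sum_nonneg fun n _ => mul_nonneg (by positivity) (hin n h)
  have hforced : ∀ x b h, Φ ((x, b, false) :: h) ≤ Φ h := by
    intro x b h
    apply le_of_eq
    rw [hΦdef, hΦdef]
    apply Finset.sum_congr rfl
    intro n _
    have h1 : ∑ d : Dat f n k, W d * B F d ((x, b, false) :: h) =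
        ∑ d : Dat f n k, W d * B F d h := by
      apply Finset.sum_congr rfl
      intro d _
      rw [B_forced]
    rw [h1]
  have hfree : ∀ x h, Φ ((x, true, true) :: h) + Φ ((x, false, true) :: h) ≤ 2 * Φ h := by
    intro x h
    rw [hΦdef, hΦdef, hΦdef, Finset.mul_sum, ← Finset.sum_add_distrib]
    apply Finset.sum_le_sum
    intro n _
    rw [← mul_add, ← Finset.sum_add_distrib]
    have h1 : ∑ d : Dat f n k, (W d * B F d ((x, true, true) :: h) +
        W d * B F d ((x, false, true) :: h)) ≤ 2 * ∑ d : Dat f n k, W d * B F d h := by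
      rw [Finset.mul_sum]
      apply Finset.sum_le_sum
      intro d _
      have h2 := B_free hk d x h
      have h3 := W_nonneg d
      nlinarith
    have h2 : (0 : ℝ) ≤ (1 / 2) ^ (n + 1) := by positivity
    nlinarith
  have hbad : ∀ h, Valid F τ h → Clean F k τ N h → ¬ Good k N (ever F τ h) →
      (fvs h).length ≤ f → 1 ≤ Φ h := by
    intro h hv hcl hb hlen
    obtain ⟨n, hn1, hn2, d, c, hnf, hc, hB⟩ :=
      extract hk hlin (by omega) (by omega) hv hcl hb hlen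
    have hnk := num1 hk67 hl hn2
    have hW := W_ge hn1 (by omega : 1 ≤ k) hnk hnf (by omega)
    have hnum := num2 hk67 hl hn1 hn2 hc
    rw [hΦdef]
    have h1 : (1 / 2 : ℝ) ^ (n + 1) * ∑ d : Dat f n k, W d * B F d h ≤
        ∑ n ∈ Finset.Icc 1 (1 + k * N),
          (1 / 2 : ℝ) ^ (n + 1) * ∑ d : Dat f n k, W d * B F d h :=
      Finset.single_le_sum
        (f := fun n => (1 / 2 : ℝ) ^ (n + 1) * ∑ d : Dat f n k, W d * B F d h)
        (fun n _ => mul_nonneg (by positivity) (hin n h)) (Finset.mem_Icc.2 ⟨hn1, hn2⟩)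
    refine le_trans ?_ h1
    have h2 : W d * B F d h ≤ ∑ d : Dat f n k, W d * B F d h :=
      Finset.single_le_sum (f := fun d => W d * B F d h)
        (fun d _ => mul_nonneg (W_nonneg d) (B_nonneg F d h)) (Finset.mem_univ d)
    have h3 : (2 : ℝ) ^ (n + 1) ≤ W d * B F d h := by
      have h4 : W d * ((2 * (f : ℝ)) ^ c * (2 * ((n : ℝ) * k)) ^ (2 * n - c) *
          ((k : ℝ) + 1) ^ n * 2 ^ (n + 1)) ≤ W d * B F d h := by
        apply mul_le_mul_of_nonneg_left _ (W_nonneg d)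
        have h5 : ((f : ℕ) : ℝ) = (2 : ℝ) ^ (k - 5 * l - 16) := by
          rw [hf]
          push_cast
          rfl
        rw [h5]
        exact hnum.trans hB
      refine le_trans ?_ h4
      have h5 : (0 : ℝ) ≤ 2 ^ (n + 1) := by positivity
      calc (2 : ℝ) ^ (n + 1) = 1 * 2 ^ (n + 1) := (one_mul _).symm
        _ ≤ (W d * ((2 * (f : ℝ)) ^ c * (2 * ((n : ℝ) * k)) ^ (2 * n - c) *
            ((k : ℝ) + 1) ^ n)) * 2 ^ (n + 1) := mul_le_mul_of_nonneg_right hW h5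
        _ = _ := by ring
    have h6 : (1 / 2 : ℝ) ^ (n + 1) * 2 ^ (n + 1) = 1 := by
      rw [← mul_pow]
      norm_num
    calc (1 : ℝ) = (1 / 2 : ℝ) ^ (n + 1) * 2 ^ (n + 1) := h6.symm
      _ ≤ (1 / 2 : ℝ) ^ (n + 1) * ∑ d : Dat f n k, W d * B F d h :=
        mul_le_mul_of_nonneg_left (h3.trans h2) (by positivity)
  have hlv := leaves (f := f) hk (by omega : τ < k) (le_refl (2 ^ τ)) Φ hΦ0 hforced hfree hbad
    hs [] trivial trivial (by simp [fvs]) (by simp)
  have hΦnil : Φ [] ≤ 1 / 2 := by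
    rw [hΦdef]
    refine le_trans (le_of_eq ?_) (geo (1 + k * N))
    apply Finset.sum_congr rfl
    intro n hn
    have hn1 := (Finset.mem_Icc.1 hn).1
    have h1 : ∑ d : Dat f n k, W d * B F d ([] : List (V × Bool × Bool)) = 1 := by
      rw [← W_sum hf1 hn1 (by omega : 1 ≤ k)]
      apply Finset.sum_congr rfl
      intro d _
      rw [B, mul_one]
    rw [h1, mul_one]
  have h3 : (fvs ([] : List (V × Bool × Bool))).length = 0 := rfl
  rw [h3, Nat.sub_zero] at hlv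
  have h4 : (0 : ℝ) < 2 ^ f := by positivity
  nlinarith

theorem main {k : ℕ} (hk1 : 1 ≤ k) {F : Finset (Finset (V × Bool))} (hk : IsKCNF k F)
    (hlin : IsLinear F) {s : ℕ} (hs : TreeRes F ∅ s) :
    (2 : ℝ) ^ ((2 : ℝ) ^ k / (2 ^ 36 * (k : ℝ) ^ 5)) ≤ s := by
  by_cases h67 : k < 67
  · have h1 : 2 ≤ s := by
      by_contra h
      have := (small hk hk1 hs).2 (not_le.1 h)
      exact absurd this (by simp)
    calc (2 : ℝ) ^ ((2 : ℝ) ^ k / (2 ^ 36 * (k : ℝ) ^ 5)) ≤ (2 : ℝ) ^ (1 : ℝ) :=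
          Real.rpow_le_rpow_of_exponent_le (by norm_num) (num4 hk1 h67)
      _ = 2 := Real.rpow_one 2
      _ ≤ s := by exact_mod_cast h1
  · have hb := tree_sharp (not_lt.1 h67) rfl hk hlin hs
    have h8 := num3 (not_lt.1 h67) (rfl : Nat.log 2 k = Nat.log 2 k)
    have h10 : (2 : ℝ) ^ ((2 : ℝ) ^ k / (2 ^ 36 * (k : ℝ) ^ 5) + 1) ≤ 2 * s := by
      refine le_trans ?_ hb
      rw [← Real.rpow_natCast 2 (2 ^ (k - 5 * Nat.log 2 k - 16))]
      apply Real.rpow_le_rpow_of_exponent_le (by norm_num)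
      push_cast
      exact h8
    rw [Real.rpow_add (by norm_num), Real.rpow_one] at h10
    linarith

end Pool.Agent.LKTL
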