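import Pool.Agent.LKTL.Comp

set_option autoImplicit false

/-!
# The order of decoding (helper47)
-/

namespace Pool.Agent.LKTL

open Finset Pool.Agent.LKCNF Pool.Agent.LKCNF.Tree

variable {V : Type} [DecidableEq V]

open Classical in
/-- the slack of a component -/
noncomputable def pen (P R : Finset (Finset (V × Bool))) : ℕ := if ∃ p ∈ P, p ∈ R then 1 else 0

/-- a state of the process -/
structure St (xs : List V) (γ : Finset (V × Bool) → ℕ) (P Q S : Finset (Finset (V × Bool)))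
    (A : Finset (V × Bool)) (now : ℕ) : Prop where
  sub : S ⊆ Q
  subP : P ⊆ S
  act : S.Nonempty → A ∈ S
  kn : ∀ C ∈ S, ∃ c, Kn xs γ (comp S C) c now ∧ c + pen P (comp S C) ≤ (comp S C).card + 1
  late : ∀ X ∈ Q, X ∉ S → now ≤ γ X
  one : ∀ X ∈ Q, X ∉ S → ∀ v v' C C', v ∈ vbl X → v' ∈ vbl X → C ∈ S → C' ∈ S →
    C ∉ comp S A → C' ∉ comp S A → v ∈ vbl C → v' ∈ vbl C' → v = v'

theorem comp_new {S : Finset (Finset (V × Bool))} {X C : Finset (V × Bool)} (hC : C ∈ S)
    (h : ∃ D ∈ comp S C, adj D X) : comp (insert X S) C = comp (insert X S) X := by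
  obtain ⟨D, hD, hDX⟩ := h
  have hD1 : D ∈ comp (insert X S) C := comp_mono (Finset.subset_insert X S) C hD
  have hX : X ∈ comp (insert X S) C :=
    comp_closed hD1 (Finset.mem_insert_self _ _) hDX
  exact (comp_eq (Finset.mem_insert_of_mem hC) hX).symm

theorem build {xs : List V} {γ : Finset (V × Bool) → ℕ} {P P' Q S : Finset (Finset (V × Bool))}
    {A X : Finset (V × Bool)} {now now' : ℕ} (hst : St xs γ P Q S A now) (hXQ : X ∈ Q)
    (hXS : X ∉ S) (hP' : P' ⊆ insert X P) (hn : now ≤ now') {c' : ℕ}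
    (hK : Kn xs γ (comp (insert X S) X) c' now')
    (hc : c' + pen P' (comp (insert X S) X) ≤ (comp (insert X S) X).card + 1)
    (hlate : ∀ Y ∈ Q, Y ∉ insert X S → now' ≤ γ Y)
    (hone : ∀ Y ∈ Q, Y ∉ insert X S → ∀ v v' C C', v ∈ vbl Y → v' ∈ vbl Y → C ∈ S → C' ∈ S →
      C ∉ comp (insert X S) X → C' ∉ comp (insert X S) X → v ∈ vbl C → v' ∈ vbl C' → v = v') :
    St xs γ P' Q (insert X S) X now' := by
  classical
  have hself : X ∈ comp (insert X S) X := comp_self (Finset.mem_insert_self _ _)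
  refine ⟨?_, ?_, fun _ => Finset.mem_insert_self _ _, ?_, hlate, ?_⟩
  · exact Finset.insert_subset hXQ hst.sub
  · exact hP'.trans (Finset.insert_subset_insert _ hst.subP)
  · intro C hC
    rcases Finset.mem_insert.1 hC with rfl | hC
    · exact ⟨c', hK, hc⟩
    by_cases hD : ∃ D ∈ comp S C, adj D X
    · rw [comp_new hC hD]
      exact ⟨c', hK, hc⟩
    · push Not at hD
      rw [comp_insert_far hC hD]
      obtain ⟨c, h1, h2⟩ := hst.kn C hC
      refine ⟨c, Kn.wait _ _ _ _ h1 hn, ?_⟩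
      have h3 : pen P' (comp S C) ≤ pen P (comp S C) := by
        unfold pen
        by_cases h4 : ∃ p ∈ P', p ∈ comp S C
        · rw [if_pos h4]
          obtain ⟨p, hp, hpC⟩ := h4
          rw [if_pos]
          rcases Finset.mem_insert.1 (hP' hp) with rfl | hp2
          · exact absurd (comp_sub S C hpC) hXS
          · exact ⟨p, hp2, hpC⟩
        · rw [if_neg h4]
          exact Nat.zero_le _
      omega
  · intro Y hY hYS v v' C C' hv hv' hC hC' hCA hCA' hvC hvC'
    have h1 : C ∈ S := by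
      rcases Finset.mem_insert.1 hC with rfl | hC
      · exact absurd hself hCA
      · exact hC
    have h2 : C' ∈ S := by
      rcases Finset.mem_insert.1 hC' with rfl | hC'
      · exact absurd hself hCA'
      · exact hC'
    exact hone Y hY hYS v v' C C' hv hv' h1 h2 hCA hCA' hvC hvC'

/-- `X` has two different variables in known clauses -/
def Clo (S : Finset (Finset (V × Bool))) (X : Finset (V × Bool)) : Prop :=
  ∃ v v' C C', v ≠ v' ∧ v ∈ vbl X ∧ v' ∈ vbl X ∧ C ∈ S ∧ C' ∈ S ∧ v ∈ vbl C ∧ v' ∈ vbl C'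

theorem act_neighbour {xs : List V} {γ : Finset (V × Bool) → ℕ}
    {P Q S : Finset (Finset (V × Bool))} {A X : Finset (V × Bool)} {now : ℕ}
    (hst : St xs γ P Q S A now) (hXQ : X ∈ Q) (hXS : X ∉ S) (hX : Clo S X) :
    A ∈ S ∧ ∃ D ∈ comp S A, ∃ v, v ∈ vbl X ∧ v ∈ vbl D := by
  obtain ⟨v, v', C, C', hne, hv, hv', hC, hC', hvC, hvC'⟩ := hX
  refine ⟨hst.act ⟨C, hC⟩, ?_⟩
  by_cases h1 : C ∈ comp S A
  · exact ⟨C, h1, v, hv, hvC⟩
  by_cases h2 : C' ∈ comp S A
  · exact ⟨C', h2, v', hv', hvC'⟩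
  exact absurd (hst.one X hXQ hXS v v' C C' hv hv' hC hC' h1 h2 hvC hvC') hne

/-- rule c, only the active component -/
theorem step_close {xs : List V} {γ : Finset (V × Bool) → ℕ}
    {P P' Q S : Finset (Finset (V × Bool))} {A X : Finset (V × Bool)} {now : ℕ}
    (hst : St xs γ P Q S A now) (hXQ : X ∈ Q) (hXS : X ∉ S) (hA : A ∈ S)
    (hnb : ∀ D ∈ S, adj X D → D ∈ comp S A) (hP' : P' ⊆ insert X P)
    {v v' : V} {C C' : Finset (V × Bool)} (hne : v ≠ v') (hv : v ∈ vbl X) (hv' : v' ∈ vbl X)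
    (hC : C ∈ comp S A) (hC' : C' ∈ comp S A) (hvC : v ∈ vbl C) (hvC' : v' ∈ vbl C')
    (hpen : P' = P ∨ P = ∅) : St xs γ P' Q (insert X S) X now := by
  classical
  obtain ⟨c, hK, hc⟩ := hst.kn A hA
  have hcomp := comp_insert_one hA hnb ⟨C, hC, ⟨v, hv, hvC⟩⟩
  have hXA : X ∉ comp S A := fun h => hXS (comp_sub S A h)
  have hcard : (comp (insert X S) X).card = (comp S A).card + 1 := by
    rw [hcomp, Finset.card_insert_of_notMem hXA]
  refine build hst hXQ hXS hP' le_rfl (c' := c) ?_ ?_ ?_ ?_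
  · rw [hcomp]
    exact Kn.close _ _ _ X C C' v v' hK hXA hC hC' hne hv hvC hv' hvC' (hst.late X hXQ hXS)
  · rw [hcard]
    have h1 : pen P' (comp (insert X S) X) ≤ pen P (comp S A) + 1 := by
      unfold pen
      split_ifs <;> omega
    rcases hpen with rfl | rfl
    · have h2 : pen P' (comp (insert X S) X) ≤ 1 := by
        unfold pen
        split_ifs <;> omega
      omega
    · omega
  · intro Y hY hYS
    exact hst.late Y hY fun h => hYS (Finset.mem_insert_of_mem h)
  · intro Y hY hYS w w' D D' hw hw' hD hD' hDA hDA' hwD hwD'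
    rw [hcomp] at hDA hDA'
    exact hst.one Y hY (fun h => hYS (Finset.mem_insert_of_mem h)) w w' D D' hw hw' hD hD'
      (fun h => hDA (Finset.mem_insert_of_mem h)) (fun h => hDA' (Finset.mem_insert_of_mem h))
      hwD hwD'

/-- rule c, the active component and another one -/
theorem step_join {xs : List V} {γ : Finset (V × Bool) → ℕ}
    {P Q S : Finset (Finset (V × Bool))} {A O X : Finset (V × Bool)} {now : ℕ}
    (hst : St xs γ P Q S A now) (hXQ : X ∈ Q) (hXS : X ∉ S) (hA : A ∈ S) (hO : O ∈ S)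
    (hOA : O ∉ comp S A)
    (hnb : ∀ D ∈ S, adj X D → D ∈ comp S A ∨ D ∈ comp S O)
    {v v' : V} {C C' : Finset (V × Bool)} (hv : v ∈ vbl X) (hv' : v' ∈ vbl X)
    (hC : C ∈ comp S A) (hC' : C' ∈ comp S O) (hvC : v ∈ vbl C) (hvC' : v' ∈ vbl C') :
    St xs γ P Q (insert X S) X now := by
  classical
  obtain ⟨c, hK, hc⟩ := hst.kn A hA
  obtain ⟨c', hK', hc'⟩ := hst.kn O hO
  have hcomp := comp_insert_two hA hO hnb ⟨C, hC, ⟨v, hv, hvC⟩⟩ ⟨C', hC', ⟨v', hv', hvC'⟩⟩
  have hXA : X ∉ comp S A := fun h => hXS (comp_sub S A h)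
  have hXO : X ∉ comp S O := fun h => hXS (comp_sub S O h)
  have hdis := comp_disj hA hO hOA
  have hne : v ≠ v' := by
    rintro rfl
    exact comp_far hA hO hOA hC hC' ⟨v, hvC, hvC'⟩
  have hcard : (comp (insert X S) X).card = (comp S A).card + (comp S O).card + 1 := by
    rw [hcomp, Finset.card_insert_of_notMem, Finset.card_union_of_disjoint hdis]
    rw [Finset.mem_union]
    rintro (h | h)
    · exact hXA h
    · exact hXO h
  refine build hst hXQ hXS (Finset.subset_insert X P) le_rfl (c' := c + c') ?_ ?_ ?_ ?_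
  · rw [hcomp]
    exact Kn.join _ _ _ _ _ X C C' v v' hK hK' hdis hXA hXO hC hC' hne hv hvC hv' hvC'
      (hst.late X hXQ hXS)
  · rw [hcard]
    have h1 : pen P (comp (insert X S) X) ≤ pen P (comp S A) + pen P (comp S O) := by
      rw [hcomp]
      unfold pen
      by_cases h2 : ∃ p ∈ P, p ∈ insert X (comp S A ∪ comp S O)
      · rw [if_pos h2]
        obtain ⟨p, hp, hp2⟩ := h2
        rcases Finset.mem_insert.1 hp2 with rfl | hp2
        · exact absurd (hst.subP hp) hXS
        rcases Finset.mem_union.1 hp2 with hp2 | hp2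
        · rw [if_pos ⟨p, hp, hp2⟩]
          omega
        · rw [if_pos (⟨p, hp, hp2⟩ : ∃ p ∈ P, p ∈ comp S O)]
          omega
      · rw [if_neg h2]
        exact Nat.zero_le _
    omega
  · intro Y hY hYS
    exact hst.late Y hY fun h => hYS (Finset.mem_insert_of_mem h)
  · intro Y hY hYS w w' D D' hw hw' hD hD' hDA hDA' hwD hwD'
    rw [hcomp] at hDA hDA'
    exact hst.one Y hY (fun h => hYS (Finset.mem_insert_of_mem h)) w w' D D' hw hw' hD hD'
      (fun h => hDA (Finset.mem_insert_of_mem (Finset.mem_union_left _ h)))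
      (fun h => hDA' (Finset.mem_insert_of_mem (Finset.mem_union_left _ h))) hwD hwD'

/-- the neighbours of a closable clause outside the active component are in one component -/
theorem other_comp {xs : List V} {γ : Finset (V × Bool) → ℕ}
    {P Q S : Finset (Finset (V × Bool))} {A O X : Finset (V × Bool)} {now : ℕ}
    (hst : St xs γ P Q S A now) (hXQ : X ∈ Q) (hXS : X ∉ S) (hO : O ∈ S)
    (hOA : O ∉ comp S A) (hXO : adj X O) :
    ∀ D ∈ S, adj X D → D ∈ comp S A ∨ D ∈ comp S O := by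
  intro D hD hXD
  by_cases h : D ∈ comp S A
  · exact Or.inl h
  right
  obtain ⟨v, hv, hvD⟩ := hXD
  obtain ⟨w, hw, hwO⟩ := hXO
  have := hst.one X hXQ hXS v w D O hv hw hD hO h hOA hvD hwO
  subst this
  exact comp_closed (comp_self hO) hD ⟨v, hwO, hvD⟩

/-- rules a and b -/
theorem step_next {xs : List V} {γ : Finset (V × Bool) → ℕ}
    {P Q S : Finset (Finset (V × Bool))} {A X : Finset (V × Bool)} {now : ℕ}
    (hst : St xs γ P Q S A now) (hXQ : X ∈ Q) (hXS : X ∉ S) (hclo : ∀ Y ∈ Q, Y ∉ S → ¬ Clo S Y)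
    (hmin : ∀ Y ∈ Q, Y ∉ S → γ X ≤ γ Y) {α β : ℕ} {a b : V} (ha : att xs α = some a)
    (hb : att xs β = some b) (hab : a ≠ b) (haX : a ∈ vbl X) (hbX : b ∈ vbl X) (hα : α ≤ γ X)
    (hβ : β ≤ γ X) : St xs γ P Q (insert X S) X (γ X) := by
  classical
  have hlate : ∀ Y ∈ Q, Y ∉ insert X S → γ X ≤ γ Y := fun Y hY hYS =>
    hmin Y hY fun h => hYS (Finset.mem_insert_of_mem h)
  have hone : ∀ Y ∈ Q, Y ∉ insert X S → ∀ v v' C C', v ∈ vbl Y → v' ∈ vbl Y → C ∈ S → C' ∈ S →
      C ∉ comp (insert X S) X → C' ∉ comp (insert X S) X → v ∈ vbl C → v' ∈ vbl C' → v = v' := by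
    intro Y hY hYS v v' C C' hv hv' hC hC' _ _ hvC hvC'
    by_contra hne
    exact hclo Y hY (fun h => hYS (Finset.mem_insert_of_mem h))
      ⟨v, v', C, C', hne, hv, hv', hC, hC', hvC, hvC'⟩
  by_cases hk : ∃ C ∈ S, adj X C
  · obtain ⟨C, hC, v, hv, hvC⟩ := hk
    have hnb : ∀ D ∈ S, adj X D → D ∈ comp S C := by
      rintro D hD ⟨w, hw, hwD⟩
      have hvw : v = w := by
        by_contra hne
        exact hclo X hXQ hXS ⟨v, w, C, D, hne, hv, hw, hC, hD, hvC, hwD⟩
      subst hvw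
      exact comp_closed (comp_self hC) hD ⟨v, hvC, hwD⟩
    have hcomp := comp_insert_one hC hnb ⟨C, comp_self hC, ⟨v, hv, hvC⟩⟩
    have hXC : X ∉ comp S C := fun h => hXS (comp_sub S C h)
    have hcard : (comp (insert X S) X).card = (comp S C).card + 1 := by
      rw [hcomp, Finset.card_insert_of_notMem hXC]
    obtain ⟨c, hK, hc⟩ := hst.kn C hC
    obtain ⟨α', a', ha', haX', hav, hα'⟩ : ∃ (α' : ℕ) (a' : V), att xs α' = some a' ∧
        a' ∈ vbl X ∧ a' ≠ v ∧ α' ≤ γ X := by
      by_cases h : a = v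
      · exact ⟨β, b, hb, hbX, fun h2 => hab (h.trans h2.symm), hβ⟩
      · exact ⟨α, a, ha, haX, h, hα⟩
    refine build hst hXQ hXS (Finset.subset_insert X P) (hst.late X hXQ hXS) (c' := c + 1)
      ?_ ?_ hlate hone
    · rw [hcomp]
      exact Kn.ext _ _ _ _ X C v α' a' hK hXC (comp_self hC) hv hvC ha' haX' hav hα'
        (hst.late X hXQ hXS) le_rfl
    · rw [hcard]
      have h1 : pen P (comp (insert X S) X) ≤ pen P (comp S C) := by
        rw [hcomp]
        unfold pen
        by_cases h2 : ∃ p ∈ P, p ∈ insert X (comp S C)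
        · rw [if_pos h2]
          obtain ⟨p, hp, hp2⟩ := h2
          rcases Finset.mem_insert.1 hp2 with rfl | hp2
          · exact absurd (hst.subP hp) hXS
          rw [if_pos ⟨p, hp, hp2⟩]
        · rw [if_neg h2]
          exact Nat.zero_le _
      omega
  · push Not at hk
    have hcomp := comp_insert_none hk
    refine build hst hXQ hXS (Finset.subset_insert X P) (hst.late X hXQ hXS) (c' := 2)
      ?_ ?_ hlate hone
    · rw [hcomp]
      exact Kn.seed X (γ X) α β a b ha hb hab haX hbX hα hβ le_rfl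
    · rw [hcomp]
      have h1 : pen P ({X} : Finset (Finset (V × Bool))) = 0 := by
        unfold pen
        rw [if_neg]
        rintro ⟨p, hp, hp2⟩
        rw [Finset.mem_singleton.1 hp2] at hp
        exact hXS (hst.subP hp)
      rw [h1, Finset.card_singleton]

/-- the process with a slack component -/
theorem phase1 {L : ℕ} {xs : List V} {γ : Finset (V × Bool) → ℕ}
    {Q : Finset (Finset (V × Bool))} {P0 : Finset (V × Bool)}
    (hfree : ∀ C ∈ Q, γ C < L → ∃ (α β : ℕ) (a b : V), att xs α = some a ∧ att xs β = some b ∧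
      a ≠ b ∧ a ∈ vbl C ∧ b ∈ vbl C ∧ α ≤ γ C ∧ β ≤ γ C) :
    ∀ (n : ℕ) (S : Finset (Finset (V × Bool))) (A : Finset (V × Bool)) (now : ℕ),
      (Q \ S).card = n → St xs γ {P0} Q S A now →
      (∀ C ∈ Q, C ∉ S → L ≤ γ C → ∃ v v' E E', v ≠ v' ∧ v ∈ vbl C ∧ v' ∈ vbl C ∧ E ∈ Q ∧ E' ∈ Q ∧
        γ E < L ∧ γ E' < L ∧ v ∈ vbl E ∧ v' ∈ vbl E') →
      ∃ c T, Kn xs γ (comp Q P0) c T ∧ c ≤ (comp Q P0).card := by
  classical
  intro n
  induction n with
  | zero =>
    intro S A now hn hst _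
    have hSQ : S = Q := by
      apply Finset.Subset.antisymm hst.sub
      rw [← Finset.sdiff_eq_empty_iff_subset]
      exact Finset.card_eq_zero.1 hn
    subst hSQ
    have hP0 : P0 ∈ S := hst.subP (Finset.mem_singleton_self _)
    obtain ⟨c, hK, hc⟩ := hst.kn P0 hP0
    refine ⟨c, now, hK, ?_⟩
    have : pen {P0} (comp S P0) = 1 := by
      unfold pen
      rw [if_pos ⟨P0, Finset.mem_singleton_self _, comp_self hP0⟩]
    omega
  | succ n ih =>
    intro S A now hn hst hrest
    have hcont : ∀ X, X ∈ Q → X ∉ S → (∃ now', St xs γ {P0} Q (insert X S) X now') →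
        ∃ c T, Kn xs γ (comp Q P0) c T ∧ c ≤ (comp Q P0).card := by
      rintro X hXQ hXS ⟨now', hst'⟩
      refine ih (insert X S) X now' ?_ hst' ?_
      · have h1 : Q \ insert X S = (Q \ S).erase X := by
          ext Y
          simp only [Finset.mem_sdiff, Finset.mem_insert, Finset.mem_erase]
          tauto
        rw [h1, Finset.card_erase_of_mem (Finset.mem_sdiff.2 ⟨hXQ, hXS⟩), hn]
        omega
      · intro C hC hCS
        exact hrest C hC fun h => hCS (Finset.mem_insert_of_mem h)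
    by_cases hex : ∃ X ∈ Q, X ∉ S ∧ Clo S X
    · obtain ⟨X, hXQ, hXS, hX⟩ := hex
      obtain ⟨hA, D, hD, u, hu, huD⟩ := act_neighbour hst hXQ hXS hX
      apply hcont X hXQ hXS
      by_cases ho : ∃ O ∈ S, O ∉ comp S A ∧ adj X O
      · obtain ⟨O, hO, hOA, w, hw, hwO⟩ := ho
        exact ⟨now, step_join hst hXQ hXS hA hO hOA
          (other_comp hst hXQ hXS hO hOA ⟨w, hw, hwO⟩) hu hw hD (comp_self hO) huD hwO⟩
      · push Not at ho
        have hnb : ∀ D ∈ S, adj X D → D ∈ comp S A := by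
          intro D hD hXD
          by_contra h
          exact ho D hD h hXD
        obtain ⟨v, v', C, C', hne, hv, hv', hC, hC', hvC, hvC'⟩ := hX
        exact ⟨now, step_close hst hXQ hXS hA hnb (Finset.subset_insert X _) hne hv hv'
          (hnb C hC ⟨v, hv, hvC⟩) (hnb C' hC' ⟨v', hv', hvC'⟩) hvC hvC' (Or.inl rfl)⟩
    · push Not at hex
      have hne : (Q \ S).Nonempty := by
        rw [← Finset.card_pos, hn]
        omega
      obtain ⟨X, hX, hmin⟩ := Finset.exists_min_image (Q \ S) γ hne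
      obtain ⟨hXQ, hXS⟩ := Finset.mem_sdiff.1 hX
      have hmin' : ∀ Y ∈ Q, Y ∉ S → γ X ≤ γ Y := fun Y hY hYS =>
        hmin Y (Finset.mem_sdiff.2 ⟨hY, hYS⟩)
      by_cases hL : γ X < L
      · obtain ⟨α, β, a, b, ha, hb, hab, haX, hbX, hα, hβ⟩ := hfree X hXQ hL
        exact hcont X hXQ hXS ⟨γ X, step_next hst hXQ hXS hex hmin' ha hb hab haX hbX hα hβ⟩
      · obtain ⟨v, v', E, E', hvv, hv, hv', hE, hE', hEL, hEL', hvE, hvE'⟩ :=
          hrest X hXQ hXS (not_lt.1 hL)
        exfalso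
        have h1 : E ∈ S := by
          by_contra h
          have := hmin' E hE h
          omega
        have h2 : E' ∈ S := by
          by_contra h
          have := hmin' E' hE' h
          omega
        exact hex X hXQ hXS ⟨v, v', E, E', hvv, hv, hv', h1, h2, hvE, hvE'⟩

/-- adding a clause without closing a cycle -/
theorem her_insert {k : ℕ} (hk1 : 1 ≤ k) {S SA SO : Finset (Finset (V × Bool))}
    {X : Finset (V × Bool)} (hS : Her k S) (hX : X ∉ S) (hkX : (vbl X).card = k)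
    (hnb : ∀ D ∈ S, adj X D → D ∈ SA ∨ D ∈ SO)
    (hAO : ∀ D ∈ SA, ∀ E ∈ SO, ¬ adj D E)
    (hAR : ∀ D ∈ SA, ∀ E ∈ S, E ∉ SA → ¬ adj D E)
    (hOR : ∀ D ∈ SO, ∀ E ∈ S, E ∉ SO → ¬ adj D E)
    (h1A : ∀ v ∈ vbl X, ∀ v' ∈ vbl X, ∀ C ∈ SA, ∀ C' ∈ SA, v ∈ vbl C → v' ∈ vbl C' → v = v')
    (h1O : ∀ v ∈ vbl X, ∀ v' ∈ vbl X, ∀ C ∈ SO, ∀ C' ∈ SO, v ∈ vbl C → v' ∈ vbl C' → v = v') :
    Her k (insert X S) := by
  classical
  intro K hK hKne
  by_cases hXK : X ∈ K
  swap
  · apply hS K _ hKne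
    intro C hC
    rcases Finset.mem_insert.1 (hK hC) with rfl | h
    · exact absurd hC hXK
    · exact h
  set K0 := K.erase X with hK0
  have hK0S : K0 ⊆ S := by
    intro C hC
    obtain ⟨h1, h2⟩ := Finset.mem_erase.1 hC
    rcases Finset.mem_insert.1 (hK h2) with h | h
    · exact absurd h h1
    · exact h
  set KA := K0.filter (fun C => C ∈ SA) with hKA
  set KO := (K0.filter (fun C => C ∉ SA)).filter (fun C => C ∈ SO) with hKO
  set KR := (K0.filter (fun C => C ∉ SA)).filter (fun C => C ∉ SO) with hKR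
  have hcard0 : K0.card = KA.card + KO.card + KR.card := by
    have e1 := Finset.card_filter_add_card_filter_not (s := K0) (fun C => C ∈ SA)
    have e2 := Finset.card_filter_add_card_filter_not
      (s := K0.filter (fun C => C ∉ SA)) (fun C => C ∈ SO)
    rw [hKA, hKO, hKR]
    omega
  have hcardK : K.card = K0.card + 1 := by
    rw [hK0, Finset.card_erase_of_mem hXK]
    have := Finset.card_pos.2 hKne
    omega
  have hKAS : KA ⊆ S := (Finset.filter_subset _ _).trans hK0S
  have hKOS : KO ⊆ S := ((Finset.filter_subset _ _).trans (Finset.filter_subset _ _)).trans hK0S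
  have hKRS : KR ⊆ S := ((Finset.filter_subset _ _).trans (Finset.filter_subset _ _)).trans hK0S
  have mA : ∀ C ∈ KA, C ∈ SA := fun C hC => (Finset.mem_filter.1 hC).2
  have mO : ∀ C ∈ KO, C ∈ SO := fun C hC => (Finset.mem_filter.1 hC).2
  have mOA : ∀ C ∈ KO, C ∉ SA := fun C hC =>
    (Finset.mem_filter.1 (Finset.mem_filter.1 hC).1).2
  have mR : ∀ C ∈ KR, C ∉ SO := fun C hC => (Finset.mem_filter.1 hC).2
  have mRA : ∀ C ∈ KR, C ∉ SA := fun C hC =>
    (Finset.mem_filter.1 (Finset.mem_filter.1 hC).1).2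
  -- disjointness
  have dAO : Disjoint (KA.biUnion vbl) (KO.biUnion vbl) := by
    rw [Finset.disjoint_left]
    intro x hx hx2
    obtain ⟨C, hC, hxC⟩ := Finset.mem_biUnion.1 hx
    obtain ⟨D, hD, hxD⟩ := Finset.mem_biUnion.1 hx2
    exact hAO C (mA C hC) D (mO D hD) ⟨x, hxC, hxD⟩
  have dAR : Disjoint (KA.biUnion vbl ∪ KO.biUnion vbl) (KR.biUnion vbl) := by
    rw [Finset.disjoint_left]
    intro x hx hx2
    obtain ⟨D, hD, hxD⟩ := Finset.mem_biUnion.1 hx2
    rcases Finset.mem_union.1 hx with hx | hx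
    · obtain ⟨C, hC, hxC⟩ := Finset.mem_biUnion.1 hx
      exact hAR C (mA C hC) D (hKRS hD) (mRA D hD) ⟨x, hxC, hxD⟩
    · obtain ⟨C, hC, hxC⟩ := Finset.mem_biUnion.1 hx
      exact hOR C (mO C hC) D (hKRS hD) (mR D hD) ⟨x, hxC, hxD⟩
  set U0 := (KA.biUnion vbl ∪ KO.biUnion vbl) ∪ KR.biUnion vbl with hU0
  have hcU0 : U0.card = (KA.biUnion vbl).card + (KO.biUnion vbl).card +
      (KR.biUnion vbl).card := by
    rw [hU0, Finset.card_union_of_disjoint dAR, Finset.card_union_of_disjoint dAO]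
  have hint : vbl X ∩ U0 ⊆ (vbl X ∩ KA.biUnion vbl) ∪ (vbl X ∩ KO.biUnion vbl) := by
    intro x hx
    obtain ⟨h1, h2⟩ := Finset.mem_inter.1 hx
    rcases Finset.mem_union.1 h2 with h2 | h2
    · rcases Finset.mem_union.1 h2 with h2 | h2
      · exact Finset.mem_union_left _ (Finset.mem_inter.2 ⟨h1, h2⟩)
      · exact Finset.mem_union_right _ (Finset.mem_inter.2 ⟨h1, h2⟩)
    · exfalso
      obtain ⟨D, hD, hxD⟩ := Finset.mem_biUnion.1 h2
      rcases hnb D (hKRS hD) ⟨x, h1, hxD⟩ with h3 | h3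
      · exact mRA D hD h3
      · exact mR D hD h3
  have hiA : (vbl X ∩ KA.biUnion vbl).card ≤ 1 := by
    rw [Finset.card_le_one]
    intro x hx y hy
    obtain ⟨h1, h2⟩ := Finset.mem_inter.1 hx
    obtain ⟨h3, h4⟩ := Finset.mem_inter.1 hy
    obtain ⟨C, hC, hxC⟩ := Finset.mem_biUnion.1 h2
    obtain ⟨D, hD, hyD⟩ := Finset.mem_biUnion.1 h4
    exact h1A x h1 y h3 C (mA C hC) D (mA D hD) hxC hyD
  have hiO : (vbl X ∩ KO.biUnion vbl).card ≤ 1 := by
    rw [Finset.card_le_one]
    intro x hx y hy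
    obtain ⟨h1, h2⟩ := Finset.mem_inter.1 hx
    obtain ⟨h3, h4⟩ := Finset.mem_inter.1 hy
    obtain ⟨C, hC, hxC⟩ := Finset.mem_biUnion.1 h2
    obtain ⟨D, hD, hyD⟩ := Finset.mem_biUnion.1 h4
    exact h1O x h1 y h3 C (mO C hC) D (mO D hD) hxC hyD
  -- the three parts
  have part : ∀ K' : Finset (Finset (V × Bool)), K' ⊆ S →
      (vbl X ∩ K'.biUnion vbl).card ≤ 1 →
      (k - 1) * K'.card + (vbl X ∩ K'.biUnion vbl).card ≤ (K'.biUnion vbl).card := by
    intro K' hK' hle
    rcases Finset.eq_empty_or_nonempty K' with rfl | hne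
    · simp
    · have := hS K' hK' hne
      omega
  have partR : (k - 1) * KR.card ≤ (KR.biUnion vbl).card := by
    rcases Finset.eq_empty_or_nonempty KR with h | hne
    · rw [h]; simp
    · have := hS KR hKRS hne
      omega
  have pA := part KA hKAS hiA
  have pO := part KO hKOS hiO
  have hinter : (vbl X ∩ U0).card ≤ (vbl X ∩ KA.biUnion vbl).card +
      (vbl X ∩ KO.biUnion vbl).card :=
    (Finset.card_le_card hint).trans (Finset.card_union_le _ _)
  have hsub : U0 ∪ vbl X ⊆ K.biUnion vbl := by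
    intro x hx
    have hKK : ∀ K' : Finset (Finset (V × Bool)), K' ⊆ K0 → x ∈ K'.biUnion vbl →
        x ∈ K.biUnion vbl := by
      intro K' hK' hx
      obtain ⟨C, hC, hxC⟩ := Finset.mem_biUnion.1 hx
      exact Finset.mem_biUnion.2 ⟨C, Finset.mem_of_mem_erase (hK' hC), hxC⟩
    rcases Finset.mem_union.1 hx with hx | hx
    · rcases Finset.mem_union.1 hx with hx | hx
      · rcases Finset.mem_union.1 hx with hx | hx
        · exact hKK KA (Finset.filter_subset _ _) hx
        · exact hKK KO ((Finset.filter_subset _ _).trans (Finset.filter_subset _ _)) hx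
      · exact hKK KR ((Finset.filter_subset _ _).trans (Finset.filter_subset _ _)) hx
    · exact Finset.mem_biUnion.2 ⟨X, hXK, hx⟩
  have hfin := Finset.card_le_card hsub
  have hunion := Finset.card_union_add_card_inter U0 (vbl X)
  rw [Finset.inter_comm] at hunion
  have hmul : (k - 1) * K.card = (k - 1) * KA.card + (k - 1) * KO.card + (k - 1) * KR.card +
      (k - 1) := by
    rw [hcardK, hcard0]
    ring
  omega

theorem comp_sdiff {S : Finset (Finset (V × Bool))} {O C : Finset (V × Bool)} (hO : O ∈ S)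
    (hC : C ∈ S) (h : C ∉ comp S O) : comp (S \ comp S O) C = comp S C := by
  classical
  apply Finset.Subset.antisymm (comp_mono Finset.sdiff_subset C)
  have hCR : C ∈ S \ comp S O := Finset.mem_sdiff.2 ⟨hC, h⟩
  apply comp_min (comp_self hCR)
  intro D hD E hE hDE
  have hDR := comp_sub _ _ hD
  obtain ⟨hDS, hDO⟩ := Finset.mem_sdiff.1 hDR
  apply comp_closed hD _ hDE
  refine Finset.mem_sdiff.2 ⟨hE, fun hEO => hDO ?_⟩
  exact comp_closed hEO hDS (adj_symm hDE)

/-- the process without slack -/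
theorem phase0 {k L : ℕ} (hk2 : 2 ≤ k) {xs : List V} {γ : Finset (V × Bool) → ℕ}
    {Q : Finset (Finset (V × Bool))} (hk : ∀ C ∈ Q, (vbl C).card = k)
    (hfree : ∀ C ∈ Q, γ C < L → ∃ (α β : ℕ) (a b : V), att xs α = some a ∧ att xs β = some b ∧
      a ≠ b ∧ a ∈ vbl C ∧ b ∈ vbl C ∧ α ≤ γ C ∧ β ≤ γ C)
    (hrest : ∀ C ∈ Q, L ≤ γ C → ∃ Y ⊆ vbl C, 3 ≤ Y.card ∧
      ∀ y ∈ Y, ∃ E ∈ Q, γ E < L ∧ y ∈ vbl E) :
    ∀ (n : ℕ) (S : Finset (Finset (V × Bool))) (A : Finset (V × Bool)) (now : ℕ),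
      (Q \ S).card = n → St xs γ ∅ Q S A now → Her k S →
    (Her k Q ∧ ∀ C ∈ Q, ∃ c T, Kn xs γ (comp Q C) c T ∧ c ≤ (comp Q C).card + 1) ∨
    (∃ Q' ⊆ Q, ∃ P ∈ Q', (∃ c T, Kn xs γ (comp Q' P) c T ∧ c ≤ (comp Q' P).card) ∧
      ∀ C ∈ Q', ∀ x ∈ vbl C, ∀ y ∈ vbl C, (∃ E ∈ Q \ Q', x ∈ vbl E) →
        (∃ E ∈ Q \ Q', y ∈ vbl E) → x = y) := by
  classical
  have hrest2 : ∀ S : Finset (Finset (V × Bool)), ∀ C ∈ Q, C ∉ S → L ≤ γ C →
      ∃ v v' E E', v ≠ v' ∧ v ∈ vbl C ∧ v' ∈ vbl C ∧ E ∈ Q ∧ E' ∈ Q ∧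
        γ E < L ∧ γ E' < L ∧ v ∈ vbl E ∧ v' ∈ vbl E' := by
    intro S C hC _ hL
    obtain ⟨Y, hY, hY3, hYE⟩ := hrest C hC hL
    obtain ⟨v, hv, v', hv', hne⟩ := Finset.one_lt_card.1 (by omega : 1 < Y.card)
    obtain ⟨E, hE, hEL, hvE⟩ := hYE v hv
    obtain ⟨E', hE', hEL', hvE'⟩ := hYE v' hv'
    exact ⟨v, v', E, E', hne, hY hv, hY hv', hE, hE', hEL, hEL', hvE, hvE'⟩
  intro n
  induction n with
  | zero =>
    intro S A now hn hst hher
    left
    have hSQ : S = Q := by
      apply Finset.Subset.antisymm hst.sub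
      rw [← Finset.sdiff_eq_empty_iff_subset]
      exact Finset.card_eq_zero.1 hn
    subst hSQ
    refine ⟨hher, fun C hC => ?_⟩
    obtain ⟨c, hK, hc⟩ := hst.kn C hC
    exact ⟨c, now, hK, by omega⟩
  | succ n ih =>
    intro S A now hn hst hher
    have hcardS : ∀ X, X ∈ Q → X ∉ S → (Q \ insert X S).card = n := by
      intro X hXQ hXS
      have h1 : Q \ insert X S = (Q \ S).erase X := by
        ext Y
        simp only [Finset.mem_sdiff, Finset.mem_insert, Finset.mem_erase]
        tauto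
      rw [h1, Finset.card_erase_of_mem (Finset.mem_sdiff.2 ⟨hXQ, hXS⟩), hn]
      omega
    by_cases hex : ∃ X ∈ Q, X ∉ S ∧ Clo S X
    · obtain ⟨X, hXQ, hXS, hX⟩ := hex
      obtain ⟨hA, D, hD, u, hu, huD⟩ := act_neighbour hst hXQ hXS hX
      by_cases ho : ∃ O ∈ S, O ∉ comp S A ∧ adj X O
      · obtain ⟨O, hO, hOA, w, hw, hwO⟩ := ho
        have hoc := other_comp hst hXQ hXS hO hOA ⟨w, hw, hwO⟩
        by_cases htwo : ∃ v ∈ vbl X, ∃ v' ∈ vbl X, ∃ C ∈ comp S A, ∃ C' ∈ comp S A,
            v ∈ vbl C ∧ v' ∈ vbl C' ∧ v ≠ v'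
        · -- drop the component of `O`
          right
          obtain ⟨v, hv, v', hv', C, hC, C', hC', hvC, hvC', hne⟩ := htwo
          set R := S \ comp S O with hR
          have hRS : R ⊆ S := Finset.sdiff_subset
          have hAO : A ∉ comp S O := by
            intro h
            apply hOA
            rw [comp_eq hO h]
            exact comp_self hO
          have hAR : A ∈ R := Finset.mem_sdiff.2 ⟨hA, hAO⟩
          have hcA : comp R A = comp S A := comp_sdiff hO hA hAO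
          have hQ' : X ∈ Q \ comp S O :=
            Finset.mem_sdiff.2 ⟨hXQ, fun h => hXS (comp_sub _ _ h)⟩
          have hXR : X ∉ R := fun h => hXS (hRS h)
          have hnotS : ∀ Y ∈ Q \ comp S O, Y ∉ R → Y ∉ S := by
            intro Y hY hYR hYS
            exact hYR (Finset.mem_sdiff.2 ⟨hYS, (Finset.mem_sdiff.1 hY).2⟩)
          have hstR : St xs γ ∅ (Q \ comp S O) R A now := by
            refine ⟨Finset.sdiff_subset_sdiff hst.sub (Finset.Subset.refl _),
              Finset.empty_subset _, fun _ => hAR, ?_, ?_, ?_⟩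
            · intro C hC
              obtain ⟨h1, h2⟩ := Finset.mem_sdiff.1 hC
              rw [comp_sdiff hO h1 h2]
              exact hst.kn C h1
            · intro Y hY hYR
              exact hst.late Y (Finset.mem_sdiff.1 hY).1 (hnotS Y hY hYR)
            · intro Y hY hYR y y' C C' hy hy' hC hC' hCA hCA' hyC hyC'
              rw [hcA] at hCA hCA'
              exact hst.one Y (Finset.mem_sdiff.1 hY).1 (hnotS Y hY hYR) y y' C C' hy hy'
                (hRS hC) (hRS hC') hCA hCA' hyC hyC'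
          have hnbR : ∀ D ∈ R, adj X D → D ∈ comp R A := by
            intro D hD hXD
            rw [hcA]
            rcases hoc D (hRS hD) hXD with h | h
            · exact h
            · exact absurd h (Finset.mem_sdiff.1 hD).2
          have hst' : St xs γ {X} (Q \ comp S O) (insert X R) X now := by
            refine step_close hstR hQ' hXR hAR hnbR ?_ hne hv hv' (C := C) (C' := C')
              (by rw [hcA]; exact hC) (by rw [hcA]; exact hC') hvC hvC' (Or.inr rfl)
            intro p hp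
            rw [Finset.mem_singleton.1 hp]
            exact Finset.mem_insert_self _ _
          have hOone : ∀ C ∈ Q, C ∉ S → ∀ x ∈ vbl C, ∀ y ∈ vbl C, (∃ E ∈ comp S O, x ∈ vbl E) →
              (∃ E ∈ comp S O, y ∈ vbl E) → x = y := by
            rintro C hC hCS x hx y hy ⟨E, hE, hxE⟩ ⟨E', hE', hyE'⟩
            have hdis := comp_disj hA hO hOA
            exact hst.one C hC hCS x y E E' hx hy (comp_sub _ _ hE) (comp_sub _ _ hE')
              (fun h => Finset.disjoint_left.1 hdis h hE)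
              (fun h => Finset.disjoint_left.1 hdis h hE') hxE hyE'
          refine ⟨Q \ comp S O, Finset.sdiff_subset, X, hQ', ?_, ?_⟩
          · refine phase1 (L := L) (fun C hC => hfree C (Finset.mem_sdiff.1 hC).1) _
              (insert X R) X now rfl hst' ?_
            intro C hC hCR hL
            have hCQ := (Finset.mem_sdiff.1 hC).1
            have hCS : C ∉ S := hnotS C hC fun h => hCR (Finset.mem_insert_of_mem h)
            obtain ⟨Y, hY, hY3, hYE⟩ := hrest C hCQ hL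
            have hbadY : (Y.filter fun y => ∃ E ∈ comp S O, y ∈ vbl E).card ≤ 1 := by
              rw [Finset.card_le_one]
              intro x hx y hy
              obtain ⟨h1, h2⟩ := Finset.mem_filter.1 hx
              obtain ⟨h3, h4⟩ := Finset.mem_filter.1 hy
              exact hOone C hCQ hCS x (hY h1) y (hY h3) h2 h4
            have hsplit := Finset.card_filter_add_card_filter_not (s := Y)
              (fun y => ∃ E ∈ comp S O, y ∈ vbl E)
            obtain ⟨y1, hy1, y2, hy2, hne12⟩ := Finset.one_lt_card.1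
              (by omega : 1 < (Y.filter fun y => ¬ ∃ E ∈ comp S O, y ∈ vbl E).card)
            obtain ⟨h1, h2⟩ := Finset.mem_filter.1 hy1
            obtain ⟨h3, h4⟩ := Finset.mem_filter.1 hy2
            obtain ⟨E1, hE1, hL1, hyE1⟩ := hYE y1 h1
            obtain ⟨E2, hE2, hL2, hyE2⟩ := hYE y2 h3
            exact ⟨y1, y2, E1, E2, hne12, hY h1, hY h3,
              Finset.mem_sdiff.2 ⟨hE1, fun h => h2 ⟨E1, h, hyE1⟩⟩,
              Finset.mem_sdiff.2 ⟨hE2, fun h => h4 ⟨E2, h, hyE2⟩⟩, hL1, hL2, hyE1, hyE2⟩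
          · rintro C hC x hx y hy ⟨E, hE, hxE⟩ ⟨E', hE', hyE'⟩
            obtain ⟨hCQ, hCO⟩ := Finset.mem_sdiff.1 hC
            have hEO : ∀ E ∈ Q \ (Q \ comp S O), E ∈ comp S O := by
              intro E hE
              obtain ⟨h1, h2⟩ := Finset.mem_sdiff.1 hE
              by_contra h3
              exact h2 (Finset.mem_sdiff.2 ⟨h1, h3⟩)
            by_cases hCS : C ∈ S
            · exfalso
              exact hCO (comp_closed (hEO E hE) hCS ⟨x, hxE, hx⟩)
            · exact hOone C hCQ hCS x hx y hy ⟨E, hEO E hE, hxE⟩ ⟨E', hEO E' hE', hyE'⟩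
        · -- no cycle
          push Not at htwo
          have hst' : St xs γ ∅ Q (insert X S) X now :=
            step_join hst hXQ hXS hA hO hOA hoc hu hw hD (comp_self hO) huD hwO
          refine ih (insert X S) X now (hcardS X hXQ hXS) hst' ?_
          refine her_insert (by omega) hher hXS (hk X hXQ) (SA := comp S A) (SO := comp S O)
            hoc (fun D hD E hE => comp_far hA hO hOA hD hE) ?_ ?_ ?_ ?_
          · intro D hD E hE hEA h
            exact hEA (comp_closed hD hE h)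
          · intro D hD E hE hEO h
            exact hEO (comp_closed hD hE h)
          · intro v hv v' hv' C hC C' hC' hvC hvC'
            exact htwo v hv v' hv' C hC C' hC' hvC hvC'
          · intro v hv v' hv' C hC C' hC' hvC hvC'
            have hdis := comp_disj hA hO hOA
            exact hst.one X hXQ hXS v v' C C' hv hv' (comp_sub _ _ hC) (comp_sub _ _ hC')
              (fun h => Finset.disjoint_left.1 hdis h hC)
              (fun h => Finset.disjoint_left.1 hdis h hC') hvC hvC'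
      · -- slack
        right
        push Not at ho
        have hnb : ∀ D ∈ S, adj X D → D ∈ comp S A := by
          intro D hD hXD
          by_contra h
          exact ho D hD h hXD
        obtain ⟨v, v', C, C', hne, hv, hv', hC, hC', hvC, hvC'⟩ := hX
        have hst' : St xs γ {X} Q (insert X S) X now := by
          refine step_close hst hXQ hXS hA hnb ?_ hne hv hv'
            (hnb C hC ⟨v, hv, hvC⟩) (hnb C' hC' ⟨v', hv', hvC'⟩) hvC hvC' (Or.inr rfl)
          intro p hp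
          rw [Finset.mem_singleton.1 hp]
          exact Finset.mem_insert_self _ _
        refine ⟨Q, Finset.Subset.refl _, X, hXQ, ?_, ?_⟩
        · exact phase1 (L := L) hfree _ (insert X S) X now rfl hst' (hrest2 _)
        · rintro C hC x hx y hy ⟨E, hE, _⟩ _
          simp at hE
    · push Not at hex
      have hne : (Q \ S).Nonempty := by
        rw [← Finset.card_pos, hn]
        omega
      obtain ⟨X, hX, hmin⟩ := Finset.exists_min_image (Q \ S) γ hne
      obtain ⟨hXQ, hXS⟩ := Finset.mem_sdiff.1 hX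
      have hmin' : ∀ Y ∈ Q, Y ∉ S → γ X ≤ γ Y := fun Y hY hYS =>
        hmin Y (Finset.mem_sdiff.2 ⟨hY, hYS⟩)
      by_cases hL : γ X < L
      · obtain ⟨α, β, a, b, ha, hb, hab, haX, hbX, hα, hβ⟩ := hfree X hXQ hL
        have hst' := step_next hst hXQ hXS hex hmin' ha hb hab haX hbX hα hβ
        refine ih (insert X S) X (γ X) (hcardS X hXQ hXS) hst' ?_
        have hknown : ∀ v ∈ vbl X, ∀ v' ∈ vbl X, ∀ C ∈ S, ∀ C' ∈ S, v ∈ vbl C → v' ∈ vbl C' →
            v = v' := by
          intro v hv v' hv' C hC C' hC' hvC hvC'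
          by_contra hne
          exact hex X hXQ hXS ⟨v, v', C, C', hne, hv, hv', hC, hC', hvC, hvC'⟩
        refine her_insert (by omega) hher hXS (hk X hXQ) (SA := S) (SO := ∅)
          (fun D hD _ => Or.inl hD) (fun D _ E hE => absurd hE (Finset.notMem_empty _))
          (fun D _ E hE hE2 => absurd hE hE2)
          (fun D hD => absurd hD (Finset.notMem_empty _))
          (fun v hv v' hv' C hC C' hC' => hknown v hv v' hv' C hC C' hC')
          (fun v _ v' _ C hC => absurd hC (Finset.notMem_empty _))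
      · obtain ⟨v, v', E, E', hvv, hv, hv', hE, hE', hEL, hEL', hvE, hvE'⟩ :=
          hrest2 S X hXQ hXS (not_lt.1 hL)
        exfalso
        have h1 : E ∈ S := by
          by_contra h
          have := hmin' E hE h
          omega
        have h2 : E' ∈ S := by
          by_contra h
          have := hmin' E' hE' h
          omega
        exact hex X hXQ hXS ⟨v, v', E, E', hvv, hv, hv', h1, h2, hvE, hvE'⟩

theorem process {k L : ℕ} (hk2 : 2 ≤ k) {xs : List V} {γ : Finset (V × Bool) → ℕ}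
    {Q : Finset (Finset (V × Bool))} (hk : ∀ C ∈ Q, (vbl C).card = k)
    (hfree : ∀ C ∈ Q, γ C < L → ∃ (α β : ℕ) (a b : V), att xs α = some a ∧ att xs β = some b ∧
      a ≠ b ∧ a ∈ vbl C ∧ b ∈ vbl C ∧ α ≤ γ C ∧ β ≤ γ C)
    (hrest : ∀ C ∈ Q, L ≤ γ C → ∃ Y ⊆ vbl C, 3 ≤ Y.card ∧
      ∀ y ∈ Y, ∃ E ∈ Q, γ E < L ∧ y ∈ vbl E) :
    (Her k Q ∧ ∀ C ∈ Q, ∃ c T, Kn xs γ (comp Q C) c T ∧ c ≤ (comp Q C).card + 1) ∨
    (∃ Q' ⊆ Q, ∃ P ∈ Q', (∃ c T, Kn xs γ (comp Q' P) c T ∧ c ≤ (comp Q' P).card) ∧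
      ∀ C ∈ Q', ∀ x ∈ vbl C, ∀ y ∈ vbl C, (∃ E ∈ Q \ Q', x ∈ vbl E) →
        (∃ E ∈ Q \ Q', y ∈ vbl E) → x = y) := by
  refine phase0 hk2 hk hfree hrest _ ∅ ∅ 0 rfl ?_ ?_
  · refine ⟨Finset.empty_subset _, Finset.Subset.refl _, ?_, ?_, ?_, ?_⟩
    · intro h
      exact absurd h (by simp)
    · intro C hC
      exact absurd hC (Finset.notMem_empty _)
    · intro X _ _
      exact Nat.zero_le _
    · intro X _ _ v v' C C' _ _ hC
      exact absurd hC (Finset.notMem_empty _)
  · intro K hK hne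
    obtain ⟨C, hC⟩ := hne
    exact absurd (hK hC) (Finset.notMem_empty _)

end Pool.Agent.LKTL
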