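import Pool.Agent.LKTL.Comp

set_option autoImplicit false

/-!
# The first bad stage (proofs for LKTL/Stage)
-/

namespace Pool.Agent.LKTL.StageS80

open Finset Pool.Agent.LKCNF Pool.Agent.LKCNF.Tree Pool.Agent.LKTL

variable {V : Type} [DecidableEq V]

theorem comp_le {k N : ℕ} {S : Finset (Finset (V × Bool))} {X : Finset (V × Bool)}
    (hk : 1 ≤ k) (hX : (vbl X).card = k) (hS : ∀ C ∈ S, (comp S C).card < N) :
    ∀ C ∈ insert X S, (comp (insert X S) C).card ≤ 1 + k * N := by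
  classical
  have hN : N ≤ k * N := Nat.le_mul_of_pos_left N hk
  -- the components at the variables of `X`
  have hW : ∀ v : V, ∃ W : Finset (Finset (V × Bool)), W.card ≤ N ∧
      (∀ D ∈ W, ∀ E ∈ S, adj D E → E ∈ W) ∧ (∀ E ∈ S, v ∈ vbl E → E ∈ W) ∧
      (∀ D ∈ S, D ∈ W → comp S D ⊆ W) := by
    intro v
    by_cases h : ∃ C ∈ S, v ∈ vbl C
    · obtain ⟨C, hC, hv⟩ := h
      refine ⟨comp S C, (hS C hC).le, fun D hD E hE hDE => comp_closed hD hE hDE,
        fun E hE hvE => comp_closed (comp_self hC) hE ⟨v, hv, hvE⟩, fun D _ hD => ?_⟩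
      rw [comp_eq hC hD]
    · refine ⟨∅, Nat.zero_le _, fun D hD => absurd hD (Finset.notMem_empty _),
        fun E hE hvE => absurd ⟨E, hE, hvE⟩ h, fun D _ hD => absurd hD (Finset.notMem_empty _)⟩
  choose W hW1 hW2 hW3 hW4 using hW
  obtain ⟨U, hU⟩ : ∃ U, U = insert X ((vbl X).biUnion W) := ⟨_, rfl⟩
  have hUc : U.card ≤ 1 + k * N := by
    calc U.card ≤ ((vbl X).biUnion W).card + 1 := by rw [hU]; exact card_insert_le _ _
      _ ≤ (vbl X).card * N + 1 := Nat.add_le_add_right (card_biUnion_le_card_mul _ _ _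
          fun v _ => hW1 v) 1
      _ = 1 + k * N := by rw [hX, Nat.add_comm]
  have hmem : ∀ {D : Finset (V × Bool)}, D ∈ U ↔ D = X ∨ ∃ v ∈ vbl X, D ∈ W v := by
    intro D
    rw [hU, mem_insert, mem_biUnion]
  have hcl : ∀ D ∈ U, ∀ E ∈ insert X S, adj D E → E ∈ U := by
    intro D hD E hE hDE
    rcases mem_insert.mp hE with rfl | hES
    · exact hmem.mpr (Or.inl rfl)
    · rcases hmem.mp hD with rfl | ⟨v, hv, hDv⟩
      · obtain ⟨x, hx1, hx2⟩ := hDE
        exact hmem.mpr (Or.inr ⟨x, hx1, hW3 x E hES hx2⟩)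
      · exact hmem.mpr (Or.inr ⟨v, hv, hW2 v D hDv E hES hDE⟩)
  intro C hC
  by_cases hCU : C ∈ U
  · exact (card_le_card (comp_min hCU hcl)).trans hUc
  · have hCS : C ∈ S := by
      rcases mem_insert.mp hC with rfl | h
      · exact absurd (hmem.mpr (Or.inl rfl)) hCU
      · exact h
    have h1 : comp (insert X S) C ⊆ comp S C := by
      apply comp_min (comp_self hCS)
      intro D hD E hE hDE
      rcases mem_insert.mp hE with rfl | hES
      · exfalso
        obtain ⟨x, hx1, hx2⟩ := hDE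
        have hDS : D ∈ S := comp_sub S C hD
        have hDW := hW3 x D hDS hx1
        have h2 := hW4 x D hDS hDW
        rw [comp_eq hCS hD] at h2
        exact hCU (hmem.mpr (Or.inr ⟨x, hx2, h2 (comp_self hCS)⟩))
      · exact comp_closed hD hES hDE
    have h2 := card_le_card h1
    have h3 := hS C hCS
    omega

theorem stage {k N : ℕ} {S0 S1 : Finset (Finset (V × Bool))} (h0 : Good k N S0)
    (h01 : S0 ⊆ S1) (h1 : ¬ Good k N S1) :
    ∃ S X, S0 ⊆ S ∧ X ∉ S ∧ insert X S ⊆ S1 ∧ Good k N S ∧ ¬ Good k N (insert X S) := by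
  obtain ⟨n, hn⟩ : ∃ n, n = (S1 \ S0).card := ⟨_, rfl⟩
  induction n generalizing S0 with
  | zero =>
    exfalso
    have h2 : S1 \ S0 = ∅ := card_eq_zero.mp hn.symm
    have h3 : S0 = S1 := Subset.antisymm h01 (sdiff_eq_empty_iff_subset.mp h2)
    exact h1 (h3 ▸ h0)
  | succ n ih =>
    have hne : (S1 \ S0).Nonempty := by
      rw [← card_pos]
      omega
    obtain ⟨X, hX⟩ := hne
    obtain ⟨hX1, hX0⟩ := mem_sdiff.mp hX
    have hsub : insert X S0 ⊆ S1 := insert_subset hX1 h01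
    by_cases hG : Good k N (insert X S0)
    · obtain ⟨S, Y, k1, k2, k3, k4, k5⟩ := ih hG hsub (by
        have e1 : S1 \ insert X S0 = (S1 \ S0).erase X := by
          ext Y
          simp only [mem_sdiff, mem_insert, mem_erase]
          tauto
        rw [e1, card_erase_of_mem hX]
        omega)
      exact ⟨S, Y, (subset_insert X S0).trans k1, k2, k3, k4, k5⟩
    · exact ⟨S0, X, Subset.refl _, hX0, hsub, h0, hG⟩

end Pool.Agent.LKTL.StageS80
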