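import Pool.Agent.LKTL.Comp

set_option autoImplicit false

/-!
# A falsified clause lies in a large component

`big_comp`. Let `Q = ever F τ h` and let `K ⊆ Q` be closed: `C ∈ K`, `E ∈ Q`, `adj C E` imply
`E ∈ K`. Claim: for every suffix `g <:+ h`

  `∑ C ∈ K with Crit τ g C, wt τ g C ≤ (K.filter fun C => ∃ g', g' <:+ g ∧ Crit τ g' C).card`.

Induction on `g` (suffixes of `h`; or prove it for all `g` with `Valid F τ g` and `ever F τ g ⊆ Q`).
`g = []`: no clause is critical, because `τ < k` and nothing is assigned, so the left side is 0.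
Step `e :: g`, `e = (x, b, φ)`, `x ∉ dm g`.
A clause `C ∈ K` which is critical at `e :: g` but not at `g`: it is open at `g` (open_tail), so
`(vbl C \ dm g).card > τ`, so `x ∈ vbl C` and `(vbl C \ dm (e :: g)).card = τ`, weight `2 ^ 0 = 1`.
It was never critical before: if `Crit τ g' C` with `g' <:+ g`, then, being open at `g` and with
`dm g' ⊆ dm g`, it would be critical at `g`. So it is a new element of the right side.
A clause critical at `g`: if `x ∉ vbl C` nothing changes. If `φ = true` this is always the case.
If `φ = false` and `(x, b) ∈ C` it is no longer open, weight 0. If `(x, !b) ∈ C` it stays critical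
with one unassigned variable less, the weight doubles (`wt = 2 ^ (τ - u)`, `1 ≤ u ≤ τ`).
Now either no critical clause of `K` contains `x`, and there is nothing to show, or one does; then
all clauses of `F` critical at `g` which contain `x` are in `Q`, pairwise adjacent by `x`, so they
are all in `K`, and the change of the left side is at most `side (x, !b) - side (x, b) ≤ 0` plus the
number of new clauses.

At `h`: `D` is open (no literal of `D` is satisfied: Valid gives that a variable has one entry, see
`Tree.entry_unique` for the proof) and all its variables are assigned, so it is critical (with 0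
unassigned variables), `D ∈ Q`, weight `2 ^ τ`. Apply the claim to `K = comp Q D`, `g = h`.
-/

namespace Pool.Agent.LKTL

open Finset Pool.Agent.LKCNF Pool.Agent.LKCNF.Tree

variable {V : Type} [DecidableEq V]

/-- weight of `C` if it is critical, else 0 -/
noncomputable def fwW (τ : ℕ) (g : List (V × Bool × Bool)) (C : Finset (V × Bool)) : ℕ :=
  open Classical in if Crit τ g C then wt τ g C else 0

/-- 1 if `C` was critical at some time, else 0 -/
noncomputable def nwW (τ : ℕ) (g : List (V × Bool × Bool)) (C : Finset (V × Bool)) : ℕ :=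
  open Classical in if (∃ g', g' <:+ g ∧ Crit τ g' C) then 1 else 0

/-- weight of `C` if it is critical and contains `l`, else 0 -/
noncomputable def swW (τ : ℕ) (g : List (V × Bool × Bool)) (l : V × Bool)
    (C : Finset (V × Bool)) : ℕ :=
  open Classical in if Crit τ g C ∧ l ∈ C then wt τ g C else 0

theorem dm_suffixW {g g' : List (V × Bool × Bool)} (h : g' <:+ g) : dm g' ⊆ dm g := by
  intro x hx
  obtain ⟨b, φ, hb⟩ := mem_dm.1 hx
  exact mem_dm.2 ⟨b, φ, h.subset hb⟩

theorem nw_monoW (τ : ℕ) (e : V × Bool × Bool) (g : List (V × Bool × Bool))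
    (C : Finset (V × Bool)) : nwW τ g C ≤ nwW τ (e :: g) C := by
  unfold nwW
  by_cases h : ∃ g', g' <:+ g ∧ Crit τ g' C
  · obtain ⟨g', h1, h2⟩ := h
    rw [if_pos ⟨g', h1, h2⟩, if_pos ⟨g', h1.trans (List.suffix_cons e g), h2⟩]
  · rw [if_neg h]
    exact Nat.zero_le _

theorem card_consW (e : V × Bool × Bool) (g : List (V × Bool × Bool)) (C : Finset (V × Bool)) :
    (vbl C \ dm g).card ≤ (vbl C \ dm (e :: g)).card + 1 := by
  have h1 : vbl C \ dm g ⊆ insert e.1 (vbl C \ dm (e :: g)) := by
    intro x hx
    obtain ⟨h2, h3⟩ := Finset.mem_sdiff.1 hx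
    by_cases h4 : x = e.1
    · rw [h4]
      exact Finset.mem_insert_self _ _
    · apply Finset.mem_insert_of_mem
      rw [Finset.mem_sdiff, dm_cons, Finset.mem_insert]
      refine ⟨h2, ?_⟩
      rintro (h5 | h5)
      · exact h4 h5
      · exact h3 h5
  exact (Finset.card_le_card h1).trans (Finset.card_insert_le _ _)

/-- the pointwise inequality of the step -/
theorem stepW {k τ : ℕ} {F : Finset (Finset (V × Bool))} (hk : IsKCNF k F)
    (x : V) (b φ : Bool) (g : List (V × Bool × Bool))
    {C : Finset (V × Bool)} (hC : C ∈ F) :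
    fwW τ ((x, b, φ) :: g) C + nwW τ g C + swW τ g (x, b) C ≤
      fwW τ g C + nwW τ ((x, b, φ) :: g) C + swW τ g (x, !b) C := by
  have hn := nw_monoW τ (x, b, φ) g C
  have hcard := card_consW (x, b, φ) g C
  by_cases hcr : Crit τ g C
  · have hf : fwW τ g C = wt τ g C := by
      unfold fwW
      rw [if_pos hcr]
    by_cases hxb : (x, b) ∈ C
    · have h1 : fwW τ ((x, b, φ) :: g) C = 0 := by
        unfold fwW
        rw [if_neg]
        intro h2
        exact h2.1 _ hxb φ (List.mem_cons.2 (Or.inl rfl))
      have h2 : swW τ g (x, b) C = wt τ g C := by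
        unfold swW
        rw [if_pos ⟨hcr, hxb⟩]
      omega
    · have h2 : swW τ g (x, b) C = 0 := by
        unfold swW
        rw [if_neg]
        intro h
        exact hxb h.2
      by_cases hxn : (x, !b) ∈ C
      · have h3 : swW τ g (x, !b) C = wt τ g C := by
          unfold swW
          rw [if_pos ⟨hcr, hxn⟩]
        have h4 : fwW τ ((x, b, φ) :: g) C ≤ 2 * wt τ g C := by
          unfold fwW
          split_ifs
          · unfold wt
            rw [← pow_succ']
            exact Nat.pow_le_pow_right (by norm_num) (by omega)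
          · exact Nat.zero_le _
        omega
      · have h4 : fwW τ ((x, b, φ) :: g) C ≤ wt τ g C := by
          unfold fwW
          split_ifs
          · have hx : x ∉ vbl C := by
              intro hx
              obtain ⟨c, hc⟩ := mem_vbl.1 hx
              by_cases hcb : c = b
              · rw [hcb] at hc
                exact hxb hc
              · have : c = !b := by
                  cases c <;> cases b <;> simp_all
                rw [this] at hc
                exact hxn hc
            unfold wt
            apply le_of_eq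
            congr 2
            rw [dm_cons]
            congr 1
            ext y
            rw [Finset.mem_sdiff, Finset.mem_sdiff, Finset.mem_insert]
            constructor
            · rintro ⟨h5, h6⟩
              exact ⟨h5, fun h7 => h6 (Or.inr h7)⟩
            · rintro ⟨h5, h6⟩
              refine ⟨h5, ?_⟩
              rintro (h7 | h7)
              · have h8 : y = x := h7
                rw [h8] at h5
                exact hx h5
              · exact h6 h7
          · exact Nat.zero_le _
        omega
  · have hf : fwW τ g C = 0 := by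
      unfold fwW
      rw [if_neg hcr]
    have hs : swW τ g (x, b) C = 0 := by
      unfold swW
      rw [if_neg]
      intro h
      exact hcr h.1
    by_cases hcr' : Crit τ ((x, b, φ) :: g) C
    · have hbig : τ < (vbl C \ dm g).card := by
        by_contra hle
        exact hcr ⟨open_tail hcr'.1, not_lt.1 hle⟩
      have h1 : fwW τ ((x, b, φ) :: g) C = 1 := by
        unfold fwW
        rw [if_pos hcr']
        unfold wt
        have h2 := hcr'.2
        have h3 : τ - (vbl C \ dm ((x, b, φ) :: g)).card = 0 := by omega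
        rw [h3, pow_zero]
      have h2 : nwW τ g C = 0 := by
        unfold nwW
        rw [if_neg]
        rintro ⟨g', h3, h4⟩
        have h5 : (vbl C \ dm g).card ≤ (vbl C \ dm g').card :=
          Finset.card_le_card (Finset.sdiff_subset_sdiff (Finset.Subset.refl _) (dm_suffixW h3))
        have h6 := h4.2
        omega
      have h3 : nwW τ ((x, b, φ) :: g) C = 1 := by
        unfold nwW
        rw [if_pos ⟨_, List.suffix_refl _, hcr'⟩]
      omega
    · have h1 : fwW τ ((x, b, φ) :: g) C = 0 := by
        unfold fwW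
        rw [if_neg hcr']
      omega

/-- the sums over the closed set `K` -/
theorem side_leW {τ : ℕ} {F : Finset (Finset (V × Bool))} {h : List (V × Bool × Bool)}
    {K : Finset (Finset (V × Bool))} (hK : K ⊆ ever F τ h)
    (hKc : ∀ C ∈ K, ∀ E ∈ ever F τ h, adj C E → E ∈ K)
    {x : V} {b φ : Bool} {g : List (V × Bool × Bool)} (hg : (x, b, φ) :: g <:+ h)
    (hv : Valid F τ ((x, b, φ) :: g)) :
    ∑ C ∈ K, swW τ g (x, !b) C ≤ ∑ C ∈ K, swW τ g (x, b) C := by
  classical
  have hKF : ∀ C ∈ K, C ∈ F := fun C hC => by
    have h1 := hK hC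
    unfold ever at h1
    exact Finset.mem_of_mem_filter _ h1
  by_cases hex : ∃ C ∈ K, Crit τ g C ∧ x ∈ vbl C
  · obtain ⟨C0, hC0, hcr0, hx0⟩ := hex
    obtain ⟨_, _, hfree, hforced⟩ := hv
    have hφ : φ = false := by
      cases hφ : φ with
      | false => rfl
      | true => exact absurd hcr0 (hfree hφ C0 (hKF C0 hC0) hx0)
    have hside := (hforced hφ).2
    have key : ∀ c : Bool, side F τ g (x, c) = ∑ C ∈ K, swW τ g (x, c) C := by
      intro c
      unfold side swW
      rw [← Finset.sum_filter]
      apply Finset.sum_congr _ (fun _ _ => rfl)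
      ext C
      rw [Finset.mem_filter, Finset.mem_filter]
      constructor
      · rintro ⟨h1, h2, h3⟩
        refine ⟨?_, h2, h3⟩
        apply hKc C0 hC0 C
        · unfold ever
          rw [Finset.mem_filter]
          exact ⟨h1, g, (List.suffix_cons _ g).trans hg, h2⟩
        · exact ⟨x, hx0, mem_vbl.2 ⟨c, h3⟩⟩
      · rintro ⟨h1, h2, h3⟩
        exact ⟨hKF C h1, h2, h3⟩
    rw [← key, ← key]
    exact hside
  · have h1 : ∑ C ∈ K, swW τ g (x, !b) C = 0 := by
      apply Finset.sum_eq_zero
      intro C hC
      unfold swW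
      rw [if_neg]
      rintro ⟨h2, h3⟩
      exact hex ⟨C, hC, h2, mem_vbl.2 ⟨_, h3⟩⟩
    rw [h1]
    exact Nat.zero_le _

theorem claimW {k τ : ℕ} {F : Finset (Finset (V × Bool))} (hk : IsKCNF k F) (hτ : τ < k)
    {h : List (V × Bool × Bool)} {K : Finset (Finset (V × Bool))} (hK : K ⊆ ever F τ h)
    (hKc : ∀ C ∈ K, ∀ E ∈ ever F τ h, adj C E → E ∈ K) (g : List (V × Bool × Bool)) :
    g <:+ h → Valid F τ g → ∑ C ∈ K, fwW τ g C ≤ ∑ C ∈ K, nwW τ g C := by
  classical
  have hKF : ∀ C ∈ K, C ∈ F := fun C hC => by
    have h1 := hK hC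
    unfold ever at h1
    exact Finset.mem_of_mem_filter _ h1
  induction g with
  | nil =>
    intro _ _
    have h1 : ∑ C ∈ K, fwW τ ([] : List (V × Bool × Bool)) C = 0 := by
      apply Finset.sum_eq_zero
      intro C hC
      unfold fwW
      rw [if_neg]
      intro h2
      have h3 := h2.2
      have h4 : vbl C \ dm ([] : List (V × Bool × Bool)) = vbl C := by
        unfold dm
        simp
      rw [h4, (hk C (hKF C hC)).2] at h3
      omega
    rw [h1]
    exact Nat.zero_le _
  | cons e g ih =>
    intro hg hv
    obtain ⟨x, b, φ⟩ := e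
    have ih' := ih ((List.suffix_cons _ g).trans hg) hv.1
    have h1 := side_leW hK hKc hg hv
    have h2 := Finset.sum_le_sum (fun C hC => stepW (τ := τ) hk x b φ g (hKF C hC))
    rw [Finset.sum_add_distrib, Finset.sum_add_distrib, Finset.sum_add_distrib,
      Finset.sum_add_distrib] at h2
    omega

theorem uniqueW {F : Finset (Finset (V × Bool))} {τ : ℕ} {h : List (V × Bool × Bool)}
    (hv : Valid F τ h) {x : V} {p q : Bool × Bool} (h1 : (x, p) ∈ h) (h2 : (x, q) ∈ h) :
    p = q := by
  induction h with
  | nil => cases h1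
  | cons e h ih =>
    obtain ⟨hv1, hnd, _, _⟩ := hv
    rcases List.mem_cons.1 h1 with h1 | h1 <;> rcases List.mem_cons.1 h2 with h2 | h2
    · rw [← h1] at h2
      exact (Prod.ext_iff.1 h2).2.symm
    · exfalso
      apply hnd
      rw [← h1]
      exact mem_dm.2 ⟨q.1, q.2, h2⟩
    · exfalso
      apply hnd
      rw [← h2]
      exact mem_dm.2 ⟨p.1, p.2, h1⟩
    · exact ih hv1 h1 h2

theorem big_comp {k τ : ℕ} {F : Finset (Finset (V × Bool))} (hk : IsKCNF k F) (hτ : τ < k)
    {h : List (V × Bool × Bool)} (hv : Valid F τ h) {D : Finset (V × Bool)} (hD : D ∈ F)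
    (hf : ∀ l ∈ D, ∃ φ, (l.1, !l.2, φ) ∈ h) :
    D ∈ ever F τ h ∧ 2 ^ τ ≤ (comp (ever F τ h) D).card := by
  classical
  have ho : Open h D := by
    intro l hl φ hm
    obtain ⟨ψ, hψ⟩ := hf l hl
    have h2 := uniqueW hv hm hψ
    have h3 : l.2 = !l.2 := (Prod.ext_iff.1 h2).1
    cases hl2 : l.2 <;> rw [hl2] at h3 <;> simp at h3
  have hemp : vbl D \ dm h = ∅ := by
    rw [Finset.sdiff_eq_empty_iff_subset]
    intro x hx
    obtain ⟨b, hb⟩ := mem_vbl.1 hx
    obtain ⟨φ, hφ⟩ := hf _ hb
    exact mem_dm.2 ⟨_, _, hφ⟩
  have hcr : Crit τ h D := by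
    refine ⟨ho, ?_⟩
    rw [hemp, Finset.card_empty]
    exact Nat.zero_le _
  have hDQ : D ∈ ever F τ h := by
    unfold ever
    rw [Finset.mem_filter]
    exact ⟨hD, h, List.suffix_refl h, hcr⟩
  refine ⟨hDQ, ?_⟩
  set K := comp (ever F τ h) D with hKdef
  have hDK : D ∈ K := comp_self hDQ
  have h1 := claimW hk hτ (comp_sub (ever F τ h) D)
    (fun C hC E hE hCE => comp_closed hC hE hCE) h (List.suffix_refl h) hv
  have h2 : 2 ^ τ ≤ ∑ C ∈ K, fwW τ h C := by
    have h3 : fwW τ h D = 2 ^ τ := by
      unfold fwW
      rw [if_pos hcr]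
      unfold wt
      rw [hemp, Finset.card_empty, Nat.sub_zero]
    rw [← h3]
    exact Finset.single_le_sum (f := fun C => fwW τ h C) (fun C _ => Nat.zero_le _) hDK
  have h3 : ∑ C ∈ K, nwW τ h C ≤ K.card := by
    rw [Finset.card_eq_sum_ones]
    apply Finset.sum_le_sum
    intro C _
    unfold nwW
    split_ifs
    · exact le_refl 1
    · exact Nat.zero_le 1
  exact h2.trans (h1.trans h3)

end Pool.Agent.LKTL
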