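import Pool.Agent.LKTL.Comp

set_option autoImplicit false

/-!
# A falsified clause lies in a large component (helper50)
-/

namespace Pool.Agent.LKTL.WeightS50

open Finset Pool.Agent.LKCNF Pool.Agent.LKCNF.Tree Pool.Agent.LKTL

variable {V : Type} [DecidableEq V]

theorem uniq {F : Finset (Finset (V × Bool))} {τ : ℕ} {h : List (V × Bool × Bool)}
    (hv : LKTL.Valid F τ h) {x : V} {p q : Bool × Bool} (h1 : (x, p) ∈ h) (h2 : (x, q) ∈ h) :
    p = q := by
  induction h with
  | nil => exact absurd h1 (by simp)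
  | cons e h ih =>
    obtain ⟨hv1, hne, -, -⟩ := hv
    rcases List.mem_cons.1 h1 with h1 | h1
    · rcases List.mem_cons.1 h2 with h2 | h2
      · rw [← h1] at h2
        exact (Prod.mk.inj h2).2.symm
      · exfalso
        apply hne
        rw [← h1]
        exact mem_dm.2 ⟨q.1, q.2, h2⟩
    · rcases List.mem_cons.1 h2 with h2 | h2
      · exfalso
        apply hne
        rw [← h2]
        exact mem_dm.2 ⟨p.1, p.2, h1⟩
      · exact ih hv1 h1 h2

open Classical in
/-- the weight of a clause, zero if it is not critical -/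
noncomputable def w (τ : ℕ) (g : List (V × Bool × Bool)) (C : Finset (V × Bool)) : ℕ :=
  if Crit τ g C then wt τ g C else 0

open Classical in
/-- one if the clause was critical at some time -/
noncomputable def n (τ : ℕ) (g : List (V × Bool × Bool)) (C : Finset (V × Bool)) : ℕ :=
  if ∃ g', g' <:+ g ∧ Crit τ g' C then 1 else 0

open Classical in
/-- the weight of a clause which contains a literal -/
noncomputable def d (τ : ℕ) (g : List (V × Bool × Bool)) (l : V × Bool)
    (C : Finset (V × Bool)) : ℕ :=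
  if Crit τ g C ∧ l ∈ C then wt τ g C else 0

theorem dm_sub {g g' : List (V × Bool × Bool)} (h : g' <:+ g) : dm g' ⊆ dm g := by
  intro x hx
  obtain ⟨b, φ, hb⟩ := mem_dm.1 hx
  exact mem_dm.2 ⟨b, φ, h.subset hb⟩

theorem point {τ : ℕ} {g : List (V × Bool × Bool)} {x : V} {b φ : Bool} (hx : x ∉ dm g)
    (C : Finset (V × Bool)) :
    w τ ((x, b, φ) :: g) C + n τ g C + d τ g (x, b) C ≤
      w τ g C + n τ ((x, b, φ) :: g) C + d τ g (x, !b) C := by
  classical
  have hn : n τ g C ≤ n τ ((x, b, φ) :: g) C := by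
    unfold n
    by_cases h : ∃ g', g' <:+ g ∧ Crit τ g' C
    · obtain ⟨g', h1, h2⟩ := h
      rw [if_pos ⟨g', h1, h2⟩, if_pos ⟨g', h1.trans (List.suffix_cons _ g), h2⟩]
    · rw [if_neg h]
      exact Nat.zero_le _
  by_cases h1 : Crit τ ((x, b, φ) :: g) C
  · have hw' : w τ ((x, b, φ) :: g) C = wt τ ((x, b, φ) :: g) C := by
      unfold w
      rw [if_pos h1]
    have hn' : n τ ((x, b, φ) :: g) C = 1 := by
      unfold n
      rw [if_pos ⟨_, List.suffix_refl _, h1⟩]
    have hop : Open g C := open_tail h1.1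
    have hxb : (x, b) ∉ C := fun h => h1.1 _ h φ List.mem_cons_self
    have hd0 : d τ g (x, b) C = 0 := by
      unfold d
      rw [if_neg (fun h => hxb h.2)]
    have hdm : vbl C \ dm ((x, b, φ) :: g) = (vbl C \ dm g).erase x := by
      rw [dm_cons]
      ext y
      simp only [mem_sdiff, mem_insert, mem_erase]
      tauto
    by_cases h2 : Crit τ g C
    · have hw : w τ g C = wt τ g C := by
        unfold w
        rw [if_pos h2]
      have hn1 : n τ g C = 1 := by
        unfold n
        rw [if_pos ⟨_, List.suffix_refl _, h2⟩]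
      by_cases hxC : x ∈ vbl C
      · obtain ⟨c, hc⟩ := mem_vbl.1 hxC
        have hcb : c = !b := by
          rcases Bool.eq_or_eq_not c b with h | h
          · exact absurd (h ▸ hc) hxb
          · exact h
        have hd1 : d τ g (x, !b) C = wt τ g C := by
          unfold d
          rw [if_pos ⟨h2, hcb ▸ hc⟩]
        have hmem : x ∈ vbl C \ dm g := mem_sdiff.2 ⟨hxC, hx⟩
        have hpos : 0 < (vbl C \ dm g).card := card_pos.2 ⟨x, hmem⟩
        have hle : (vbl C \ dm g).card ≤ τ := h2.2
        have hwt : wt τ ((x, b, φ) :: g) C = 2 * wt τ g C := by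
          unfold wt
          rw [hdm, card_erase_of_mem hmem, ← pow_succ']
          congr 1
          omega
        rw [hw', hn', hd0, hw, hn1, hd1, hwt]
        omega
      · have hwt : wt τ ((x, b, φ) :: g) C = wt τ g C := by
          unfold wt
          rw [hdm, erase_eq_of_notMem (fun h => hxC (mem_sdiff.1 h).1)]
        rw [hw', hn', hd0, hw, hn1, hwt]
        omega
    · have hn0 : n τ g C = 0 := by
        unfold n
        rw [if_neg]
        rintro ⟨g', h3, h4⟩
        apply h2
        refine ⟨hop, (card_le_card ?_).trans h4.2⟩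
        exact sdiff_subset_sdiff (Subset.refl _) (dm_sub h3)
      have hgt : τ < (vbl C \ dm g).card := by
        by_contra h
        exact h2 ⟨hop, by omega⟩
      have hwt : wt τ ((x, b, φ) :: g) C = 1 := by
        unfold wt
        rw [hdm]
        have h5 := pred_card_le_card_erase (s := vbl C \ dm g) (a := x)
        have h6 : τ - ((vbl C \ dm g).erase x).card = 0 := by omega
        rw [h6, pow_zero]
      rw [hw', hn', hd0, hn0, hwt]
      omega
  · have hw' : w τ ((x, b, φ) :: g) C = 0 := by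
      unfold w
      rw [if_neg h1]
    have hd : d τ g (x, b) C ≤ w τ g C := by
      unfold d w
      by_cases h2 : Crit τ g C ∧ (x, b) ∈ C
      · rw [if_pos h2, if_pos h2.1]
      · rw [if_neg h2]
        exact Nat.zero_le _
    rw [hw']
    omega

theorem claim {k τ : ℕ} {F : Finset (Finset (V × Bool))} (hk : IsKCNF k F) (hτ : τ < k)
    {h : List (V × Bool × Bool)} {K : Finset (Finset (V × Bool))} (hKF : K ⊆ F)
    (hcl : ∀ C ∈ K, ∀ E ∈ ever F τ h, adj C E → E ∈ K) (g : List (V × Bool × Bool))
    (hg : g <:+ h) (hv : LKTL.Valid F τ g) :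
    ∑ C ∈ K, w τ g C ≤ ∑ C ∈ K, n τ g C := by
  classical
  induction g with
  | nil =>
    have h0 : ∑ C ∈ K, w τ ([] : List (V × Bool × Bool)) C = 0 := by
      refine sum_eq_zero fun C hC => ?_
      unfold w
      rw [if_neg]
      rintro ⟨-, h2⟩
      have h3 : vbl C \ dm ([] : List (V × Bool × Bool)) = vbl C := by simp [dm]
      rw [h3, (hk C (hKF hC)).2] at h2
      omega
    rw [h0]
    exact Nat.zero_le _
  | cons e g ih =>
    obtain ⟨x, b, φ⟩ := e
    obtain ⟨hv1, hx, hfree, hforced⟩ := hv
    have hg' : g <:+ h := (List.suffix_cons _ g).trans hg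
    have ih := ih hg' hv1
    have hp : ∑ C ∈ K, (w τ ((x, b, φ) :: g) C + n τ g C + d τ g (x, b) C) ≤
        ∑ C ∈ K, (w τ g C + n τ ((x, b, φ) :: g) C + d τ g (x, !b) C) :=
      sum_le_sum fun C _ => point hx C
    simp only [sum_add_distrib] at hp
    have hd : ∑ C ∈ K, d τ g (x, !b) C ≤ ∑ C ∈ K, d τ g (x, b) C := by
      by_cases hex : ∃ C ∈ K, Crit τ g C ∧ x ∈ vbl C
      · obtain ⟨C0, hC0, hcr, hxC0⟩ := hex
        cases φ with
        | true => exact absurd hcr (hfree rfl C0 (hKF hC0) hxC0)
        | false =>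
          have hs := (hforced rfl).2
          have e1 : ∑ C ∈ K, d τ g (x, !b) C ≤ side F τ g (x, !b) := by
            unfold side d
            rw [sum_filter]
            exact sum_le_sum_of_subset_of_nonneg hKF (fun _ _ _ => Nat.zero_le _)
          have e2 : side F τ g (x, b) ≤ ∑ C ∈ K, d τ g (x, b) C := by
            unfold side d
            rw [← sum_filter]
            refine sum_le_sum_of_subset_of_nonneg ?_ (fun _ _ _ => Nat.zero_le _)
            intro C hC
            obtain ⟨hC1, hC2, hC3⟩ := mem_filter.1 hC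
            refine mem_filter.2 ⟨?_, hC2, hC3⟩
            refine hcl C0 hC0 C ?_ ⟨x, hxC0, mem_vbl.2 ⟨b, hC3⟩⟩
            exact mem_filter.2 ⟨hC1, g, hg', hC2⟩
          exact e1.trans (hs.trans e2)
      · have h0 : ∑ C ∈ K, d τ g (x, !b) C = 0 := by
          refine sum_eq_zero fun C hC => ?_
          unfold d
          rw [if_neg]
          rintro ⟨h1, h2⟩
          exact hex ⟨C, hC, h1, mem_vbl.2 ⟨_, h2⟩⟩
        rw [h0]
        exact Nat.zero_le _
    omega

theorem big_comp {k τ : ℕ} {F : Finset (Finset (V × Bool))} (hk : IsKCNF k F) (hτ : τ < k)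
    {h : List (V × Bool × Bool)} (hv : LKTL.Valid F τ h) {D : Finset (V × Bool)} (hD : D ∈ F)
    (hf : ∀ l ∈ D, ∃ φ, (l.1, !l.2, φ) ∈ h) :
    D ∈ ever F τ h ∧ 2 ^ τ ≤ (comp (ever F τ h) D).card := by
  classical
  have hop : Open h D := by
    intro l hl φ hm
    obtain ⟨φ', hm'⟩ := hf l hl
    have h1 := uniq hv hm hm'
    have h2 := (Prod.mk.inj h1).1
    cases hb : l.2 <;> rw [hb] at h2 <;> exact absurd h2 (by decide)
  have hsub : vbl D \ dm h = ∅ := by
    rw [sdiff_eq_empty_iff_subset]
    intro x hx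
    obtain ⟨c, hc⟩ := mem_vbl.1 hx
    obtain ⟨φ, hm⟩ := hf (x, c) hc
    exact mem_dm.2 ⟨_, _, hm⟩
  have hcr : Crit τ h D := ⟨hop, by rw [hsub, card_empty]; exact Nat.zero_le _⟩
  have hDe : D ∈ ever F τ h := mem_filter.2 ⟨hD, h, List.suffix_refl _, hcr⟩
  refine ⟨hDe, ?_⟩
  have hsubF : comp (ever F τ h) D ⊆ F := (comp_sub _ _).trans (filter_subset _ _)
  have hc := claim hk hτ hsubF (fun C hC E hE hadj => comp_closed hC hE hadj) h
    (List.suffix_refl _) hv
  have h1 : 2 ^ τ ≤ ∑ C ∈ comp (ever F τ h) D, w τ h C := by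
    have h2 : w τ h D = 2 ^ τ := by
      unfold w wt
      rw [if_pos hcr, hsub, card_empty, Nat.sub_zero]
    rw [← h2]
    exact single_le_sum (f := fun C => w τ h C) (fun _ _ => Nat.zero_le _) (comp_self hDe)
  have h3 : ∑ C ∈ comp (ever F τ h) D, n τ h C ≤ (comp (ever F τ h) D).card := by
    calc ∑ C ∈ comp (ever F τ h) D, n τ h C ≤ ∑ _C ∈ comp (ever F τ h) D, 1 := by
          refine sum_le_sum fun C _ => ?_
          unfold n
          split_ifs
          · exact le_rfl
          · exact Nat.zero_le _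
      _ = (comp (ever F τ h) D).card := by simp
  exact h1.trans (hc.trans h3)

end Pool.Agent.LKTL.WeightS50
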